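import Pool.Agent.P.MP_d66c6d_pr.V.Iface
import Pool.Agent.P.MP_d66c6d_pr.M.Iface
import Pool.Agent.P.MP_d66c6d_pr.D.Iface
import Pool.Agent.P.MP_d66c6d_pr.A.Iface

/-! Step BLOW of the carpet project. -/

namespace Pool.Agent.P.MP_d66c6d_pr

open MeasureTheory ProbabilityTheory Set Metric Filter Topology
open scoped ENNReal

theorem p_BLOW (hREF1 : S_REF1) (hBASE : S_BASE) (hGRID : S_GRID) (hDMON : S_DMON) (hCOV : S_COV) :
    S_BLOW := by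
  intro ν hν κ L c θ e b hκ hL hc hsub ⟨heb, he, _⟩ htail hlow
  have p0 := ENNReal.half_pos (hBASE ν hν c (10 * L) hsub)
  obtain ⟨τ, hτ, ε₀, hε₀, hN⟩ := hlow 1 one_pos _ p0.ne'
  have key : ∀ ε ∈ Ioo 0 ε₀, ∀ (t : ℝ) (F : Set (Cfg KC)), NE 0 1 2 1 ⊆ NE 0 1 ε t ∪ F →
      soup ν c (ball 0 (10 * L)) F < soup ν c (ball 0 (10 * L)) (NE 0 1 2 1) / 2 →
      τ * ε ^ (-θ) ≤ t := fun ε hε t F h1 h2 => by
    by_contra hn
    have h4 := (measure_mono fun S hS => hDMON.2.2.2.2.1 _ _ 0 1 _ _ _ _ Subset.rfl le_rfl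
      (not_le.1 hn).le hS).trans (hN ε hε).2
    have h6 := ((measure_mono h1).trans (measure_union_le _ _)).trans_lt
      (ENNReal.add_lt_add_of_le_of_lt (measure_ne_top _ _) h4 h2)
    rw [ENNReal.add_halves] at h6
    exact lt_irrefl _ h6
  constructor
  · by_contra hθ
    obtain ⟨r, r1, r2, r3⟩ := (((tendsto_rpow_neg_nhdsGT_zero
      (show 2 - θ < 0 by linarith)).eventually_gt_atTop (104 / τ)).and
        (Eventually.and (Ioo_mem_nhdsGT hε₀) (Ioo_mem_nhdsGT two_pos))).exists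
    have r0 := r2.1
    have := key r r2 (26 * (2 / r) ^ 2 * 1) ∅ (fun S hS => Or.inl fun ξ hξ => by
      obtain ⟨γ, g1, g2, g3⟩ := hS ξ hξ
      exact ⟨γ, g1, g2, (hCOV r 1 _ r0).2.2.1 _ ((one_le_div r0).2 r3.2.le)
        (by rwa [div_mul_cancel₀ _ r0.ne'])⟩) (by rwa [measure_empty])
    rw [div_lt_iff₀ hτ, sub_eq_add_neg, Real.rpow_add r0, Real.rpow_two] at r1
    rw [← mul_le_mul_iff_left₀ (pow_pos r0 2), show 26 * (2 / r) ^ 2 * 1 * r ^ 2 = 104 by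
      field_simp; norm_num] at this
    linarith
  obtain ⟨A, hT⟩ := htail 1 one_pos 8
  obtain ⟨C, hC, r₀, hr₀, hR⟩ := hREF1 ν hν L A hL
  have ev : ∀ᶠ r in 𝓝[>] (0 : ℝ), ENNReal.ofReal (C * r) <
      soup ν c (ball 0 (10 * L)) (NE 0 1 2 1) / 2 := by
    refine Eventually.filter_mono nhdsWithin_le_nhds (Tendsto.eventually_lt_const p0 ?_)
    exact (ENNReal.continuous_ofReal.comp (continuous_const.mul continuous_id)).tendsto' 0 0
      (by simp)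
  obtain ⟨r, r1, r2, r3⟩ :=
    (ev.and (Eventually.and (Ioc_mem_nhdsGT hr₀) (Ioc_mem_nhdsGT one_pos))).exists
  have r0 := r2.1
  refine ⟨C * r ^ θ * (12 / r + 1) ^ 2 / τ, by positivity, ?_⟩
  filter_upwards [hT r r0, he.eventually_lt_const hε₀] with n ⟨c', hc', hT'⟩ hn
  have b0 : 0 ≤ b n * r ^ θ := (mul_pos (heb n).2 (by positivity)).le
  rw [div_mul_eq_mul_div, le_div_iff₀' hτ]
  refine key _ ⟨(heb n).1, hn⟩ _ _ (fun S hS => ?_)
    (((hR κ c 1 one_pos r r2 (e n) _ b0 (hT' c ⟨le_rfl, hc'.le⟩)).2 hκ hc).trans_lt r1)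
  obtain ⟨B, hB⟩ := hGRID.2.2.2.2.2.2 (sets S) r _ r0 (sep_subset _ _)
    ((hDMON.2.2.1 _ _ _).1 hS)
  have hB' : Skel (sets S) r B := hB.mono Subset.rfl fun γ h => ⟨h.1.1, h.2⟩
  by_cases h : Nle (sets S) 0 1 (e n) (C * (b n * r ^ θ) * B.card)
  · exact Or.inl (hDMON.2.2.2.2.1 _ _ _ _ _ _ _ _ Subset.rfl le_rfl ((mul_le_mul_of_nonneg_left
      (hGRID.2.2.2.2.2.1 _ r B r0 r3.2 hB').2 (mul_nonneg hC.le b0)).trans_eq (by ring)) h)
  · exact Or.inr ⟨B, hB', h⟩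

end Pool.Agent.P.MP_d66c6d_pr
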