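import Pool.Agent.P.MP_d66c6d_pr.V.Iface

/-! Step CGK of the carpet project. -/

namespace Pool.Agent.P.MP_d66c6d_pr

open MeasureTheory ProbabilityTheory Set Metric Filter Topology
open scoped ENNReal

theorem p_CGK (hCGP : S_CGP) :
    S_CGK := by
  intro L hL
  obtain ⟨r₀, h0, h⟩ := hCGP L hL
  refine ⟨r₀, h0, fun r hr T ε u t k hT hε hεr hu hM hZ ξ hξ => ?_⟩
  obtain ⟨ξ₀, x0, h1⟩ := h r hr T ε u hT hε hεr hu hM
  obtain ⟨ξ', x1, k', x, ρ, d, a0, a1, a2, a3⟩ := hZ (min ξ ξ₀) (lt_min hξ x0)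
  have f1 : Free (min ξ ξ₀) T ⊆ Free ξ T := Free_mono (min_le_left _ _) Subset.rfl
  have f2 : Free (min ξ ξ₀) T ⊆ Free ξ₀ T := Free_mono (min_le_right _ _) Subset.rfl
  have r0 := hr.1
  refine ⟨ξ', x1, k', x, ρ, fun i => ⌈300 * (d i : ℝ) / u + 1 / (4 * r)⌉₊, ?_,
    fun i => ⟨(a2 i).1, by linarith [(a2 i).2.1],
      (a2 i).2.2.trans (inter_subset_inter_left _ f1)⟩,
    a3.trans (iUnion_mono fun i => closure_mono ?_)⟩
  · calc _ ≤ ∑ i, (300 / u * ((d i : ℝ) + 1) + (1 / (4 * r) + 2)) := Finset.sum_le_sum fun i _ => by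
          have b1 := Nat.ceil_lt_add_one
            (show 0 ≤ 300 * (d i : ℝ) / u + 1 / (4 * r) by positivity)
          have b2 : 300 / u * ((d i : ℝ) + 1) = 300 * (d i : ℝ) / u + 300 / u := by ring
          have b3 : 0 < 300 / u := by positivity
          linarith
      _ = 300 / u * ∑ i, ((d i : ℝ) + 1) + k' * (1 / (4 * r) + 2) := by
          rw [Finset.sum_add_distrib, ← Finset.mul_sum, Finset.sum_const, Finset.card_univ,
            Fintype.card_fin, nsmul_eq_mul]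
      _ ≤ 300 / u * t + k * (1 / (4 * r) + 2) := by gcongr
      _ = _ := by ring
  · rintro y ⟨γ, g0, g1, g2, g3⟩
    exact ⟨γ, g0, g1, g2.trans (inter_subset_inter_left _ f1),
      (h1 γ _ (g2.trans (inter_subset_inter f2 (ball_subset_ball (by norm_num)))) g3).mono le_rfl
        (Nat.le_ceil _) Subset.rfl⟩

end Pool.Agent.P.MP_d66c6d_pr
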