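import Pool.Agent.P.MP_d66c6d_pr.V.Iface
import Pool.Agent.P.MP_d66c6d_pr.D.Iface
import Pool.Agent.P.MP_d66c6d_pr.S.Iface

/-! Step CGP of the carpet project. -/

namespace Pool.Agent.P.MP_d66c6d_pr

open MeasureTheory ProbabilityTheory Set Metric Filter Topology
open scoped ENNReal

namespace CgpA

theorem join_any (γ : Br) {G : Set ℂ} (h : range γ ⊆ G) (a b : unitInterval) :
    JoinedIn G (γ a) (γ b) := by
  have k : ∀ s t : unitInterval, s ≤ t → JoinedIn G (γ s) (γ t) := fun s t hst => by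
    obtain ⟨β, h0, h1, h2⟩ := exists_br_piece γ hst
    exact joinedIn_iff_br.2 ⟨β, h0, h1, h2 ▸ (image_subset_range _ _).trans h⟩
  rcases le_total a b with e | e
  · exact k a b e
  · exact (k b a e).symm

theorem exists_min {ι : Type} (Q : Finset ι) (f : ι → ℝ) (a : ℝ) (ha : 0 < a)
    (hf : ∀ i, 0 < f i) : ∃ x > (0 : ℝ), x ≤ a ∧ ∀ i ∈ Q, x ≤ f i := by
  classical
  induction Q using Finset.induction_on with
  | empty => exact ⟨a, ha, le_rfl, fun i hi => absurd hi (Finset.notMem_empty i)⟩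
  | insert j s _ ih =>
    obtain ⟨x, h0, h1, h2⟩ := ih
    refine ⟨min x (f j), lt_min h0 (hf j), (min_le_left _ _).trans h1, fun i hi => ?_⟩
    rcases Finset.mem_insert.1 hi with rfl | hi
    · exact min_le_right _ _
    · exact (min_le_left _ _).trans (h2 i hi)

end CgpA

theorem p_CGP (hCOVC : S_COVC) (hGRID : S_GRID) (hBLK : S_BLK) (hDMON : S_DMON) (hCELLS : S_CELLS) :
    S_CGP := by
  classical
  intro L hL
  have hM : (0 : ℝ) < (36 * L + 3) ^ 2 := by positivity
  refine ⟨1 / (8 * (36 * L + 3) ^ 2), by positivity, ?_⟩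
  rintro r ⟨hr, hr0⟩ T ε u hT hε hεr hu hMany
  have hh : 0 < r / 2 := half_pos hr
  have hr1 : r * (8 * (36 * L + 3) ^ 2) ≤ 1 := (le_div_iff₀ (by positivity)).1 hr0
  have hM1 : (1 : ℝ) ≤ (36 * L + 3) ^ 2 := one_le_pow₀ (by linarith)
  have hr2 : r ≤ 1 := by nlinarith
  have hLr : 10 * r ≤ L * r := mul_le_mul_of_nonneg_right hL hr.le
  obtain ⟨Q, hQ, -⟩ := hGRID.1 (r / 2) 3 0 hh (by norm_num)
  have hx : ∀ c : ℤ × ℤ, ∃ ξ > (0 : ℝ), ¬ Nle T (gp (r / 2) c) r ε u → ∀ γ : Br,
      CrsG (gp (r / 2) c) r γ → range γ ⊆ Free ξ T → ¬ Cov ε u (range γ) := fun c => by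
    by_cases h : Nle T (gp (r / 2) c) r ε u
    · exact ⟨1, one_pos, fun h' => absurd h h'⟩
    · have h' := h
      unfold Nle at h'
      simp only [not_forall, not_exists, not_and] at h'
      obtain ⟨ξ, h0, h1⟩ := h'
      exact ⟨ξ, h0, fun _ γ a b => h1 γ a b⟩
  choose ξc hξ0 hξ1 using hx
  obtain ⟨ξ₀, h0, h1, h2⟩ := CgpA.exists_min Q ξc (L * r) (by linarith) hξ0
  refine ⟨ξ₀, h0, fun γ d hγ hd => ?_⟩
  obtain ⟨hfin, han, hcov, -⟩ := hCELLS (r / 2) (range γ) hh (isCompact_range γ.continuous)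
    (isPreconnected_range γ.continuous)
  set B := hfin.toFinset with hB
  have hmem : ∀ c, c ∈ B ↔ c ∈ cells (r / 2) (range γ) := fun c => hfin.mem_toFinset
  have hcB : Cov r B.card (range γ) := by
    refine ⟨B.image (gp (r / 2)), by exact_mod_cast Finset.card_image_le, fun x hx => ?_⟩
    obtain ⟨c, hc, hx'⟩ := hcov x hx
    exact mem_iUnion₂.2 ⟨_, Finset.mem_image_of_mem _ ((hmem c).2 hc),
      closedBall_subset_ball (by linarith) hx'⟩
  have hd0 : 0 ≤ 300 * d / u := div_nonneg (mul_nonneg (by norm_num) hd.nonneg) hu.le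
  have h4 : 0 < 1 / (4 * r) := by positivity
  refine hcB.mono le_rfl ?_ Subset.rfl
  rcases lt_or_ge (8 * (r / 2) * (B.card : ℝ)) 1 with hs | hs
  · have : (B.card : ℝ) ≤ 1 / (4 * r) := by
      rw [le_div_iff₀ (by positivity)]
      linarith
    linarith
  have hn : ∀ c ∈ B, ‖gp (r / 2) c‖ ≤ 3 := fun c hc => by
    obtain ⟨x, hx, hx'⟩ := (hmem c).1 hc
    have a1 := mem_ball.1 (hγ hx).2
    have a2 := mem_closedBall'.1 hx'
    have a3 := dist_triangle (gp (r / 2) c) x 0
    rw [dist_zero_right] at a3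
    linarith
  have hAni : Ani (r / 2) B := by
    refine ⟨?_, hn, hs⟩
    obtain ⟨c, hc, -⟩ := hcov (γ 0) (mem_range_self _)
    refine ⟨c, ?_⟩
    rw [hB, hfin.coe_toFinset]
    exact han c hc
  have hbad : 4 * (B.filter (badN T L r ε u)).card ≤ B.card := by
    by_contra hlt
    refine hMany ⟨B, hAni, ?_⟩
    have e : {c | c ∈ B ∧ badN T L r ε u c} = ↑(B.filter (badN T L r ε u)) := by
      ext c
      simp only [mem_ofPred_eq, Finset.coe_filter]
    rw [e, ncard_coe_finset]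
    exact not_le.1 hlt
  have hfar : ∀ z : ℂ, ∃ b, γ b ∉ closedBall z (9 * (L * r)) := fun z => by
    by_contra hc
    simp only [not_exists, not_not] at hc
    obtain ⟨Q', q1, q2⟩ := hGRID.1 (r / 2) (9 * (L * r) + r / 2) z hh (by linarith)
    have q3 : B ⊆ Q' := fun c hc' => by
      obtain ⟨x, ⟨b, rfl⟩, hx'⟩ := (hmem c).1 hc'
      rw [q1]
      have a1 := mem_closedBall.1 (hc b)
      have a2 := mem_closedBall'.1 hx'
      linarith [dist_triangle (gp (r / 2) c) (γ b) z]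
    have q4 : (B.card : ℝ) ≤ Q'.card := by exact_mod_cast Finset.card_le_card q3
    have q5 : 2 * (9 * (L * r) + r / 2) / (r / 2) + 1 = 36 * L + 3 := by
      field_simp
      ring
    rw [q5] at q2
    have q6 := mul_le_mul_of_nonneg_left (q4.trans q2) hr.le
    nlinarith
  set G := B.filter (fun c => ¬ badN T L r ε u c) with hG
  have hgood : ∀ c ∈ G,
      ¬ Cov ε u (range γ ∩ closedBall (gp (r / 2) c) (31 / 20 * r)) := fun c hc hcv => by
    obtain ⟨hcB', hnb⟩ := Finset.mem_filter.1 hc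
    obtain ⟨x, ⟨a, rfl⟩, hx'⟩ := (hmem c).1 hcB'
    obtain ⟨b, hb⟩ := hfar (gp (r / 2) c)
    have hno : NoC T (gp (r / 2) c) (L * r) :=
      hBLK T _ (γ a) (γ b) _ _ hT (by linarith) h1
        (closedBall_subset_closedBall (by linarith) hx') hb
        (CgpA.join_any γ (hγ.trans inter_subset_left) a b)
    have hN : ¬ Nle T (gp (r / 2) c) r ε u := fun h => hnb ⟨h, hno⟩
    obtain ⟨γ', g1, g2⟩ := hDMON.2.1 γ (gp (r / 2) c) r hr ⟨γ a, mem_range_self _, hx'⟩
      fun h => hb (ball_subset_closedBall.trans (closedBall_subset_closedBall (by linarith))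
        (h (mem_range_self b)))
    have hcQ : c ∈ Q := (hQ c).2 (by rw [dist_zero_right]; exact hn c hcB')
    exact hξ1 c hN γ' g1 ((g2.trans inter_subset_left).trans ((hγ.trans inter_subset_left).trans
      (Free_mono (h2 c hcQ) Subset.rfl))) (hcv.mono le_rfl le_rfl g2)
  obtain ⟨G', s1, s2, s3⟩ := hGRID.2.2.2.1 7 G
  have key := hCOVC.1 (ℤ × ℤ) G' (fun c => range γ ∩ closedBall (gp (r / 2) c) (31 / 20 * r))
    (range γ) ε d u hd (fun c hc => ⟨inter_subset_left, hgood c (s1 hc)⟩)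
    fun i hi j hj hij x hx y hy => by
      have a1 := s2 i hi j hj hij
      have a2 := (hGRID.2.2.1 (r / 2) i j hh).1
      have a3 := mul_le_mul_of_nonneg_left a1 hh.le
      have a4 := mem_closedBall'.1 hx.2
      have a5 := mem_closedBall.1 hy.2
      have a6 := dist_triangle4 (gp (r / 2) i) x y (gp (r / 2) j)
      push_cast at a3
      linarith
  have c1 := Finset.card_filter_add_card_filter_not (s := B) (badN T L r ε u)
  have c2 : B.card ≤ 300 * G'.card := by
    rw [← hG] at c1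
    omega
  have c3 : (B.card : ℝ) ≤ 300 * G'.card := by exact_mod_cast c2
  have c4 : (G'.card : ℝ) ≤ d / u := (le_div_iff₀ hu).2 key
  rw [mul_div_assoc]
  linarith

end Pool.Agent.P.MP_d66c6d_pr
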