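import Pool.Agent.P.MP_d66c6d_pr.V.Iface
import Pool.Agent.P.MP_d66c6d_pr.S.Iface2
import Pool.Agent.P.MP_d66c6d_pr.F.Iface
import Pool.Agent.P.MP_d66c6d_pr.T.Iface
import Pool.Agent.P.MP_d66c6d_pr.S.Cova

/-! Step COVA1 of the carpet project. -/

namespace Pool.Agent.P.MP_d66c6d_pr

open MeasureTheory ProbabilityTheory Set Metric Filter Topology
open scoped ENNReal

theorem p_COVA1 (hLAY1 : S_LAY1) (hCOVR : S_COVR) (hPPO : S_PPO) (hMUK : S_MUK) (hFILL : S_FILL) :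
    S_COVA1 := by
  intro ν hν c c₂ hc hcc hc1 hL V R hV hVR
  have hx : IsProbabilityMeasure (xsoup ν c R) := instProbPP _
  have h1 := Measure.ae_ae_of_ae_prod
    (hLAY1 ν hν c ((c + c₂) / 2) c₂ hc (by linarith) (by linarith) hc1 hL V R hV hVR)
  obtain ⟨φ, hφ⟩ := hV
  have hVo : IsOpen V := hφ ▸ φ.isOpenMap _ isOpen_ball
  have hVn : V.Nonempty := hφ ▸ (nonempty_ball.2 one_pos).image _
  have hVp : IsPreconnected V :=
    hφ ▸ (convex_ball (0 : ℂ) 1).isPreconnected.image _ φ.continuous.continuousOn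
  refine h1.mono fun N hN => ?_
  obtain ⟨X, hX, hX'⟩ := (hN.and (CovaA.lab hPPO hMUK hν c R)).exists
  obtain ⟨-, -, -, h4, h5, h6, -⟩ := hCOVR V _ _ _ hVo (isBounded_ball.subset hVR) hX
  have e : lay V N X c = ins V (trace '' N.pts) := by rw [lay, hX', union_empty]
  simp only [e, CovaA.outers_ins, CovaA.cle_ins] at h4 h5 h6
  have ho : ∀ W ∈ cleIn2 (trace '' N.pts) V, IsOpen W ∧ W ⊆ V := fun W hW =>
    CovaA.isOpen_of hVo hW.1
  have h0 : V ∉ cleIn2 (trace '' N.pts) V := fun h => h6 hVn h.1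
  refine ⟨h0, h4, ?_, fun z hz => ⟨frontier_subset_closure hz, ?_⟩, fun l hl B hB hBV hlB => ?_⟩
  · by_contra hn
    refine h0 (CovaA.mem_of_cover hVp hVn ho h5 fun z hz => ?_)
    by_contra hz'
    exact hn ⟨z, ⟨subset_closure hz, hz'⟩, hz⟩
  · rintro ⟨W, hW, hzW⟩
    rw [hVo.frontier_eq] at hz
    exact hz.2 ((ho W hW).2 hzW)
  · have hk : IsCompact (trace l) := range_lp l ▸ isCompact_range (lp l).2.continuous
    have hf : fill (trace l) ⊆ V := ((hFILL _ hk).2.2.2.2.2.1 B hB hlB).trans hBV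
    obtain ⟨W', hW', hs⟩ := h4 _ ⟨trace l, mem_image_of_mem _ hl, hlB.trans hBV, rfl⟩
    refine disjoint_left.2 fun z hz hz' => hz.2 ⟨W', hW', hs ⟨hf (interior_subset hz'), ?_⟩⟩
    refine interior_mono (fill_mono (Subset.trans ?_ subset_closure)) hz'
    exact subset_sUnion_of_mem Relation.ReflTransGen.refl

end Pool.Agent.P.MP_d66c6d_pr
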