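import Pool.Agent.P.MP_d66c6d_pr.V.Iface
import Pool.Agent.P.MP_d66c6d_pr.A.Iface
import Pool.Agent.P.MP_d66c6d_pr.D.Iface

/-! Step COVC of the carpet project. -/

namespace Pool.Agent.P.MP_d66c6d_pr

open MeasureTheory ProbabilityTheory Set Metric Filter Topology
open scoped ENNReal

theorem p_COVC (hCOV : S_COV) (hDMON : S_DMON) :
    S_COVC := by
  classical
  have c1 : ∀ (ι : Type) (I : Finset ι) (Q : ι → Set ℂ) (A : Set ℂ) (ε t u : ℝ), Cov ε t A →
      (∀ i ∈ I, Q i ⊆ A ∧ ¬ Cov ε u (Q i)) →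
      (∀ i ∈ I, ∀ j ∈ I, i ≠ j → ∀ x ∈ Q i, ∀ y ∈ Q j, 2 * ε ≤ dist x y) → I.card * u ≤ t := by
    rintro ι I Q A ε t u ⟨Z, hZ, hA⟩ hQ hd
    have h1 : ∀ i ∈ I, u ≤ ((Z.filter fun z => (Q i ∩ ball z ε).Nonempty).card : ℝ) := by
      intro i hi
      refine (not_le.1 fun h => (hQ i hi).2 ⟨_, h, fun x hx => ?_⟩).le
      obtain ⟨z, h2, h3⟩ := mem_iUnion₂.1 (hA ((hQ i hi).1 hx))
      exact mem_iUnion₂.2 ⟨z, Finset.mem_filter.2 ⟨h2, x, hx, h3⟩, h3⟩
    have h2 := Finset.card_biUnion (s := I)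
      (t := fun i => Z.filter fun z => (Q i ∩ ball z ε).Nonempty) fun i hi j hj hij =>
        Finset.disjoint_left.2 fun z h3 h4 => by
          obtain ⟨-, x, x1, x2⟩ := Finset.mem_filter.1 h3
          obtain ⟨-, y, y1, y2⟩ := Finset.mem_filter.1 h4
          linarith [hd i hi j hj hij x x1 y y1, dist_triangle_right x y z, mem_ball.1 x2,
            mem_ball.1 y2]
    have h3 := Finset.card_le_card (Finset.biUnion_subset.2 fun i (_ : i ∈ I) =>
      Finset.filter_subset (fun z => (Q i ∩ ball z ε).Nonempty) Z)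
    rw [h2] at h3
    rw [← nsmul_eq_mul, ← Finset.sum_const]
    refine (Finset.sum_le_sum h1).trans (le_trans ?_ hZ)
    exact_mod_cast h3
  refine ⟨c1, fun γ ε y t hε hy h => ?_⟩
  have ht := h.nonneg
  have hy0 : 0 < y := hε.trans_le hy
  have hq : 0 ≤ t * ε / y := by positivity
  rcases le_or_gt y (12 * ε) with h12 | h12
  · refine h.mono hy (le_trans ?_ (le_add_of_nonneg_right zero_le_one)) Subset.rfl
    rw [mul_div_assoc', le_div_iff₀ hy0]
    nlinarith
  have key : ∀ I : Finset ℂ, (∀ p ∈ I, p ∈ range γ) → (∀ p ∈ I, ∀ q ∈ I, p ≠ q → y ≤ dist p q) →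
      (I.card : ℝ) ≤ 12 * (t * ε / y) + 1 := by
    intro I hI hs
    rcases le_or_gt I.card 1 with h1 | h1
    · have : (I.card : ℝ) ≤ 1 := by exact_mod_cast h1
      linarith
    have h2 := c1 ℂ I (fun p => range γ ∩ closedBall p (31 / 20 * (y / 4))) _ ε t (y / (8 * ε)) h
      (fun p hp => ⟨inter_subset_left, fun hc => ?_⟩) fun p hp q hq hpq a ha b hb => ?_
    · rw [← le_div_iff₀ (by positivity), div_div_eq_mul_div] at h2
      have : t * (8 * ε) / y = 8 * (t * ε / y) := by ring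
      linarith
    · obtain ⟨q, hq, hqp⟩ := Finset.exists_mem_ne h1 p
      obtain ⟨γ', ⟨a1, a2⟩, a3⟩ := hDMON.2.1 γ p (y / 4) (by positivity)
        ⟨p, hI p hp, mem_closedBall_self (by positivity)⟩ fun h3 => by
          linarith [mem_ball.1 (h3 (hI q hq)), hs q hq p hp hqp]
      have h3 := (hCOV ε (y / (8 * ε)) (range γ') hε).2.2.2.2.2.1
        (isPreconnected_range γ'.continuous) (hc.mono le_rfl le_rfl a3) _ (mem_range_self 1) _
        (mem_range_self 0)
      have h4 : 2 * ε * (y / (8 * ε)) = y / 4 := by field_simp; ring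
      rw [mem_ball, not_lt] at a2
      linarith [mem_closedBall.1 a1, dist_triangle (γ' 1) (γ' 0) p]
    · linarith [mem_closedBall.1 ha.2, mem_closedBall.1 hb.2, hs p hp q hq hpq,
        dist_triangle_left p q a, dist_triangle a b q]
  have hb : BddAbove {n : ℕ | ∃ I : Finset ℂ, (∀ p ∈ I, p ∈ range γ) ∧
      (∀ p ∈ I, ∀ q ∈ I, p ≠ q → y ≤ dist p q) ∧ I.card = n} := by
    refine ⟨⌈12 * (t * ε / y) + 1⌉₊, ?_⟩
    rintro _ ⟨I, h1, h2, rfl⟩
    exact_mod_cast (key I h1 h2).trans (Nat.le_ceil _)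
  obtain ⟨I, h1, h2, h3⟩ := Nat.sSup_mem ⟨0, by exact ⟨∅, by simp, by simp, rfl⟩⟩ hb
  refine ⟨I, key I h1 h2, fun x hx => ?_⟩
  by_contra hn
  simp only [mem_iUnion, not_exists, mem_ball, not_lt] at hn
  have h4 : x ∉ I := fun h5 => by simpa [hy0.not_ge] using hn x h5
  have h5 := le_csSup hb (a := (insert x I).card) ⟨_, ?_, ?_, rfl⟩
  · rw [Finset.card_insert_of_notMem h4] at h5
    omega
  · simpa only [Finset.forall_mem_insert] using And.intro hx h1
  · simp only [Finset.forall_mem_insert]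
    exact ⟨⟨fun h => absurd rfl h, fun q hq _ => hn q hq⟩,
      fun p hp => ⟨fun _ => dist_comm x p ▸ hn p hp, h2 p hp⟩⟩

end Pool.Agent.P.MP_d66c6d_pr
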