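import Pool.Agent.P.MP_d66c6d_pr.V.Iface
import Pool.Agent.P.MP_d66c6d_pr.A.Iface
import Pool.Agent.P.MP_d66c6d_pr.F.Iface
import Pool.Agent.P.MP_d66c6d_pr.A.Dat

/-! Step DAT1 of the carpet project. -/

namespace Pool.Agent.P.MP_d66c6d_pr

open MeasureTheory ProbabilityTheory Set Metric Filter Topology
open scoped ENNReal

open DatA in
theorem p_DAT1 (hTRF : S_TRF) (hHOM : S_HOM) (hJOR : S_JOR) (hPPO : S_PPO) (hMUK : S_MUK) :
    S_DAT1 := by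
  rintro ν hν c θ e b ⟨-, Ω, _, _, P, Γ, κ, hκ, hC, ⟨ρ, hρ, hpos⟩, hr⟩
  have := hC.1
  have hρ0 := hρ.1
  have hr0 : 0 < 3 / ρ := by positivity
  have hrc : ((3 / ρ : ℝ) : ℂ) ≠ 0 := by exact_mod_cast hr0.ne'
  refine ⟨3 / ρ, ?_, fun s J hs hJ => ?_⟩
  · rw [le_div_iff₀ hρ0]
    linarith [hρ.2]
  obtain ⟨n, a, hn, hlim, hX⟩ := hr (3 / ρ) hr0 s J hs hJ
  refine ⟨n, a, hn, hlim, fun τ hτ => ?_⟩
  obtain ⟨V, hV, h1, h2, h3⟩ := hTRF ν hν κ Ω P Γ hC ρ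
    {G | (∀ W ∈ G, IsJordan W) ∧
      XU (dil (3 / ρ) (firstCarpet G)) a (fun k => e (n k) / s k) ∧
      XL (dil (3 / ρ) (firstCarpet G)) a (fun k => e (n k) / s k)} (by
      filter_upwards [hC.2.1, hX] with ω a1 a2
      refine ⟨fun W hW => a1 W hW.1, ?_⟩
      rw [firstCarpet_within]
      exact a2) hpos τ hτ
  refine ⟨(fun z => ((3 / ρ : ℝ) : ℂ) * z + 0) '' V, (hJOR V hV).2.2.2.2.2.2.2.2.2 _ 0 hrc,
    ball_sub hr0 (div_mul_cancel₀ _ hρ0.ne') h1, sub_ball hr0 le_rfl (subset_closure.trans h2),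
    fun E hE hQ => ?_⟩
  have hm : Measurable (aff ((3 / ρ : ℝ) : ℂ) 0) := (cont_aff _ _).measurable
  have := (hMUK ν hν).1
  have e1 := (hPPO Lp (intensity κ • loopMeasure ν) inferInstance).2.2.1 Lp _ hm
  rw [Measure.map_smul, hν.map_aff hrc] at e1
  rw [← hκ, ← e1, Measure.map_apply (measurable_cfgMap hm) hE]
  refine h3 _ (measurable_cfgMap hm hE) fun N hN G hG hG' => hQ _ hN ?_
  rw [trace_map hrc]
  exact good hHOM hJOR hrc hG hG'.1 hG'.2.1 hG'.2.2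

end Pool.Agent.P.MP_d66c6d_pr
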