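import Pool.Agent.P.MP_d66c6d_pr.Defs3
import Pool.Agent.P.MP_d66c6d_pr.M.Iface
import Pool.Agent.P.MP_d66c6d_pr.J.Defs

/-!
One sequence of scales: windows of good scales, and the connection cost with few classes.
-/

namespace Pool.Agent.P.MP_d66c6d_pr

open MeasureTheory ProbabilityTheory Set Metric Filter Topology
open scoped ENNReal

/-- `θ` is the exponent of a limit metric at the intensity `c`. -/
def Lv0 (ν : Measure Br) (c θ : ℝ) : Prop :=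
  ∃ (Ω : Type) (_ : MeasurableSpace Ω) (_ : StandardBorelSpace Ω) (P : Measure Ω)
    (Γ : Ω → Set (Set ℂ)) (κ : ℝ), intensity κ = ENNReal.ofReal c ∧ IsPlaneCLE ν κ P Γ ∧
    IsLimitExp P (fun ω => firstCarpet (Γ ω)) θ

/-- The same for an ensemble of simple loops. -/
def Lv1 (ν : Measure Br) (c θ : ℝ) : Prop :=
  ∃ (Ω : Type) (_ : MeasurableSpace Ω) (_ : StandardBorelSpace Ω) (P : Measure Ω)
    (Γ : Ω → Set (Set ℂ)) (κ : ℝ), intensity κ = ENNReal.ofReal c ∧ IsCLE ν κ P Γ ∧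
    IsLimitExp P (fun ω => firstCarpet (Γ ω)) θ

/-- The scales `e n` and the normalisations `b n`. -/
def Sq0 (θ : ℝ) (e b : ℕ → ℝ) : Prop :=
  (∀ n, 0 < e n ∧ 0 < b n) ∧ Tendsto e atTop (𝓝 0) ∧
    ∃ c₀ > (0 : ℝ), ∀ s > (0 : ℝ), ∀ᶠ n in atTop, c₀ ≤ b n * s ^ θ * (e n / s)

/-- The property `p` holds along suitable diagonal sequences of good scales `e n / s` with the
normalisations `b n * s ^ θ`. -/
def Diag (θ : ℝ) (e b : ℕ → ℝ) (p : (ℝ → ℝ) → (ℕ → ℝ) → Prop) : Prop :=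
  ∀ (s : ℕ → ℝ) (J : ℕ → Set ℕ), (∀ k, 0 < s k) → (∀ k, ∃ᶠ n in atTop, n ∈ J k) →
    ∃ (n : ℕ → ℕ) (a : ℝ → ℝ), (∀ k, n k ∈ J k ∧ a (e (n k) / s k) = b (n k) * s k ^ θ) ∧
      Tendsto (fun k => e (n k) / s k) atTop (𝓝 0) ∧ p a fun k => e (n k) / s k

/-- The window of good scales of the ensemble. -/
def LvW (ν : Measure Br) (c θ : ℝ) (e b : ℕ → ℝ) : Prop :=
  Sq0 θ e b ∧ ∃ (Ω : Type) (_ : MeasurableSpace Ω) (_ : StandardBorelSpace Ω) (P : Measure Ω)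
    (Γ : Ω → Set (Set ℂ)) (κ : ℝ), intensity κ = ENNReal.ofReal c ∧ IsCLE ν κ P Γ ∧
    (∃ ρ ∈ Ioc (0 : ℝ) (1 / 2), P {ω | ∃ V, IsFirst (Γ ω) V ∧ ball 0 ρ ⊆ V} ≠ 0) ∧
    ∀ r > (0 : ℝ), Diag θ e b fun a x => ∀ᵐ ω ∂P,
      XU (dil r (firstCarpet (Γ ω))) a x ∧ XL (dil r (firstCarpet (Γ ω))) a x

/-- The window, with the lower bound for the normalisations. -/
def LvF (ν : Measure Br) (c θ : ℝ) : Prop :=
  ∃ e b : ℕ → ℝ, LvW ν c θ e b ∧ ∃ C > (0 : ℝ), ∀ᶠ n in atTop, e n ^ (-θ) ≤ C * b n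

/-- The data of a level along the sequence `x`. -/
def DatS (ν : Measure Br) (c R : ℝ) (a : ℝ → ℝ) (x : ℕ → ℝ) : Prop :=
  ∀ τ : ℝ≥0∞, τ ≠ 0 → ∃ V, IsJordan V ∧ ball 0 3 ⊆ V ∧ V ⊆ ball 0 R ∧
    ∀ E : Set (Cfg Lp), MeasurableSet E → (∀ N ∈ E, ¬ QG V (trace '' N.pts) a x) →
      PP (ENNReal.ofReal c • loopMeasure ν) E ≤ τ

/-- The standing assumptions at the level `c`. -/
structure Ctx (ν : Measure Br) (κ L : ℝ) (β : Measure TP) (c c₂ : ℝ) : Prop where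
  br : IsBridge ν
  str : Str ν L β
  ucs : UCS ν κ L β
  pos : 0 < c
  lt : c < c₂
  le : c₂ ≤ 1
  sub : SubC ν (ENNReal.ofReal c₂)

/-- The points with an arm in `G'` are covered by at most `k₀` sets of small cost radius in `G`,
of total weight at most `t`. -/
def ZatK (G G' A : Set ℂ) (ε : ℝ) (k₀ : ℕ) (t : ℝ) : Prop :=
  ∃ (k : ℕ) (x : Fin k → ℂ) (ρ : Fin k → ℝ) (d : Fin k → ℕ), k ≤ k₀ ∧ ∑ i, ((d i : ℝ) + 1) ≤ t ∧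
    (∀ i, 0 ≤ ρ i ∧ ρ i < ε ∧ closedBall (x i) (ρ i) ⊆ G ∩ ball 0 (5 / 4 * 1)) ∧
    Arm G' A 0 1 ⊆
      ⋃ i, closure (Reach (G ∩ ball 0 (5 / 4 * 1)) ε (d i) (closedBall (x i) (ρ i)))

/-- The connection cost with arms to `A` is at most `t`, with at most `k` classes. -/
def ZleKA (T : Set (Set ℂ)) (A : Set ℂ) (ε : ℝ) (k : ℕ) (t : ℝ) : Prop :=
  ∀ ξ > (0 : ℝ), ∃ ξ' > (0 : ℝ), ZatK (Free ξ T) (Free ξ' T) A ε k t

/-- The local connection cost is at most `t`, with at most `k` classes. -/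
def ZleK (T : Set (Set ℂ)) (ε : ℝ) (k : ℕ) (t : ℝ) : Prop :=
  ZleKA T (ball 0 (31 / 20 * 1))ᶜ ε k t

/-- Many classes or expensive local connections. -/
def ZK (ε : ℝ) (k : ℕ) (t : ℝ) : Set (Cfg KC) := {S | ¬ ZleK (sets S) ε k t}

/-- Many classes or expensive global connections at the level `c`. -/
def GZK (c R ε : ℝ) (k : ℕ) (t : ℝ) : Set (Cfg (KC × ℝ)) :=
  {S | Near (sets (lev c S)) ∧ ¬ ZleKA (sets (lev c S)) (ball 0 R)ᶜ ε k t}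

/-- The property `p c x u` holds at the good scales `x` with normalisation `u`, at the level `c₀`
and slightly above. -/
def GoodS (θ : ℝ) (e b : ℕ → ℝ) (c₀ : ℝ) (p : ℝ → ℝ → ℝ → Prop) : Prop :=
  ∀ s > (0 : ℝ), ∀ᶠ n in atTop, ∃ c' > c₀, ∀ c ∈ Icc c₀ c', p c (e n / s) (b n * s ^ θ)

/-- Tightness of the connection cost at the good scales. -/
def TightK (ν : Measure Br) (κ L c₀ θ : ℝ) (e b : ℕ → ℝ) : Prop :=
  ∀ lam > (0 : ℝ), ∀ p : ℝ≥0∞, p ≠ 0 → ∃ (k : ℕ) (C : ℝ), 0 ≤ C ∧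
    GoodS θ e b c₀ fun c x u => Rare ν κ c lam L 0 1 (ZK x k (C * u)) p

/-- Cheap crossings are rare at the good scales. -/
def LowS (ν : Measure Br) (κ L c₀ θ : ℝ) (e b : ℕ → ℝ) : Prop :=
  ∀ lam > (0 : ℝ), ∀ p : ℝ≥0∞, p ≠ 0 → ∃ τ > (0 : ℝ),
    GoodS θ e b c₀ fun c x u => Rare ν κ c lam L 0 1 (NE 0 1 x (τ * u)) p ∧
      soup ν c (ball 0 (10 * L)) (NE 0 1 x (τ * u)) ≤ p

/-- Polynomial tails of the connection cost at the good scales. -/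
def TailS (ν : Measure Br) (κ L c₀ θ : ℝ) (e b : ℕ → ℝ) : Prop :=
  ∀ lam > (0 : ℝ), ∀ α : ℕ, ∃ A : ℝ, GoodS θ e b c₀ fun c x u => ∀ t : ℝ, 1 ≤ t →
    Rare ν κ c lam L 0 1 (ZB 0 1 x (t * u)) (ENNReal.ofReal (A / t ^ α))

/-- The cell `c` of the scale `r` has a cheap crossing. -/
def badN (T : Set (Set ℂ)) (L r ε u : ℝ) (c : ℤ × ℤ) : Prop :=
  Nle T (gp (r / 2) c) r ε u ∧ NoC T (gp (r / 2) c) (L * r)

theorem IsPlaneCLE.zero {ν : Measure Br} {κ : ℝ} {Ω : Type} [MeasurableSpace Ω] {P : Measure Ω}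
    {Γ : Ω → Set (Set ℂ)} (h : IsPlaneCLE ν κ P Γ) : IsCLE0 ν κ P Γ := h

theorem ZleK.zle {T : Set (Set ℂ)} {ε t : ℝ} {k : ℕ} (h : ZleK T ε k t) : Zle T 0 1 ε t :=
  fun ξ hξ => by
    obtain ⟨ξ', h0, k, x, ρ, d, -, h1⟩ := h ξ hξ
    exact ⟨ξ', h0, k, x, ρ, d, h1⟩

theorem GoodS.and {θ c₀ : ℝ} {e b : ℕ → ℝ} {p q : ℝ → ℝ → ℝ → Prop} (h : GoodS θ e b c₀ p)
    (h' : GoodS θ e b c₀ q) {s s' : ℝ} (hs : 0 < s) (hs' : 0 < s') :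
    ∀ᶠ n in atTop, ∃ c' > c₀, ∀ c ∈ Icc c₀ c',
      p c (e n / s) (b n * s ^ θ) ∧ q c (e n / s') (b n * s' ^ θ) := by
  filter_upwards [h s hs, h' s' hs'] with n ⟨c₁, h1, h2⟩ ⟨c₂, h3, h4⟩
  exact ⟨min c₁ c₂, lt_min h1 h3, fun c hc => ⟨h2 c ⟨hc.1, hc.2.trans (min_le_left _ _)⟩,
    h4 c ⟨hc.1, hc.2.trans (min_le_right _ _)⟩⟩⟩

end Pool.Agent.P.MP_d66c6d_pr
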