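import Pool.Agent.P.MP_d66c6d_pr.V.Iface
import Pool.Agent.P.MP_d66c6d_pr.D.Iface
import Pool.Agent.P.MP_d66c6d_pr.D.Dloc
import Pool.Agent.P.MP_d66c6d_pr.D.Czn

/-! Step DLK of the carpet project. -/

namespace Pool.Agent.P.MP_d66c6d_pr

open MeasureTheory ProbabilityTheory Set Metric Filter Topology
open scoped ENNReal

namespace DlkA

/-- The set `B` is covered by at most `k₀` sets of small cost radius. -/
def ZC (G : Set ℂ) (ε : ℝ) (k₀ : ℕ) (t : ℝ) (B : Set ℂ) : Prop :=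
  ∃ (k : ℕ) (x : Fin k → ℂ) (ρ : Fin k → ℝ) (d : Fin k → ℕ), k ≤ k₀ ∧ ∑ i, ((d i : ℝ) + 1) ≤ t ∧
    (∀ i, 0 ≤ ρ i ∧ ρ i < ε ∧ closedBall (x i) (ρ i) ⊆ G) ∧
    B ⊆ ⋃ i, closure (Reach G ε (d i) (closedBall (x i) (ρ i)))

theorem ZC.mono {G G' B B' : Set ℂ} {ε t : ℝ} {k₀ : ℕ} (h : ZC G ε k₀ t B) (hG : G ⊆ G')
    (hB : B' ⊆ B) : ZC G' ε k₀ t B' := by
  obtain ⟨k, x, ρ, d, h0, h1, h2, h3⟩ := h
  exact ⟨k, x, ρ, d, h0, h1, fun i => ⟨(h2 i).1, (h2 i).2.1, (h2 i).2.2.trans hG⟩,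
    hB.trans (h3.trans (iUnion_mono fun i => closure_mono (DlocA.reach_mono hG _ _)))⟩

theorem ZC.iUnion {G : Set ℂ} {ε t : ℝ} {J k₀ : ℕ} {B : Fin J → Set ℂ}
    (h : ∀ i, ZC G ε k₀ t (B i)) : ZC G ε (J * k₀) (J * t) (⋃ i, B i) := by
  choose k x ρ d h0 h1 h2 h3 using h
  let e := (Fintype.equivFin (Σ i, Fin (k i))).symm
  refine ⟨_, fun j => x (e j).1 (e j).2, fun j => ρ (e j).1 (e j).2, fun j => d (e j).1 (e j).2,
    ?_, ?_, fun j => h2 _ _, ?_⟩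
  · rw [Fintype.card_sigma]
    exact (Finset.sum_le_sum fun i _ => (Fintype.card_fin _).trans_le (h0 i)).trans (by simp)
  · rw [e.sum_comp (fun s => ((d s.1 s.2 : ℝ) + 1)), Fintype.sum_sigma]
    exact (Finset.sum_le_sum fun i _ => h1 i).trans (by simp)
  · refine iUnion_subset fun i => (h3 i).trans (iUnion_subset fun j => ?_)
    refine subset_iUnion_of_subset (e.symm ⟨i, j⟩) ?_
    simp only
    rw [e.apply_symm_apply]

end DlkA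

open DlkA in
theorem p_DLK (hDMK : S_DMK) (hDMON : S_DMON) :
    S_DLK := by
  refine ⟨fun T A ε t t' k k' hk ht hZ ξ hξ => ?_,
    fun ε k t => ⟨(hDMK _ ε k t).compl, fun S S' h hS hZ => hS fun ξ hξ => ?_⟩,
    fun R X J 𝒯 h ε k t hZ ξ hξ => ?_, fun R V T hT h3 hR ε k t hZ ξ hξ => ?_⟩
  · obtain ⟨ξ', h0, j, x, ρ, d, h1, h2, h3⟩ := hZ ξ hξ
    exact ⟨ξ', h0, j, x, ρ, d, h1.trans hk, h2.trans ht, h3⟩
  · have h0 : (0 : ℝ) < 1 / 25 := by norm_num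
    obtain ⟨ξ', hξ', e⟩ := hZ _ (lt_min hξ h0)
    exact ⟨min ξ' (1 / 25), lt_min hξ' h0, ZC.mono e (DlocA.fr5 one_pos h0 h.symm hξ)
      (DlocA.arm hDMON one_pos h0 h hξ')⟩
  · have h0 : 0 < min ξ (1 / 25) := lt_min hξ (by norm_num)
    choose ξ' hξ' hZ using fun i => hZ i _ h0
    obtain ⟨m, hm, hmin⟩ := CznA.exists_min ξ' hξ'
    obtain ⟨ξ'', hξ'', harm⟩ := h.arm m hm
    refine ⟨ξ'', hξ'', ?_⟩
    have h1 : ∀ i, ZC (Free ξ X ∩ ball 0 (5 / 4 * 1)) ε k t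
        (Arm (Free (ξ' i) (𝒯 i)) (ball 0 R)ᶜ 0 1) := fun i => by
      refine ZC.mono (hZ i) (fun z hz => ⟨?_, hz.2⟩) Subset.rfl
      exact Free_mono (min_le_left _ _) Subset.rfl ((h.same i).symm.free isOpen_ball h0
        (min_le_right _ _) ⟨hz.1, ball_subset_ball (by norm_num) hz.2⟩)
    refine (ZC.iUnion h1).mono Subset.rfl ?_
    rintro y ⟨hy, w, hw, hj⟩
    obtain ⟨γ, rfl, rfl, g3⟩ := joinedIn_iff_br.1 hj
    obtain ⟨i, γ', f1, f2, f3, -⟩ := harm γ (ball_subset_ball (by norm_num) hy)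
      (by simpa using hw) g3
    exact mem_iUnion.2 ⟨i, hy, γ' 1, f2, joinedIn_iff_br.2
      ⟨γ', f1, rfl, f3.trans (Free_mono (hmin i) Subset.rfl)⟩⟩
  · obtain ⟨ξ', hξ', hZ⟩ := hZ ξ hξ
    have hs : Same (ball 0 2) ξ (ins V T) T := fun ζ _ _ => by
      refine Subset.antisymm (inter_subset_inter_left _ (TT_mono le_rfl fun K hK => hK.1)) ?_
      rintro z ⟨hz, hz2⟩
      obtain ⟨K, hK, hd, hzK⟩ := mem_TT.1 hz
      exact ⟨mem_TT.2 ⟨K, ⟨hK, (hT K hK ⟨z, hzK, ball_subset_closedBall hz2⟩).trans h3⟩, hd, hzK⟩,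
        hz2⟩
    refine ⟨ξ', hξ', ZC.mono hZ (fun z hz => ⟨?_, hz.2⟩) ?_⟩
    · exact hs.free isOpen_ball hξ le_rfl ⟨hz.1, ball_subset_ball (by norm_num) hz.2⟩
    · rintro y ⟨hy, w, hw, hj⟩
      exact ⟨hy, w, fun hv => hw (hR hv), hj.mono (Free_mono le_rfl fun K hK => hK.1)⟩

end Pool.Agent.P.MP_d66c6d_pr
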