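import Pool.Agent.P.MP_d66c6d_pr.V.Iface
import Pool.Agent.P.MP_d66c6d_pr.D.Iface
import Pool.Agent.P.MP_d66c6d_pr.D.Dmez

/-! Step DMK of the carpet project. -/

namespace Pool.Agent.P.MP_d66c6d_pr

open MeasureTheory ProbabilityTheory Set Metric Filter Topology
open scoped ENNReal

open DmezA

namespace DmkA

theorem zatk_mono {G₁ G₂ G₁' G₂' A : Set ℂ} {ε t : ℝ} {k₀ : ℕ} (h : ZatK G₁ G₁' A ε k₀ t)
    (hG : G₁ ⊆ G₂) (hG' : G₂' ⊆ G₁') : ZatK G₂ G₂' A ε k₀ t := by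
  obtain ⟨k, x, ρ, d, h0, h1, h2, h3⟩ := h
  refine ⟨k, x, ρ, d, h0, h1, fun i => ⟨(h2 i).1, (h2 i).2.1,
    (h2 i).2.2.trans (inter_subset_inter_left _ hG)⟩, ?_⟩
  rintro y ⟨hy, w, hw, hj⟩
  exact iUnion_mono (fun i => closure_mono (reach_mono (inter_subset_inter_left _ hG) Subset.rfl))
    (h3 ⟨hy, w, hw, hj.mono hG'⟩)

theorem zatk_iff {G G' : Set ℂ} (hG : IsOpen G) (hG' : IsOpen G') (A : Set ℂ) (ε t : ℝ) (k₀ : ℕ) :
    ZatK G G' A ε k₀ t ↔ ∃ (k : ℕ) (n : Fin k → ℕ) (q q' : Fin k → ℚ) (d : Fin k → ℕ),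
      (k ≤ k₀ ∧ ∑ i, ((d i : ℝ) + 1) ≤ t ∧ ∀ i, (0 : ℝ) ≤ q i ∧ (q i : ℝ) < ε ∧ (q i : ℝ) < q' i ∧
        ball (dn (n i)) (q' i) ⊆ ball 0 (5 / 4 * 1)) ∧ (∀ i, ball (dn (n i)) (q' i) ⊆ G) ∧
      ∀ j, dn j ∈ Arm G' A 0 1 → ∃ i, dn j ∈
        closure (Reach (G ∩ ball 0 (5 / 4 * 1)) ε (d i) (closedBall (dn (n i)) (q i))) := by
  constructor
  · rintro ⟨k, x, ρ, d, h0, h1, h2, h3⟩
    choose n q q' a1 a2 a3 a4 a5 using fun i =>
      ratl (hG.inter isOpen_ball) (h2 i).1 (h2 i).2.1 (h2 i).2.2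
    refine ⟨k, n, q, q', d, ⟨h0, h1, fun i => ⟨a1 i, a2 i, a3 i, (a4 i).trans inter_subset_right⟩⟩,
      fun i => (a4 i).trans inter_subset_left, fun j hj => ?_⟩
    obtain ⟨i, hi⟩ := mem_iUnion.1 (h3 hj)
    exact ⟨i, closure_mono (reach_mono Subset.rfl (a5 i)) hi⟩
  · rintro ⟨k, n, q, q', d, ⟨h0, h1, h2⟩, h3, h4⟩
    refine ⟨k, fun i => dn (n i), fun i => q i, d, h0, h1, fun i => ⟨(h2 i).1, (h2 i).2.1,
      (closedBall_subset_ball (h2 i).2.2.1).trans (subset_inter (h3 i) (h2 i).2.2.2)⟩, ?_⟩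
    refine (denseRange_dn.open_subset_closure_inter (isOpen_Arm hG' A 0 1)).trans
      (closure_minimal ?_ (isClosed_iUnion_of_finite fun i => isClosed_closure))
    rintro _ ⟨hj, j, rfl⟩
    exact mem_iUnion.2 (h4 j hj)

theorem m_zatk (h : S_DMEA) (ξ ξ' : ℝ) (A : Set ℂ) (ε t : ℝ) (k₀ : ℕ) :
    Measurable fun S : Cfg KC => ZatK (Free ξ (sets S)) (Free ξ' (sets S)) A ε k₀ t := by
  simp only [zatk_iff (isOpen_Free _ _) (isOpen_Free _ _)]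
  exact .exists fun k => .exists fun n => .exists fun q => .exists fun q' => .exists fun d =>
    measurable_const.and ((Measurable.forall fun i => m_ball _ _ _).and
      (.forall fun j => (m_arm h _ _ _ _ _).imp (.exists fun i => m_reach h _ _ _ _ _ _)))

end DmkA

theorem p_DMK (hDMEA : S_DMEA) :
    S_DMK := by
  intro A ε k t
  refine (MeasurableSet.iInter fun n : ℕ => MeasurableSet.iUnion fun m : ℕ =>
    (DmkA.m_zatk hDMEA (1 / ((n : ℝ) + 1)) (1 / ((m : ℝ) + 1)) A ε t k).setOf).congr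
    (Set.ext fun S => ?_)
  simp only [mem_iInter, mem_iUnion]
  constructor
  · intro h ξ hξ
    obtain ⟨n, hn⟩ := exists_nat_one_div_lt hξ
    obtain ⟨m, hm⟩ := h n
    exact ⟨_, by positivity, DmkA.zatk_mono hm (Free_mono hn.le Subset.rfl) Subset.rfl⟩
  · intro h n
    obtain ⟨ξ', hξ', h1⟩ := h (1 / ((n : ℝ) + 1)) (by positivity)
    obtain ⟨m, hm⟩ := exists_nat_one_div_lt hξ'
    exact ⟨m, DmkA.zatk_mono h1 Subset.rfl (Free_mono hm.le Subset.rfl)⟩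

end Pool.Agent.P.MP_d66c6d_pr
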