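import Pool.Agent.P.MP_d66c6d_pr.V.Iface
import Pool.Agent.P.MP_d66c6d_pr.G.IfaceX

/-! Step FIN2 of the carpet project. -/

namespace Pool.Agent.P.MP_d66c6d_pr

open MeasureTheory ProbabilityTheory Set Metric Filter Topology
open scoped ENNReal

theorem p_FIN2 (hSUBY1 : S_SUBY1) (hUPG1 : S_UPG1) (hUCS : S_UCS) (hFULL2 : S_FULL2) (hLEFT2 : S_LEFT2) (hLIM2 : S_LIM2) (hRIGHT2 : S_RIGHT2) (hSTRICT2 : S_STRICT2) :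
    S_FIN2 := by
  intro ν hν Θ h0
  obtain ⟨κ, L, β, hκ, hS, hU⟩ := hUCS ν hν
  have hsub : ∀ c ∈ Ioo (0 : ℝ) (1 / 2), SubC ν (ENNReal.ofReal c) := fun c hc =>
    hSUBY1 ν hν c _ (h0 c hc)
  have hmid : ∀ c ∈ Ioo (0 : ℝ) (1 / 2), (c + 1 / 2) / 2 ∈ Ioo (0 : ℝ) (1 / 2) := fun c hc =>
    ⟨by linarith [hc.1], by linarith [hc.2]⟩
  have h1 : ∀ c ∈ Ioo (0 : ℝ) (1 / 2), Lv1 ν c (Θ c) := fun c hc =>
    hUPG1 ν hν c ((c + 1 / 2) / 2) _ hc.1 (by linarith [hc.2]) (by linarith [hc.2])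
      (hsub _ (hmid c hc)) (h0 c hc)
  have hF : ∀ c ∈ Ioo (0 : ℝ) (1 / 2),
      Full ν κ L c (Θ c) (fun ε => ε ^ (-Θ c)) ∧ LvF ν c (Θ c) := fun c hc =>
    hFULL2 ν κ L β c ((c + 1 / 2) / 2)
      ⟨hν, hS, hU, hc.1, by linarith [hc.2], by linarith [hc.2], hsub _ (hmid c hc)⟩ hκ.le _ _
      (h1 c hc) (h1 (c / 2) ⟨by linarith [hc.1], by linarith [hc.2]⟩)
  have hL : 10 ≤ L := hS.1
  have hst := hSTRICT2 ν hν κ L Θ hκ hL fun c hc => ⟨_, (hF c hc).1⟩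
  exact ⟨cont_of_sides hst (hLEFT2 ν hν Θ fun c hc => ⟨h1 c hc, (hF c hc).2, hsub c hc⟩)
    (hRIGHT2 ν hν κ L Θ hκ hL fun c hc => ⟨_, (hF c hc).1⟩), hst,
    hLIM2 ν hν Θ fun c hc => ⟨(hF c hc).1.one.le, (hF c hc).2⟩⟩

end Pool.Agent.P.MP_d66c6d_pr
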