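import Pool.Agent.P.MP_d66c6d_pr.V.Iface
import Pool.Agent.P.MP_d66c6d_pr.S.Iface
import Pool.Agent.P.MP_d66c6d_pr.M.Iface

/-! Step FULL2 of the carpet project. -/

namespace Pool.Agent.P.MP_d66c6d_pr

open MeasureTheory ProbabilityTheory Set Metric Filter Topology
open scoped ENNReal

namespace Full2A

theorem nrm_pow {θ : ℝ} (h1 : 1 ≤ θ) (h2 : θ ≤ 2) : Nrm (fun ε => ε ^ (-θ)) θ := by
  refine ⟨fun ε hε => Real.rpow_pos_of_pos hε _, 1, le_rfl, fun M hM => ⟨1, one_pos, fun ε hε => ?_⟩,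
    1, one_pos, fun ε hε => ⟨?_, ?_⟩⟩
  · have hM' : 0 < M := by linarith
    have e : (ε / M) ^ (-θ) = M ^ θ * ε ^ (-θ) := by
      rw [Real.div_rpow hε.1.le hM'.le, Real.rpow_neg hM'.le, div_inv_eq_mul, mul_comm]
    simp only [e, one_mul, le_refl, and_self]
  · rw [one_mul]
    exact Real.one_le_rpow_of_pos_of_le_one_of_nonpos hε.1 hε.2.le (by linarith)
  · rw [one_div, ← Real.rpow_natCast, ← Real.rpow_neg hε.1.le]
    exact Real.rpow_le_rpow_of_exponent_ge hε.1 hε.2.le (by push_cast; linarith)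

end Full2A

theorem p_FULL2 (hLVW : S_LVW) (hDAT1 : S_DAT1) (hTH2 : S_TH2) (hSUB1 : S_SUB1) (hBLOB : S_BLOB) (hTIGK : S_TIGK) (hLOWS : S_LOWS) (hTAILS : S_TAILS) (hTIGH2 : S_TIGH2) (hLOWN2 : S_LOWN2) (hBLOW : S_BLOW) (hTAIL : S_TAIL) (hUPN : S_UPN) (hHUG1 : S_HUG1) :
    S_FULL2 := by
  intro ν κ L β c c₂ H hκ θ θ' h h'
  obtain ⟨e, b, hW⟩ := hLVW ν c θ h
  obtain ⟨R, hR, hD⟩ := hDAT1 ν H.br c θ e b hW
  obtain ⟨e', b', hW'⟩ := hLVW ν (c / 2) θ' h'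
  obtain ⟨R', hR', hD'⟩ := hDAT1 ν H.br (c / 2) θ' e' b' hW'
  obtain ⟨n, a, -, -, hS⟩ := hD' (fun _ => 1) (fun _ => univ) (fun _ => one_pos)
    fun _ => Frequently.of_forall fun _ => mem_univ _
  have hθ := hTH2 ν H.br c θ c₂ H.pos H.lt H.le h H.sub
  have hL := H.str.ten
  have hP := (hSUB1 ν H.br c ((hBLOB ν H.br _ ENNReal.ofReal_ne_top H.sub).1 _
    (ENNReal.ofReal_le_ofReal H.lt.le))).1
  have t1 := hTIGK ν κ L β c c₂ H θ R e b hR hW.1 hD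
  have t2 := hLOWS ν κ L β c c₂ H θ R e b hR hW.1 hD
  have t3 := hTAILS ν H.br κ L c θ e b hL hW.1 t1
  have t4 := hTIGH2 ν H.br κ L c θ e b hL hθ.le hW.1 t1 t2
  have t5 := hLOWN2 ν H.br κ L c θ e b hκ hL H.pos.le hW.1 t3 t2
  obtain ⟨t6, t7⟩ := hBLOW ν H.br κ L c θ e b hκ hL H.pos.le hP hW.1 t3 t5
  have t8 := Full2A.nrm_pow hθ.le t6
  have t9 := hTAIL ν H.br κ L c θ _ hL t8 hθ.le t4
  exact ⟨⟨t8, hθ, hP, t9, t5, hHUG1 ν κ L β c c₂ H R' a _ hR' hS,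
    hUPN ν H.br κ L c θ _ hκ hL H.pos.le t8 (by linarith) hP t9⟩, e, b, hW, t7⟩

end Pool.Agent.P.MP_d66c6d_pr
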