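import Pool.Agent.P.MP_d66c6d_pr.V.Iface
import Pool.Agent.P.MP_d66c6d_pr.H.Iface
import Pool.Agent.P.MP_d66c6d_pr.N.Iface
import Pool.Agent.P.MP_d66c6d_pr.L.Iface
import Pool.Agent.P.MP_d66c6d_pr.F.Iface
import Pool.Agent.P.MP_d66c6d_pr.D.Iface
import Pool.Agent.P.MP_d66c6d_pr.M.Ghu

/-! Step GHU1 of the carpet project. -/

namespace Pool.Agent.P.MP_d66c6d_pr

open MeasureTheory ProbabilityTheory Set Metric Filter Topology
open scoped ENNReal

theorem p_GHU1 (hTRX1 : S_TRX1) (hBBG : S_BBG) (hSURK : S_SURK) (hLVA : S_LVA) (hPPO : S_PPO) (hPPA : S_PPA) (hMUK : S_MUK) (hDMEA : S_DMEA) (hDMEB : S_DMEB) (hDMON : S_DMON) :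
    S_GHU1 := by
  intro ν hν c₀ c₂ R a x h0 h02 h21 hL hR hD
  have hH := GhuA.measurableSet_HH hDMEA hDMEB R
  have hB : MeasurableSet (bigK (1 / 25)) := measurableSet_bigK _
  obtain ⟨-, hsf, -, ⟨C, -, hC⟩, -⟩ := hMUK ν hν
  have hu : Measurable fun p : Cfg KC × Cfg KC => p.1 ∪ p.2 := by fun_prop
  have hlev : ∀ c : ℝ, 0 ≤ c → c ≤ 1 → ∀ E, MeasurableSet E →
      lsoup ν c R (lev c ⁻¹' E) = soupN ν c (ball 0 R) E := fun c h1 h2 E hE =>
    ((hLVA ν hν c ⟨h1, h2⟩ (ball 0 R) isOpen_ball).2.2.1 c ⟨le_rfl, h2⟩).measure_preimage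
      hE.nullMeasurableSet
  have hnull : soupN ν c₀ (ball 0 R) (GhuA.HH R) = 0 := by
    have e : ENNReal.ofReal c₀ = ENNReal.ofReal (c₀ / 2) + ENNReal.ofReal (c₀ / 2) := by
      rw [← ENNReal.ofReal_add (by linarith) (by linarith), add_halves]
    rw [soupN, e]
    refine GhuA.null_of_half hPPO hPPA hB ?_ (ENNReal.ofReal_pos.2 (by linarith)).ne'
      ENNReal.ofReal_ne_top hH ?_
    · rw [Measure.restrict_apply hB, inter_comm]
      exact ne_top_of_le_ne_top ENNReal.ofReal_ne_top (hC 0 R _ (by linarith) (by norm_num))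
    have hφ := hTRX1 ν hν (c₀ / 2) c₂ R a x (by linarith) (by linarith) h21 hL hD
    have hE : MeasurableSet {S : Cfg KC | PP ((ENNReal.ofReal (c₀ / 2) •
        (muK ν).restrict (inK (ball 0 R))).restrict (bigK (1 / 25))ᶜ)
          {S' | S ∪ S' ∈ GhuA.HH R} ≠ 0} :=
      ((measurable_measure_prodMk_left (hu hH)) (measurableSet_singleton 0)).compl
    refine (hlev (c₀ / 2) (by linarith) (by linarith) _ hE).symm.trans
      (hφ _ (measurable_lev _ hE) fun S hS V c₁ hV h3 hVR hLay hHol _ _ => hS ?_)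
    obtain ⟨D, hD1, hD2, hD3⟩ := GhuA.det hBBG hDMON (S := lev (c₀ / 2) S) hV h3 hVR hLay hHol rfl
    have hm : MeasurableSet {S' | lev (c₀ / 2) S ∪ S' ∈ GhuA.HH R} :=
      (Measurable.cfgUnion measurable_const measurable_id) hH
    rw [← (hPPO KC _ inferInstance).2.1 _ hB.compl, Measure.map_apply (measurable_res hB.compl) hm]
    have hae := (ae_ball_iff hD1).2 fun y hy => hSURK ν hν (c₀ / 2) (by linarith) (ball 0 R)
      isOpen_ball y (closedBall_subset_ball (by linarith) (hD2 hy))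
    exact measure_mono_null (fun S' h1 h2 => hD3 S' h2 h1) hae
  have hlim := tendsto_measure_iInter_atTop (μ := lsoup ν c₀ R)
    (s := fun k : ℕ => GH c₀ R (1 / ((k : ℝ) + 20)))
    (fun k => (measurable_lev c₀ (hDMEA.2.2.2.2.2.inter (hDMEB.2 _ _))).nullMeasurableSet)
    (fun k l hkl S hS => ⟨hS.1, hDMON.2.2.2.2.2.2.2.2.1 _ _ _ _
      (one_div_le_one_div_of_le (by positivity) (by
        have : (k : ℝ) ≤ l := by exact_mod_cast hkl
        linarith)) hS.2⟩)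
    ⟨0, measure_ne_top _ _⟩
  have e : ⋂ k : ℕ, GH c₀ R (1 / ((k : ℝ) + 20)) = lev c₀ ⁻¹' GhuA.HH R := by
    ext S
    simp only [GH, GhuA.HH, mem_iInter, mem_preimage, mem_ofPred_eq, forall_and, forall_const]
  rw [e, hlev c₀ h0.le (by linarith) _ hH, hnull] at hlim
  exact hlim

end Pool.Agent.P.MP_d66c6d_pr
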