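import Pool.Agent.P.MP_d66c6d_pr.V.Iface
import Pool.Agent.P.MP_d66c6d_pr.M.Iface
import Pool.Agent.P.MP_d66c6d_pr.H.Iface
import Pool.Agent.P.MP_d66c6d_pr.D.Iface
import Pool.Agent.P.MP_d66c6d_pr.M.Gul

/-! Step GUL1 of the carpet project. -/

namespace Pool.Agent.P.MP_d66c6d_pr

open MeasureTheory ProbabilityTheory Set Metric Filter Topology
open scoped ENNReal

theorem p_GUL1 (hTRX1 : S_TRX1) (hLS3 : S_LS3) (hAPRK : S_APRK) (hAPRL : S_APRL) (hDLK : S_DLK) (hDMK : S_DMK) (hDMEA : S_DMEA) (hDMON : S_DMON) :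
    S_GUL1 := by
  intro ν hν c₀ c₂ R a₀ a x hc₀ hc₂ hc₂1 hS hD hx hx0 ha₀ ha τ hτ
  have hT := hTRX1 ν hν c₀ c₂ R a x hc₀ hc₂ hc₂1 hS hD
  have hp : ∀ j, 0 ≤ a (x j) := fun j => ha₀.le.trans (ha j)
  refine ⟨?_, ?_⟩
  · obtain ⟨C, hC⟩ := hLS3 _ (lsoup ν c₀ R)
      (fun C j c => GZK c R (x j) C ((C : ℝ) * a (x j))) c₀
      (fun C j c => (measurable_lev c) (hDMEA.2.2.2.2.2.inter (hDMK _ _ _ _).compl))
      (fun E hE hS => hT E hE
        fun S hSE V c₁ hV h3 hR hLay hHol hXU _ => hS S hSE (by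
          obtain ⟨k, C, hC⟩ := hAPRK V (fun c => ins V (sets (lev c S))) c₀ c₁ a x a₀
            hV h3 hLay hHol hXU hx hx0 ha₀ ha
          refine ⟨max k ⌈C⌉₊, hC.mono fun j ⟨c', hc', hj⟩ =>
            ⟨c', hc', fun c hc C' hC' hmem => ?_⟩⟩
          refine hmem.2 (hDLK.1 _ _ _ _ _ _ _ ((le_max_left _ _).trans hC') ?_
            (hDLK.2.2.2 R V _ hmem.1 h3 hR _ _ _ (hj c hc)))
          have h1 : C ≤ (C' : ℝ) :=
            (Nat.le_ceil C).trans (Nat.cast_le.2 ((le_max_right _ _).trans hC'))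
          exact mul_le_mul_of_nonneg_right h1 (hp j))) τ hτ
    exact ⟨C, C, Nat.cast_nonneg _, hC⟩
  · obtain ⟨C, hC⟩ := hLS3 _ (lsoup ν c₀ R)
      (fun C j _ => GN c₀ R (x j) (1 / ((C : ℝ) + 1) * a (x j))) c₀
      (fun C j c => GulA.mGN hDMEA _ _ _ _) (fun E hE hS => hT E hE
        fun S hSE V c₁ hV h3 hR hLay hHol hXU hXL => hS S hSE (by
          obtain ⟨t, ht, hC⟩ := hAPRL V (fun c => ins V (sets (lev c S))) c₀ c₁ a x
            hV h3 hLay hHol hXU hXL hx hx0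
          refine ⟨⌈1 / t⌉₊, hC.mono fun j hj =>
            ⟨c₀ + 1, by linarith, fun c _ C' hC' hmem => hj ?_⟩⟩
          refine hDMON.2.2.2.2.2.1 _ _ _ _ _ _ _ _ (fun K hK => hK.1)
            (compl_subset_compl.2 hR) le_rfl ?_ hmem
          have h1 : 1 / t ≤ (C' : ℝ) := (Nat.le_ceil _).trans (by exact_mod_cast hC')
          have h2 : 1 / ((C' : ℝ) + 1) ≤ t := by
            rw [div_le_iff₀ ht] at h1
            rw [div_le_iff₀ (by positivity)]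
            nlinarith
          exact mul_le_mul_of_nonneg_right h2 (hp j))) τ hτ
    refine ⟨1 / ((C : ℝ) + 1), by positivity, hC.mono fun j ⟨c', hc', hj⟩ => ?_⟩
    exact hj c₀ ⟨le_rfl, hc'.le⟩

end Pool.Agent.P.MP_d66c6d_pr
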