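import Pool.Agent.P.MP_d66c6d_pr.V.Iface
import Pool.Agent.P.MP_d66c6d_pr.D.Iface
import Pool.Agent.P.MP_d66c6d_pr.M.Iface
import Pool.Agent.P.MP_d66c6d_pr.M.Hug

/-! Step HUG1 of the carpet project. -/

namespace Pool.Agent.P.MP_d66c6d_pr

open MeasureTheory ProbabilityTheory Set Metric Filter Topology
open scoped ENNReal

theorem p_HUG1 (hGHU1 : S_GHU1) (hRZS1 : S_RZS1) (hCZN : S_CZN) (hFAR : S_FAR) (hDMEA : S_DMEA) (hDMEB : S_DMEB) :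
    S_HUG1 := by
  intro ν κ L β c c₂ h R a x hR hD lam hlam p hp
  have hG := hGHU1 ν h.br c c₂ R a x h.pos h.lt h.le h.sub hR hD
  have hZ := hRZS1 ν κ L β c c₂ h R hR (fun _ => c)
    (fun k => BE 0 1 (1 / ((k : ℝ) + 20))) (fun k => GH c R (1 / ((k : ℝ) + 20)))
    (fun _ => le_rfl) tendsto_const_nhds
    (fun k => ⟨hFAR.2.1 0 1 _ one_pos ((HugA.le k).trans (by norm_num)),
      measurable_lev c (hDMEA.2.2.2.2.2.inter (hDMEB.2 (ball 0 R)ᶜ (1 / ((k : ℝ) + 20))))⟩) hG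
    (fun J => Eventually.of_forall fun k X hX 𝒯 h𝒯 => by
      obtain ⟨i, hi⟩ := (hCZN.1 R _ J _ h𝒯).2.2 _ (HugA.le k) hX
      exact ⟨i, h𝒯.near i, hi⟩)
  obtain ⟨k, hk⟩ := (hZ lam hlam p hp).exists
  exact ⟨_, ⟨HugA.pos k, (HugA.le k).trans (by norm_num)⟩, hk.1⟩

end Pool.Agent.P.MP_d66c6d_pr
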