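import Pool.Agent.P.MP_d66c6d_pr.V.Defs
import Pool.Agent.P.MP_d66c6d_pr.J.Iface3
import Pool.Agent.P.MP_d66c6d_pr.Z.Par

/-!
The proof from one sequence of scales.
-/

namespace Pool.Agent.P.MP_d66c6d_pr

open MeasureTheory ProbabilityTheory Set Metric Filter Topology
open scoped ENNReal

/-! ### The ensemble -/

-- deps: DENS TRANS MUK
-- imports: Pool.Agent.P.MP_d66c6d_pr.S.Subx
/-- A level with a limit metric is subcritical. -/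
def S_SUBY1 : Prop := ∀ ν : Measure Br, IsBridge ν → ∀ c θ : ℝ, Lv0 ν c θ →
  SubC ν (ENNReal.ofReal c)

-- deps: GENJ TRANS MUK
-- imports: Pool.Agent.P.MP_d66c6d_pr.Nest
/-- The loops are simple. -/
def S_UPG1 : Prop := ∀ ν : Measure Br, IsBridge ν → ∀ c c₂ θ : ℝ, 0 < c → c < c₂ → c₂ ≤ 1 →
  SubC ν (ENNReal.ofReal c₂) → Lv0 ν c θ → Lv1 ν c θ

-- deps: JOR
/-- The first carpet is compact and the first loop surrounds a disc with positive probability. -/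
def S_BAS1 : Prop := ∀ (ν : Measure Br) (κ θ : ℝ) (Ω : Type) [MeasurableSpace Ω] (P : Measure Ω)
  (Γ : Ω → Set (Set ℂ)), IsCLE ν κ P Γ → IsLimitExp P (fun ω => firstCarpet (Γ ω)) θ →
  (∀ᵐ ω ∂P, IsCompact (firstCarpet (Γ ω)) ∧ firstCarpet (Γ ω) ⊆ ball 0 1) ∧
  ∃ ρ ∈ Ioc (0 : ℝ) (1 / 2), P {ω | ∃ V, IsFirst (Γ ω) V ∧ ball 0 ρ ⊆ V} ≠ 0

-- deps:
-- imports: Pool.Agent.P.MP_d66c6d_pr.S.Lowx
/-- The one-step lower criterion along the sequence. -/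
def S_LOWX1 : Prop := ∀ (Ω : Type) [MeasurableSpace Ω] (P : Measure Ω) [IsProbabilityMeasure P]
  (X : Ω → Set ℂ) (θ : ℝ), IsLimitExp P X θ → (∀ᵐ ω ∂P, IsCompact (X ω)) →
  ∃ e : ℕ → ℝ, (∀ n, 0 < e n) ∧ Tendsto e atTop (𝓝 0) ∧
    ∀ (z : ℂ) (ρ M g : ℝ), 0 < ρ → 0 < M → 0 < g → ∀ p : ℝ≥0∞, p ≠ 0 →
      (∃ᶠ n in atTop, p ≤ P {ω | (X ω ∩ closedBall z (ρ / 2)).Nonempty ∧
        ¬ X ω ⊆ ball z ρ ∧ Gain (X ω) z ρ (e n) M g}) → g ≤ M ^ (θ - 2)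

-- deps: XG
-- imports: Pool.Agent.P.MP_d66c6d_pr.A.Rat
/-- Almost sure bounds along diagonal sequences. -/
def S_RATD : Prop := ∀ (Ω : Type) [MeasurableSpace Ω] (P : Measure Ω) [IsProbabilityMeasure P]
  (X : Ω → Set ℂ) (θ : ℝ), IsLimitExp P X θ → (∀ᵐ ω ∂P, IsCompact (X ω)) →
  ∃ e b : ℕ → ℝ, (∀ n, 0 < e n ∧ 0 < b n) ∧ Tendsto e atTop (𝓝 0) ∧
    P {ω | (X ω).Nontrivial} ≠ 0 ∧ (∀ᵐ ω ∂P, IsPreconnected (X ω)) ∧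
    ∀ r > (0 : ℝ), Diag θ e b fun a x => ∀ᵐ ω ∂P, XU (dil r (X ω)) a x ∧ XL (dil r (X ω)) a x

-- deps: COV
/-- The lower bound for the normalisations. -/
def S_RATS : Prop := ∀ (Ω : Type) [MeasurableSpace Ω] (P : Measure Ω) (X : Ω → Set ℂ) (θ : ℝ)
  (e b : ℕ → ℝ), (∀ n, 0 < e n ∧ 0 < b n) → Tendsto e atTop (𝓝 0) →
  P {ω | (X ω).Nontrivial} ≠ 0 → (∀ᵐ ω ∂P, IsPreconnected (X ω)) →
  (Diag θ e b fun a x => ∀ᵐ ω ∂P, XU (X ω) a x) → Sq0 θ e b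

-- deps: BAS1 RATD RATS
/-- The window of a level. -/
def S_LVW : Prop := ∀ (ν : Measure Br) (c θ : ℝ), Lv1 ν c θ → ∃ e b, LvW ν c θ e b

-- deps: TRF HOM JOR PPO MUK
-- imports: Pool.Agent.P.MP_d66c6d_pr.A.Dat
/-- The data of a level. -/
def S_DAT1 : Prop := ∀ ν : Measure Br, IsBridge ν → ∀ (c θ : ℝ) (e b : ℕ → ℝ), LvW ν c θ e b →
  ∃ R : ℝ, 3 ≤ R ∧ Diag θ e b (DatS ν c R)

-- deps: TRFO TREE COV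
-- imports: Pool.Agent.P.MP_d66c6d_pr.A.Lim
/-- The upper bound for the normalisations at small intensity. -/
def S_UPB1 : Prop := ∀ ν : Measure Br, IsBridge ν → ∀ δ > (0 : ℝ), ∃ α₀ > (0 : ℝ), ∀ c ≤ α₀,
  ∀ (θ : ℝ) (e b : ℕ → ℝ), LvW ν c θ e b → ∃ C : ℝ, ∃ᶠ n in atTop, b n ≤ C * e n ^ (-(1 + δ))

/-! ### Subcritical levels -/

-- deps: BLOB SUBQ JN MUK PPO
-- imports: Pool.Agent.P.MP_d66c6d_pr.G.Sub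
/-- Small clusters, with tails smaller than any power. -/
def S_SUB1 : Prop := ∀ ν : Measure Br, IsBridge ν → ∀ c : ℝ, SubC ν (ENNReal.ofReal c) →
  SubP ν c ∧ Sub ν c

-- deps: SUB1 DEC LVA EXL RC
-- imports: Pool.Agent.P.MP_d66c6d_pr.L.Layt
/-- The part of the structure that involves only the traces. -/
def S_LAYT1 : Prop := ∀ ν : Measure Br, IsBridge ν → ∀ c₀ c₁ c₂ : ℝ, 0 < c₀ → c₀ < c₁ →
  c₁ < c₂ → c₂ ≤ 1 → SubC ν (ENNReal.ofReal c₂) → ∀ V : Set ℂ, IsOpen V →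
  Bornology.IsBounded V →
  ∀ᵐ S ∂lsV ν c₀ V, Tame (sets (lev c₁ S)) ∧ SubT (sets (lev c₁ S)) ∧
    (∀ ξ > (0 : ℝ), ∃ c' ∈ Ioc c₀ c₁, ∀ K ∈ sets (lev c' S), ξ ≤ diam K → K ∈ sets (lev c₀ S)) ∧
    (∀ q : ℚ × ℚ × ℚ, 0 < q.2.2 →
      EXD (sets (lev c₀ S)) (sets (lev c₁ S)) (closedBall (qp q) q.2.2)) ∧
    ∀ q q' : ℚ × ℚ × ℚ, 0 < q'.2.2 → ball (qp q) q.2.2 ⊆ V →
      EXD (ins (ball (qp q) q.2.2) (sets (lev c₀ S))) (ins (ball (qp q) q.2.2) (sets (lev c₀ S)))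
        (closedBall (qp q') q'.2.2)

-- deps: LAYT1 SUB1 JOR NC LVB HQD HQL HITL PPO MUK REV
-- imports: Pool.Agent.P.MP_d66c6d_pr.G.Lay
/-- The almost sure structure of the levels of a soup in a Jordan domain. -/
def S_LAY1 : Prop := ∀ ν : Measure Br, IsBridge ν → ∀ c₀ c₁ c₂ : ℝ, 0 < c₀ → c₀ < c₁ →
  c₁ < c₂ → c₂ ≤ 1 → SubC ν (ENNReal.ofReal c₂) → ∀ (V : Set ℂ) (R : ℝ), IsJordan V →
  V ⊆ ball 0 R → ∀ᵐ p ∂(PP (ENNReal.ofReal c₀ • loopMeasure ν)).prod (xsoup ν c₀ R),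
    Lay V (lay V p.1 p.2) c₀ c₁

-- deps: LAY1 COVR PPO MUK FILL
-- imports: Pool.Agent.P.MP_d66c6d_pr.S.Cova
/-- Almost surely the maximal outer domains cover all outer domains. -/
def S_COVA1 : Prop := ∀ ν : Measure Br, IsBridge ν → ∀ c c₂ : ℝ, 0 < c → c < c₂ → c₂ ≤ 1 →
  SubC ν (ENNReal.ofReal c₂) → ∀ (V : Set ℂ) (R : ℝ), IsJordan V → V ⊆ ball 0 R →
  ∀ᵐ N ∂PP (ENNReal.ofReal c • loopMeasure ν), V ∉ cleIn2 (trace '' N.pts) V ∧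
    (∀ W ∈ outers (trace '' N.pts) V, ∃ W' ∈ cleIn2 (trace '' N.pts) V, W ⊆ W') ∧
    (carp (trace '' N.pts) V ∩ V).Nonempty ∧ frontier V ⊆ carp (trace '' N.pts) V ∧
    ∀ l ∈ N.pts, ∀ B : Set ℂ, Convex ℝ B → B ⊆ V → trace l ⊆ B →
      Disjoint (carp (trace '' N.pts) V) (interior (fill (trace l)))

-- deps: LAYY FRA FRB COVA1 JOR
-- imports: Pool.Agent.P.MP_d66c6d_pr.S.Cova
/-- The carpet in a Jordan domain through finite chains. -/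
def S_FRC1 : Prop := ∀ ν : Measure Br, IsBridge ν → ∀ c c₂ : ℝ, 0 < c → c < c₂ → c₂ ≤ 1 →
  SubC ν (ENNReal.ofReal c₂) → ∀ (V : Set ℂ) (R : ℝ), IsJordan V → V ⊆ ball 0 R →
  ∀ᵐ N ∂PP (ENNReal.ofReal c • loopMeasure ν), Tame (ins V (trace '' N.pts)) ∧
    V ∉ cleIn2 (trace '' N.pts) V ∧
    carp (trace '' N.pts) V ∩ V = Fr (ins V (trace '' N.pts)) ∩ V ∧
    (carp (trace '' N.pts) V ∩ V).Nonempty ∧ frontier V ⊆ carp (trace '' N.pts) V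

-- deps: TRF BAS1 COVA1 LOWX1 PEI PPO MUK
-- imports: Pool.Agent.P.MP_d66c6d_pr.G.Th1
/-- The exponent is larger than one. -/
def S_TH2 : Prop := ∀ ν : Measure Br, IsBridge ν → ∀ c θ c₂ : ℝ, 0 < c → c < c₂ → c₂ ≤ 1 →
  Lv1 ν c θ → SubC ν (ENNReal.ofReal c₂) → 1 < θ

-- deps: TRF BAS1 FRC1 LOWX1 JOR PPO MUK
-- imports: Pool.Agent.P.MP_d66c6d_pr.E.Lowt
/-- The gain of area bounds the exponent from below. -/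
def S_LOWT1 : Prop := ∀ ν : Measure Br, IsBridge ν → ∀ c θ c₂ : ℝ, 0 < c → c < c₂ → c₂ ≤ 1 →
  Lv1 ν c θ → SubC ν (ENNReal.ofReal c₂) → ∀ M g : ℝ, 0 < M → 0 < g →
  (∀ (z : ℂ) (ρ : ℝ), 0 < ρ → Tendsto (fun ε => PP (ENNReal.ofReal c • muK ν)
    {S | ¬ Gain (Fr (ins (ball z (2 * ρ)) (sets S))) z ρ ε M g}) (𝓝[>] 0) (𝓝 0)) →
  g ≤ M ^ (θ - 2)

-- deps: RCORE RONE RMUL RINS RROOT SUB1 LVA PPF PPO MUK REV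
-- imports: Pool.Agent.P.MP_d66c6d_pr.R.Rnul
/-- Almost every local configuration has a family of completions outside a null set. -/
def S_RNUL1 : Prop := ∀ ν : Measure Br, IsBridge ν → ∀ (L : ℝ) (β : Measure TP), Str ν L β →
  ∀ c₀ c₂ : ℝ, 0 < c₀ → c₀ < c₂ → c₂ ≤ 1 → SubC ν (ENNReal.ofReal c₂) → ∀ R : ℝ, 3 ≤ R →
  ∀ (n : ℕ) (G : Set (Cfg (KC × ℝ))), MeasurableSet G → lsoup ν c₀ R G = 0 →
  ∀ E : Set (Cfg (KC × ℝ) × (Fin n → TP)), MeasurableSet E →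
  (∀ q ∈ E, ∀ c' > c₀, ∀ (J : ℕ) (𝒯 : Fin J → Cfg (KC × ℝ)),
    (∀ c ∈ Icc c₀ c', Compl R (sets (locX (10 * L) c q)) fun i => sets (lev c (𝒯 i))) →
    ∃ i, 𝒯 i ∈ G) →
  (lsoup ν c₀ (max R (10 * L))).prod (Measure.pi fun _ : Fin n => β) E = 0

-- deps: RNUL1 LVA PPO MUK
-- imports: Pool.Agent.P.MP_d66c6d_pr.M.Rzs
/-- Transfer from global events to the reference measures. -/
def S_RZS1 : Prop := ∀ ν κ L β c₀ c₂, Ctx ν κ L β c₀ c₂ → ∀ R : ℝ, 3 ≤ R → ∀ (cs : ℕ → ℝ)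
  (E : ℕ → Set (Cfg KC)) (G : ℕ → Set (Cfg (KC × ℝ))), (∀ k, c₀ ≤ cs k) →
  Tendsto cs atTop (𝓝 c₀) → (∀ k, LocE 0 1 (E k) ∧ MeasurableSet (G k)) →
  Tendsto (fun k => lsoup ν c₀ R (G k)) atTop (𝓝 0) →
  (∀ J : ℕ, ∀ᶠ k in atTop, ∀ X ∈ E k, ∀ 𝒯 : Fin J → Cfg (KC × ℝ),
    Compl R (sets X) (fun i => sets (lev (cs k) (𝒯 i))) → ∃ i, 𝒯 i ∈ G k) →
  ∀ lam > (0 : ℝ), ∀ p : ℝ≥0∞, p ≠ 0 → ∀ᶠ k in atTop,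
    Rare ν κ (cs k) lam L 0 1 (E k) p ∧ soup ν (cs k) (ball 0 (10 * L)) (E k) ≤ p

-- deps: LAY1 LVB HOL
-- imports: Pool.Agent.P.MP_d66c6d_pr.M.Trx
/-- Events that contradict the structure of the carpet are null. -/
def S_TRX1 : Prop := ∀ ν : Measure Br, IsBridge ν → ∀ (c₀ c₂ R : ℝ) (a : ℝ → ℝ) (x : ℕ → ℝ),
  0 < c₀ → c₀ < c₂ → c₂ ≤ 1 → SubC ν (ENNReal.ofReal c₂) → DatS ν c₀ R a x →
  ∀ E : Set (Cfg (KC × ℝ)), MeasurableSet E →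
    (∀ S ∈ E, ∀ (V : Set ℂ) (c₁ : ℝ), IsJordan V → ball 0 3 ⊆ V → V ⊆ ball 0 R →
      Lay V (fun c => ins V (sets (lev c S))) c₀ c₁ → Hol V (ins V (sets (lev c₀ S))) →
      XU (carp (ins V (sets (lev c₀ S))) V) a x → ¬ XL (carp (ins V (sets (lev c₀ S))) V) a x) →
    lsoup ν c₀ R E = 0

-- deps: TRX1 BBG SURK LVA PPO PPA MUK DMEA DMEB DMON
-- imports: Pool.Agent.P.MP_d66c6d_pr.M.Ghu
/-- Global hugging crossings are unlikely. -/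
def S_GHU1 : Prop := ∀ ν : Measure Br, IsBridge ν → ∀ (c₀ c₂ R : ℝ) (a : ℝ → ℝ) (x : ℕ → ℝ),
  0 < c₀ → c₀ < c₂ → c₂ ≤ 1 → SubC ν (ENNReal.ofReal c₂) → 3 ≤ R → DatS ν (c₀ / 2) R a x →
  Tendsto (fun k : ℕ => lsoup ν c₀ R (GH c₀ R (1 / ((k : ℝ) + 20)))) atTop (𝓝 0)

-- deps: GHU1 RZS1 CZN FAR DMEA DMEB
-- imports: Pool.Agent.P.MP_d66c6d_pr.M.Hug
/-- Hugging crossings are rare. -/
def S_HUG1 : Prop := ∀ ν κ L β c c₂, Ctx ν κ L β c c₂ → ∀ (R : ℝ) (a : ℝ → ℝ) (x : ℕ → ℝ),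
  3 ≤ R → DatS ν (c / 2) R a x → RareB ν κ L c

/-! ### The connection cost with few classes -/

-- deps: DMEA
-- imports: Pool.Agent.P.MP_d66c6d_pr.D.Dmez
/-- Measurability. -/
def S_DMK : Prop := ∀ A ε k t, MeasurableSet {S : Cfg KC | ZleKA (sets S) A ε k t}

-- deps: DMK DMON
-- imports: Pool.Agent.P.MP_d66c6d_pr.D.Dloc Pool.Agent.P.MP_d66c6d_pr.D.Czn
/-- Monotonicity, locality and completions. -/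
def S_DLK : Prop :=
  (∀ (T : Set (Set ℂ)) (A : Set ℂ) (ε t t' : ℝ) (k k' : ℕ), k ≤ k' → t ≤ t' →
    ZleKA T A ε k t → ZleKA T A ε k' t') ∧
  (∀ ε k t, LocE 0 1 (ZK ε k t)) ∧
  (∀ (R : ℝ) (X : Set (Set ℂ)) (J : ℕ) (𝒯 : Fin J → Set (Set ℂ)), Compl R X 𝒯 → ∀ ε k t,
    (∀ i, ZleKA (𝒯 i) (ball 0 R)ᶜ ε k t) → ZleK X ε (J * k) (J * t)) ∧
  ∀ (R : ℝ) (V : Set ℂ) (T : Set (Set ℂ)), Near T → ball 0 3 ⊆ V → V ⊆ ball 0 R →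
    ∀ ε k t, ZleKA (ins V T) Vᶜ ε k t → ZleKA T (ball 0 R)ᶜ ε k t

-- deps: LNK COV
/-- The upper bound for the global connection cost. -/
def S_APRK : Prop := ∀ (V : Set ℂ) (T : ℝ → Set (Set ℂ)) (c₀ c₁ : ℝ) (a : ℝ → ℝ) (e : ℕ → ℝ)
  (a₀ : ℝ), IsJordan V → ball 0 3 ⊆ V → Lay V T c₀ c₁ → Hol V (T c₀) →
  XU (carp (T c₀) V) a e → (∀ j, 0 < e j) → Tendsto e atTop (𝓝 0) → 0 < a₀ →
  (∀ j, a₀ ≤ a (e j)) → ∃ (k : ℕ) (C : ℝ), ∀ᶠ j in atTop, ∃ c' > c₀, ∀ c ∈ Icc c₀ c',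
    ZleKA (T c) Vᶜ (e j) k (C * a (e j))

-- deps: COV DMON
/-- Separated expensive pieces, and coverings of a path at a coarser scale. -/
def S_COVC : Prop :=
  (∀ (ι : Type) (I : Finset ι) (Q : ι → Set ℂ) (A : Set ℂ) (ε t u : ℝ), Cov ε t A →
    (∀ i ∈ I, Q i ⊆ A ∧ ¬ Cov ε u (Q i)) →
    (∀ i ∈ I, ∀ j ∈ I, i ≠ j → ∀ x ∈ Q i, ∀ y ∈ Q j, 2 * ε ≤ dist x y) → I.card * u ≤ t) ∧
  ∀ (γ : Br) (ε y t : ℝ), 0 < ε → ε ≤ y → Cov ε t (range γ) →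
    Cov y (12 * (t * ε / y) + 1) (range γ)

-- deps: COVC
/-- The connection cost at coarser scales. -/
def S_ZKC : Prop := ∀ (T : Set (Set ℂ)) (x t : ℝ) (k : ℕ), 0 < x → ZleK T x k t →
  (∀ y, x ≤ y → Zle T 0 1 y (12 * (t * x / y) + 3 * k)) ∧ (x ≤ 3 → Zle T 0 1 3 (2 * k))

-- deps: COVC GRID BLK DMON CELLS
/-- A cheap free path meets few cells. -/
def S_CGP : Prop := ∀ L : ℝ, 10 ≤ L → ∃ r₀ > (0 : ℝ), ∀ r ∈ Ioc 0 r₀,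
  ∀ (T : Set (Set ℂ)) (ε u : ℝ), Cpt T → 0 < ε → 10 * ε ≤ r → 0 < u →
  ¬ Many (r / 2) (badN T L r ε u) → ∃ ξ₀ > (0 : ℝ), ∀ (γ : Br) (d : ℝ),
    range γ ⊆ Free ξ₀ T ∩ ball 0 2 → Cov ε d (range γ) →
    Cov r (300 * d / u + 1 / (4 * r)) (range γ)

-- deps: CGP
/-- Coarse graining of the connection cost. -/
def S_CGK : Prop := ∀ L : ℝ, 10 ≤ L → ∃ r₀ > (0 : ℝ), ∀ r ∈ Ioc 0 r₀,
  ∀ (T : Set (Set ℂ)) (ε u t : ℝ) (k : ℕ), Cpt T → 0 < ε → 10 * ε ≤ r → 0 < u →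
  ¬ Many (r / 2) (badN T L r ε u) → ZleK T ε k t →
  Zle T 0 1 r (300 * t / u + k * (1 / (4 * r) + 2))

/-! ### Good scales -/

-- deps: TRX1 LS3 APRK APRL DLK DMK DMEA DMON
-- imports: Pool.Agent.P.MP_d66c6d_pr.M.Gul
/-- The global bounds in probability. -/
def S_GUL1 : Prop := ∀ ν : Measure Br, IsBridge ν → ∀ (c₀ c₂ R a₀ : ℝ) (a : ℝ → ℝ) (x : ℕ → ℝ),
  0 < c₀ → c₀ < c₂ → c₂ ≤ 1 → SubC ν (ENNReal.ofReal c₂) → DatS ν c₀ R a x → (∀ j, 0 < x j) →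
  Tendsto x atTop (𝓝 0) → 0 < a₀ → (∀ j, a₀ ≤ a (x j)) → ∀ τ : ℝ≥0∞, τ ≠ 0 →
    (∃ (k : ℕ) (C : ℝ), 0 ≤ C ∧ ∀ᶠ j in atTop, ∃ c' > c₀, ∀ c ∈ Icc c₀ c',
      lsoup ν c₀ R (GZK c R (x j) k (C * a (x j))) ≤ τ) ∧
    ∃ t > (0 : ℝ), ∀ᶠ j in atTop, lsoup ν c₀ R (GN c₀ R (x j) (t * a (x j))) ≤ τ

-- deps: GUL1 RZS1 DLK DMK DMEA
-- imports: Pool.Agent.P.MP_d66c6d_pr.M.Tigh
/-- Tightness at the good scales. -/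
def S_TIGK : Prop := ∀ ν κ L β c c₂, Ctx ν κ L β c c₂ → ∀ (θ R : ℝ) (e b : ℕ → ℝ), 3 ≤ R →
  Sq0 θ e b → Diag θ e b (DatS ν c R) → TightK ν κ L c θ e b

-- deps: GUL1 RZS1 CZN FAR DMEA DMON
/-- Cheap crossings are rare at the good scales. -/
def S_LOWS : Prop := ∀ ν κ L β c c₂, Ctx ν κ L β c c₂ → ∀ (θ R : ℝ) (e b : ℕ → ℝ), 3 ≤ R →
  Sq0 θ e b → Diag θ e b (DatS ν c R) → LowS ν κ L c θ e b

-- deps: ZRC RARE DMON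
-- imports: Pool.Agent.P.MP_d66c6d_pr.M.Taiw
/-- Uniform tails of the number of classes. -/
def S_TAIWQ : Prop := ∀ ν : Measure Br, IsBridge ν → ∀ L : ℝ, 10 ≤ L → ∀ α : ℕ,
  ∃ p₁ : ℝ≥0∞, p₁ ≠ 0 ∧ ∀ W : ℝ, ∃ A : ℝ, ∀ κ c lam : ℝ, 0 < lam →
    Rare ν κ c lam L 0 1 (ZB 0 1 3 W) p₁ →
    ∀ t : ℝ, 1 ≤ t → Rare ν κ c lam L 0 1 (ZB 0 1 3 t) (ENNReal.ofReal (A / t ^ α))

-- deps: TAIWQ ZRC ZTHR RARE DMON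
-- imports: Pool.Agent.P.MP_d66c6d_pr.M.Tail
/-- Uniform tails of the connection cost. -/
def S_TAILQ : Prop := ∀ ν : Measure Br, IsBridge ν → ∀ L c₀ : ℝ, 10 ≤ L → 0 < c₀ → ∀ α : ℕ,
  ∃ p₀ : ℝ≥0∞, p₀ ≠ 0 ∧ ∀ S W : ℝ, ∃ A : ℝ, ∀ κ c lam x β : ℝ, 0 < lam → 0 < x → x ≤ 1 →
    c₀ ≤ β → Rare ν κ c lam L 0 1 (ZB 0 1 3 W) p₀ →
    (∀ y ∈ Icc x 1, Rare ν κ c lam L 0 1 (ZB 0 1 y (S * (β / y))) p₀) →
    ∀ t : ℝ, 1 ≤ t → Rare ν κ c lam L 0 1 (ZB 0 1 x (t * (β / x))) (ENNReal.ofReal (A / t ^ α))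

-- deps: TAILQ ZKC RARE DMON
/-- Tails at the good scales. -/
def S_TAILS : Prop := ∀ ν : Measure Br, IsBridge ν → ∀ (κ L c θ : ℝ) (e b : ℕ → ℝ), 10 ≤ L →
  Sq0 θ e b → TightK ν κ L c θ e b → TailS ν κ L c θ e b

-- deps: FAR
-- imports: Pool.Agent.P.MP_d66c6d_pr.M.Rare
/-- The product bound given an outside event, and conditioning. -/
def S_RAREF : Prop :=
  (∀ (ν : Measure Br) (κ c lam L : ℝ), 0 < L → ∀ (ι : Type) (I : Finset ι) (z : ι → ℂ) (r : ℝ)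
    (E : ι → Set (Cfg KC)) (p : ℝ≥0∞) (m : Measure KC) (F : Set (Cfg KC)), 0 < r →
    (∀ i ∈ I, ∀ j ∈ I, i ≠ j → 20 * (L * r) ≤ dist (z i) (z j)) →
    (∀ i ∈ I, Adm ν κ c lam (z i) (L * r) m ∧ OutE (z i) (L * r) F ∧
      FarE (z i) (10 * (L * r)) (E i) ∧ Rare ν κ c lam L (z i) r (E i) p) →
    PP m ((⋂ i ∈ I, E i ∩ NoCE (z i) (L * r)) ∩ F) ≤ p ^ I.card * PP m F) ∧
  ∀ (Ω : Type) [MeasurableSpace Ω] (P : Measure Ω) [IsFiniteMeasure P] (F : Set Ω),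
    MeasurableSet F → ∃ Q : Measure Ω, ∀ (A : Set Ω) (q : ℝ≥0∞), Q A ≤ q ↔ P (A ∩ F) ≤ q * P F

-- deps: FEW RAREF FAR GRID
/-- It is rare that a macroscopic animal has many bad cells. -/
def S_RMANY : Prop := ∀ L : ℝ, 10 ≤ L → ∃ p : ℝ≥0∞, p ≠ 0 ∧ ∃ C : ℝ, ∃ r₀ > (0 : ℝ),
  ∀ (ν : Measure Br) (κ c lam : ℝ), 0 < lam → ∀ r ∈ Ioc 0 r₀, ∀ E : ℤ × ℤ → Set (Cfg KC),
  (∀ x, FarE (gp (r / 2) x) (10 * (L * r)) (E x) ∧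
    Rare ν κ c lam L (gp (r / 2) x) r (E x) p) →
  Rare ν κ c lam L 0 1 {S | Many (r / 2) fun x => S ∈ E x ∩ NoCE (gp (r / 2) x) (L * r)}
    (ENNReal.ofReal (C * r))

-- deps: GAW RAREF RTR FAR GRID ZREP BLK MDL
-- imports: Pool.Agent.P.MP_d66c6d_pr.M.Ref
/-- Refinement of a skeleton, given the outside. -/
def S_REF1 : Prop := ∀ ν : Measure Br, IsBridge ν → ∀ L A : ℝ, 10 ≤ L → ∃ C > (0 : ℝ),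
  ∃ r₀ > (0 : ℝ), ∀ κ c lam : ℝ, 0 < lam → ∀ r ∈ Ioc 0 r₀, ∀ ε s : ℝ, 0 ≤ s →
  (∀ t : ℝ, 1 ≤ t →
    Rare ν κ c lam L 0 1 (ZB 0 1 (ε / r) (t * s)) (ENNReal.ofReal (A / t ^ 8))) →
  Rare ν κ c lam L 0 1 {S | ∃ B, Skel (sets S) r B ∧ ¬ Nle (sets S) 0 1 ε (C * s * B.card)}
    (ENNReal.ofReal (C * r)) ∧
  (1 ≤ κ → 0 ≤ c → soup ν c (ball 0 (10 * L))
    {S | ∃ B, Skel (sets S) r B ∧ ¬ Nle (sets S) 0 1 ε (C * s * B.card)} ≤ ENNReal.ofReal (C * r))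

/-! ### All scales -/

-- deps: RMANY CGK RTR RARE FAR DMON
/-- Tightness at all scales. -/
def S_TIGH2 : Prop := ∀ ν : Measure Br, IsBridge ν → ∀ (κ L c θ : ℝ) (e b : ℕ → ℝ), 10 ≤ L →
  1 ≤ θ → Sq0 θ e b → TightK ν κ L c θ e b → LowS ν κ L c θ e b →
  TightU ν κ L c fun ε => ε ^ (-θ)

-- deps: REF1 RARE GRID DMON
-- imports: Pool.Agent.P.MP_d66c6d_pr.M.Right
/-- Cheap crossings are rare at all scales. -/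
def S_LOWN2 : Prop := ∀ ν : Measure Br, IsBridge ν → ∀ (κ L c θ : ℝ) (e b : ℕ → ℝ), 1 ≤ κ →
  10 ≤ L → 0 ≤ c → Sq0 θ e b → TailS ν κ L c θ e b → LowS ν κ L c θ e b →
  LowN ν κ L c fun ε => ε ^ (-θ)

-- deps: REF1 BASE GRID DMON COV
/-- The exponent is at most two, and the normalisations are at least of order `e n ^ (-θ)`. -/
def S_BLOW : Prop := ∀ ν : Measure Br, IsBridge ν → ∀ (κ L c θ : ℝ) (e b : ℕ → ℝ), 1 ≤ κ →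
  10 ≤ L → 0 ≤ c → SubP ν c → Sq0 θ e b → TailS ν κ L c θ e b →
  (LowN ν κ L c fun ε => ε ^ (-θ)) →
  θ ≤ 2 ∧ ∃ C > (0 : ℝ), ∀ᶠ n in atTop, e n ^ (-θ) ≤ C * b n

-- deps: LVW DAT1 TH2 SUB1 BLOB TIGK LOWS TAILS TIGH2 LOWN2 BLOW TAIL UPN HUG1
/-- All properties of a level. -/
def S_FULL2 : Prop := ∀ ν κ L β c c₂, Ctx ν κ L β c c₂ → 1 ≤ κ → ∀ θ θ' : ℝ, Lv1 ν c θ →
  Lv1 ν (c / 2) θ' → Full ν κ L c θ (fun ε => ε ^ (-θ)) ∧ LvF ν c θ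

-- deps: BLI FIMG LPC COV
-- imports: Pool.Agent.P.MP_d66c6d_pr.E.Ltd
/-- Expensive long paths in the carpet exclude cheap crossings in the image. -/
def S_LTD1 : Prop := ∀ (V : Set ℂ) (f g : ℂ → ℂ), Conf V f g → NoHole V → ∃ Λ > (0 : ℝ),
  ∀ (T : Set (Set ℂ)) (S : Cfg KC) (X : Set ℂ) (a : ℝ → ℝ) (e : ℕ → ℝ) (θ δ C : ℝ), Tame T →
  (∀ K ∈ T, K ⊆ V ∧ f '' K ∈ sets S) → Fr T ∩ V ⊆ X → 0 < C → (∀ j, e j ^ (-θ) ≤ C * a (e j)) →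
  XU X a e → XL X a e → (∀ j, 0 < e j) → Tendsto e atTop (𝓝 0) → 0 < δ →
  ∀ᶠ j in atTop, ∃ n, S ∉ badL n (Λ / e j) ((Λ / e j) ^ (θ - 2 - δ)) 0 (1 / 4)

-- deps: DAT1 LTD1 FRC1 BLM IMS RMT JOR LVB PPO MUK
-- imports: Pool.Agent.P.MP_d66c6d_pr.E.Lt
/-- The lower tail of the crossing cost in the unit disc. -/
def S_LT1 : Prop := ∀ ν : Measure Br, IsBridge ν → ∀ c θ c₂ : ℝ, 0 < c → c < c₂ → c₂ ≤ 1 →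
  LvF ν c θ → SubC ν (ENNReal.ofReal c₂) → ∀ δ > (0 : ℝ), ∀ p : ℝ≥0∞, p ≠ 0 → ∀ M₀ : ℝ,
  ∃ M ≥ M₀, ∃ n, PP (ENNReal.ofReal c • muK ν) (badL n M (M ^ (θ - 2 - δ)) 0 (1 / 4)) ≤ p

-- deps: LT1 PEL LOWT1 BLM PPA MUK
-- imports: Pool.Agent.P.MP_d66c6d_pr.E.Left
/-- Lower semicontinuity of the exponent from the left. -/
def S_LEFT2 : Prop := ∀ ν : Measure Br, IsBridge ν → ∀ Θ : ℝ → ℝ,
  (∀ c ∈ Ioo (0 : ℝ) (1 / 2), Lv1 ν c (Θ c) ∧ LvF ν c (Θ c) ∧ SubC ν (ENNReal.ofReal c)) →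
  ∀ c ∈ Ioo (0 : ℝ) (1 / 2), ∀ d > (0 : ℝ), ∀ᶠ c' in 𝓝[<] c, Θ c - d ≤ Θ c'

-- deps: UPB1
/-- The limit of the exponent at small intensity. -/
def S_LIM2 : Prop := ∀ ν : Measure Br, IsBridge ν → ∀ Θ : ℝ → ℝ,
  (∀ c ∈ Ioo (0 : ℝ) (1 / 2), 1 ≤ Θ c ∧ LvF ν c (Θ c)) → Tendsto Θ (𝓝[>] 0) (𝓝 1)

-- deps: REF BASE MDL EXP GRID DMON COV
-- imports: Pool.Agent.P.MP_d66c6d_pr.M.Right
/-- Upper semicontinuity of the exponent from the right. -/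
def S_RIGHT2 : Prop := ∀ ν : Measure Br, IsBridge ν → ∀ (κ L : ℝ) (Θ : ℝ → ℝ), 1 < κ → 10 ≤ L →
  (∀ c ∈ Ioo (0 : ℝ) (1 / 2), ∃ a, Full ν κ L c (Θ c) a) →
  ∀ c ∈ Ioo (0 : ℝ) (1 / 2), ∀ d > (0 : ℝ), ∀ᶠ c' in 𝓝[>] c, Θ c' ≤ Θ c + d

-- deps: STEP MDL EXP DMON
-- imports: Pool.Agent.P.MP_d66c6d_pr.M.Strict
/-- The exponent is strictly increasing. -/
def S_STRICT2 : Prop := ∀ ν : Measure Br, IsBridge ν → ∀ (κ L : ℝ) (Θ : ℝ → ℝ), 1 < κ → 10 ≤ L →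
  (∀ c ∈ Ioo (0 : ℝ) (1 / 2), ∃ a, Full ν κ L c (Θ c) a) → StrictMonoOn Θ (Ioo 0 (1 / 2))

-- deps: SUBY1 UPG1 UCS FULL2 LEFT2 LIM2 RIGHT2 STRICT2
/-- The three clauses in terms of the intensity. -/
def S_FIN2 : Prop := ∀ ν : Measure Br, IsBridge ν → ∀ Θ : ℝ → ℝ,
  (∀ c ∈ Ioo (0 : ℝ) (1 / 2), Lv0 ν c (Θ c)) →
  ContinuousOn Θ (Ioo 0 (1 / 2)) ∧ StrictMonoOn Θ (Ioo 0 (1 / 2)) ∧ Tendsto Θ (𝓝[>] 0) (𝓝 1)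

-- deps: FIN2
/-- The three clauses in terms of `κ`. -/
def S_MAIN2 : Prop := ∀ ν : Measure Br, IsBridge ν → ∀ (Ω : ℝ → Type) [∀ κ, MeasurableSpace (Ω κ)]
  [∀ κ, StandardBorelSpace (Ω κ)] (P : ∀ κ, Measure (Ω κ)) (Γ : ∀ κ, Ω κ → Set (Set ℂ))
  (θ : ℝ → ℝ), (∀ κ ∈ Ioo (8 / 3 : ℝ) 4, IsPlaneCLE ν κ (P κ) (Γ κ)) →
  (∀ κ ∈ Ioo (8 / 3 : ℝ) 4, IsLimitExp (P κ) (fun ω => firstCarpet (Γ κ ω)) (θ κ)) →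
  ContinuousOn θ (Ioo (8 / 3) 4) ∧ StrictMonoOn θ (Ioo (8 / 3) 4) ∧
    Tendsto θ (𝓝[>] (8 / 3)) (𝓝 1)

end Pool.Agent.P.MP_d66c6d_pr
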