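import Pool.Agent.P.MP_d66c6d_pr.V.Iface
import Pool.Agent.P.MP_d66c6d_pr.A.Iface
import Pool.Agent.P.MP_d66c6d_pr.N.Iface
import Pool.Agent.P.MP_d66c6d_pr.L.Iface
import Pool.Agent.P.MP_d66c6d_pr.F.Iface
import Pool.Agent.P.MP_d66c6d_pr.B.Iface
import Pool.Agent.P.MP_d66c6d_pr.G.Lay

/-! Step LAY1 of the carpet project. -/

namespace Pool.Agent.P.MP_d66c6d_pr

open MeasureTheory ProbabilityTheory Set Metric Filter Topology
open scoped ENNReal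

theorem p_LAY1 (hLAYT1 : S_LAYT1) (hSUB1 : S_SUB1) (hJOR : S_JOR) (hNC : S_NC) (hLVB : S_LVB) (hHQD : S_HQD) (hHQL : S_HQL) (hHITL : S_HITL) (hPPO : S_PPO) (hMUK : S_MUK) (hREV : S_REV) :
    S_LAY1 := by
  intro ν hν c₀ c₁ c₂ h0 h01 h12 h21 hL V R hV hVR
  obtain ⟨v1, v2, -, -, -, -, -, v8, -, -⟩ := hJOR V hV
  have hb : Bornology.IsBounded V := isBounded_ball.subset hVR
  have hne : V ≠ univ := fun h => NormedSpace.unbounded_univ ℝ ℂ (h ▸ hb)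
  obtain ⟨m1, m2⟩ := hLVB.2 ν hν c₀
  obtain ⟨m2, m3⟩ := m2 R
  have := (hMUK ν hν).1
  have a1 := (m3 V v1 hVR).quasiMeasurePreserving.ae
    (hLAYT1 ν hν c₀ c₁ c₂ h0 h01 h12 h21 hL V v1 hb)
  have a2 := m1.quasiMeasurePreserving.ae (hNC ν hν c₀ c₂ h0.le (h01.trans h12)
    (hSUB1 ν hν c₂ hL).2 V v1 v2 (fun K _ hK => v8 K hK) hne)
  have a3 := (hPPO Lp (ENNReal.ofReal c₀ • loopMeasure ν) inferInstance).2.2.2.2.2.1 _
    (Measure.ae_smul_measure (((hREV.2 ν hν).2.2.2.2.2.2.2).and (hHQL ν hν univ isClosed_univ)) _)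
  have a4 := ae_all_iff.2 fun q : ℚ × ℚ × ℚ =>
    hHITL ν hν c₀ (V ∩ ball (qp q) q.2.2) (v1.inter isOpen_ball)
  filter_upwards [a1, Measure.quasiMeasurePreserving_fst.ae (a2.and (a3.and a4)),
    Measure.quasiMeasurePreserving_snd.ae m2] with p b1 ⟨b2, b3, b4⟩ b5
  obtain ⟨t1, t2, t3, t4, t5⟩ := b1
  rw [hLVB.1 V c₀ c₁ h01.le] at t1 t2 t4
  rw [hLVB.1 V c₀ c₀ le_rfl] at t3 t4 t5
  have e : lay V p.1 p.2 c₀ = ins V (trace '' p.1.pts) := by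
    rw [lay, sets, b5, image_empty, union_empty]
  refine ⟨h01, fun K hK => hK.2, fun c c' _ h _ => LayA.lay_mono V _ _ h, t1, fun ξ hξ => ?_, t2,
    fun K hK hKV => ?_, fun q hq _ => t4 q hq, fun q q' h1 h2 _ => t5 q q' h1 h2, fun K hK => ?_⟩
  · obtain ⟨c', hc', h⟩ := t3 ξ hξ
    rw [hLVB.1 V c₀ c' hc'.1.le] at h
    exact ⟨c', hc', h⟩
  · rw [e] at hK ⊢
    rw [LayA.ins_ins, inter_self]
    rw [Cfg.map, sets_map_trace] at b2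
    exact b2 K hK.1 hKV
  · rw [e] at hK ⊢
    obtain ⟨⟨l, hl, rfl⟩, hK⟩ := hK
    obtain ⟨⟨-, r1, r2⟩, r3⟩ := b3 l hl
    refine ⟨(lp l).2, range_lp l, r1.trans r2.symm, hHQD _ _ r3, fun q hq A hA => ?_⟩
    rw [LayA.ins_ins] at hA ⊢
    exact hHQD _ _ (b4 q l hl (fun h => hq (h.trans inter_subset_right)) A hA)

end Pool.Agent.P.MP_d66c6d_pr
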