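import Pool.Agent.P.MP_d66c6d_pr.V.Iface
import Pool.Agent.P.MP_d66c6d_pr.E.Iface
import Pool.Agent.P.MP_d66c6d_pr.F.Iface
import Pool.Agent.P.MP_d66c6d_pr.E.Left

/-! Step LEFT2 of the carpet project. -/

namespace Pool.Agent.P.MP_d66c6d_pr

open MeasureTheory ProbabilityTheory Set Metric Filter Topology
open scoped ENNReal

theorem p_LEFT2 (hLT1 : S_LT1) (hPEL : S_PEL) (hLOWT1 : S_LOWT1) (hBLM : S_BLM) (hPPA : S_PPA) (hMUK : S_MUK) :
    S_LEFT2 := by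
  intro ν hν Θ hΘ c hc d hd
  obtain ⟨p, hp, hP⟩ := hPEL
  obtain ⟨-, hsf, -, ⟨C, -, hC⟩, -⟩ := hMUK ν hν
  have hc2 : (c + 1 / 2) / 2 ∈ Ioo (0 : ℝ) (1 / 2) := ⟨by linarith [hc.1], by linarith [hc.2]⟩
  have hp2 : p / 2 ≠ 0 := by
    simp [hp]
  obtain ⟨M, hM, n, hn⟩ := hLT1 ν hν c (Θ c) ((c + 1 / 2) / 2) hc.1
    (by linarith [hc.2]) (by linarith [hc.2]) (hΘ c hc).2.1 (hΘ _ hc2).2.2 (d / 2) (by positivity)
    (p / 2) hp2 (max 2 (Real.exp (2 * Real.log 1600 / d)))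
  have hM2 : 2 ≤ M := le_trans (le_max_left _ _) hM
  have hMe : Real.exp (2 * Real.log 1600 / d) ≤ M := le_trans (le_max_right _ _) hM
  have hM0 : 0 < M := by linarith
  obtain ⟨hbm, hbl, -⟩ := hBLM n M (M ^ (Θ c - 2 - d / 2)) 0 (1 / 4) (by norm_num)
  set BB : Set KC := inK (ball (0 : ℂ) (4 * (1 / 4))) ∩ bigK ((1 / 4 : ℝ) / (n + 1)) with hBB
  have hBm : MeasurableSet BB :=
    (isOpen_inK isOpen_ball).measurableSet.inter (measurableSet_bigK _)
  have hBf : muK ν BB ≠ ∞ :=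
    ne_top_of_le_ne_top ENNReal.ofReal_ne_top (hC 0 _ _ (by norm_num) (by positivity))
  have ht : Tendsto (fun c' : ℝ => ENNReal.ofReal (c - c') * muK ν BB) (𝓝[<] c) (𝓝 0) := by
    have h1 : Tendsto (fun c' : ℝ => ENNReal.ofReal (c - c')) (𝓝 c) (𝓝 0) := by
      have h2 : Continuous (fun c' : ℝ => ENNReal.ofReal (c - c')) :=
        ENNReal.continuous_ofReal.comp (continuous_const.sub continuous_id)
      simpa using h2.tendsto c
    have h3 := ENNReal.Tendsto.mul_const (h1.mono_left (nhdsWithin_le_nhds (s := Iio c)))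
      (Or.inr hBf)
    simpa using h3
  have he : ∀ᶠ c' in 𝓝[<] c, ENNReal.ofReal (c - c') * muK ν BB ≤ p / 2 :=
    ht.eventually (Iic_mem_nhds (pos_iff_ne_zero.2 hp2))
  filter_upwards [he, Ioo_mem_nhdsLT hc.1] with c' h1 h2
  have hsum : ENNReal.ofReal c' • muK ν + ENNReal.ofReal (c - c') • muK ν =
      ENNReal.ofReal c • muK ν := by
    rw [← add_smul, ← ENNReal.ofReal_add h2.1.le (by linarith [h2.2])]
    congr 2
    ring
  have h5 := (hPPA KC (ENNReal.ofReal c' • muK ν) (ENNReal.ofReal (c - c') • muK ν)).2.2.2.2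
    inferInstance inferInstance _ BB hbm.compl hBm (by
      intro S T hT hST hS
      refine hST (hbl S (S ∪ T) ?_ hS)
      rw [Cfg.pts_union, union_inter_distrib_right, hT.inter_eq, union_empty])
  rw [hsum] at h5
  have h6 := LeftA.flip _ _ hbm h5
  have h7 : PP (ENNReal.ofReal c' • muK ν) (badL n M (M ^ (Θ c - 2 - d / 2)) 0 (1 / 4)) ≤ p := by
    refine h6.trans ?_
    rw [Measure.smul_apply, smul_eq_mul]
    calc _ ≤ p / 2 + p / 2 := add_le_add hn h1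
      _ = p := ENNReal.add_halves p
  have hv : 0 < M ^ (Θ c - 2 - d / 2) := Real.rpow_pos_of_pos hM0 _
  have hc' : c' ∈ Ioo (0 : ℝ) (1 / 2) := ⟨h2.1, h2.2.trans hc.2⟩
  have h8 := hLOWT1 ν hν c' (Θ c') c h2.1 h2.2 (by linarith [hc.2]) (hΘ c' hc').1 (hΘ c hc).2.2
    M _ hM0 (by positivity)
    (hP ν hν _ ENNReal.ofReal_ne_top n M _ (by linarith) hv.le h7)
  exact LeftA.logs hd hM2 hMe h8

end Pool.Agent.P.MP_d66c6d_pr
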