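import Pool.Agent.P.MP_d66c6d_pr.V.Iface

/-! Step LIM2 of the carpet project. -/

namespace Pool.Agent.P.MP_d66c6d_pr

open MeasureTheory ProbabilityTheory Set Metric Filter Topology
open scoped ENNReal

theorem p_LIM2 (hUPB1 : S_UPB1) :
    S_LIM2 := by
  intro ν hν Θ hΘ
  refine tendsto_order.2 ⟨fun a ha => ?_, fun a ha => ?_⟩
  · filter_upwards [Ioo_mem_nhdsGT one_half_pos] with c hc using ha.trans_le (hΘ c hc).1
  obtain ⟨α, hα, h⟩ := hUPB1 ν hν ((a - 1) / 2) (by linarith)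
  filter_upwards [Ioo_mem_nhdsGT one_half_pos, Ioo_mem_nhdsGT hα] with c hc hc'
  obtain ⟨e, b, hW, C, hC, h1⟩ := (hΘ c hc).2
  obtain ⟨D, h2⟩ := h c hc'.2.le _ e b hW
  by_contra hn
  have he : Tendsto e atTop (𝓝[>] 0) :=
    tendsto_nhdsWithin_iff.2 ⟨hW.1.2.1, Eventually.of_forall fun n => (hW.1.1 n).1⟩
  obtain ⟨n, n1, n2, n3⟩ := (h2.and_eventually (h1.and (he.eventually ((tendsto_rpow_neg_nhdsGT_zero
    (show 1 + (a - 1) / 2 - Θ c < 0 by linarith)).eventually_gt_atTop (C * D))))).exists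
  have e0 := (hW.1.1 n).1
  have h3 := n2.trans (mul_le_mul_of_nonneg_left n1 hC.le)
  rw [show -Θ c = 1 + (a - 1) / 2 - Θ c + -(1 + (a - 1) / 2) by ring, Real.rpow_add e0,
    ← mul_assoc, mul_le_mul_iff_left₀ (by positivity)] at h3
  linarith

end Pool.Agent.P.MP_d66c6d_pr
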