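import Pool.Agent.P.MP_d66c6d_pr.V.Iface
import Pool.Agent.P.MP_d66c6d_pr.M.Iface
import Pool.Agent.P.MP_d66c6d_pr.D.Iface
import Pool.Agent.P.MP_d66c6d_pr.M.Right

/-! Step LOWN2 of the carpet project. -/

namespace Pool.Agent.P.MP_d66c6d_pr

open MeasureTheory ProbabilityTheory Set Metric Filter Topology
open scoped ENNReal

theorem p_LOWN2 (hREF1 : S_REF1) (hRARE : S_RARE) (hGRID : S_GRID) (hDMON : S_DMON) :
    S_LOWN2 := by
  intro ν hν κ L c θ e b hκ hL hc hS hT hW lam hlam p hp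
  obtain ⟨A, hA⟩ := hT lam hlam 8
  obtain ⟨C, hC, r₀, hr₀, hR⟩ := hREF1 ν hν L A hL
  have p0 := ENNReal.half_pos hp
  obtain ⟨τ, hτ, hG⟩ := hW lam hlam _ p0.ne'
  have ev : ∀ᶠ r in 𝓝[>] (0 : ℝ), ENNReal.ofReal (C * r) < p / 2 ∧ r ∈ Ioc 0 r₀ := by
    refine Eventually.and ?_ (Ioc_mem_nhdsGT hr₀)
    refine Eventually.filter_mono nhdsWithin_le_nhds (Tendsto.eventually_lt_const p0 ?_)
    exact (ENNReal.continuous_ofReal.comp (continuous_const.mul continuous_id)).tendsto' 0 0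
      (by simp)
  obtain ⟨ε₀, e0, hε⟩ := (mem_nhdsGT_iff_exists_Ioo_subset).1 ev
  refine ⟨τ / (49 * C), by positivity, ε₀, e0, fun r hr => ?_⟩
  obtain ⟨r1, r2⟩ := hε hr
  obtain ⟨n, c', hc', hn⟩ := (hG.and hA one_pos hr.1).exists
  obtain ⟨⟨g1, g2⟩, g3⟩ := hn c ⟨le_rfl, hc'.le⟩
  rw [div_one, Real.one_rpow, mul_one] at g1 g2
  have b0 := (hS.1 n).2
  have q0 : 0 < r ^ θ := Real.rpow_pos_of_pos hr.1 θ
  obtain ⟨k1, k2⟩ := hR κ c lam hlam r r2 (e n) (b n * r ^ θ) (by positivity) g3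
  have hs := RightA.step hGRID hDMON (r := r) (ε := e n) (s := C * (b n * r ^ θ))
    (t := τ / (49 * C) * r ^ (-θ)) hr.1 (by positivity)
  have e1 : 49 * (C * (b n * r ^ θ)) * (τ / (49 * C) * r ^ (-θ)) = τ * b n := by
    rw [Real.rpow_neg hr.1.le]; field_simp
  rw [e1] at hs
  obtain ⟨m1, -, -, -, m5, -⟩ := hRARE ν κ c lam L hlam (by linarith)
  have hp2 : p / 2 + ENNReal.ofReal (C * r) ≤ p :=
    (add_le_add_right r1.le _).trans (ENNReal.add_halves p).le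
  exact ⟨m1 _ _ _ _ _ _ hs hp2 (m5 _ _ _ _ _ _ g1 k1),
    (measure_mono hs).trans ((measure_union_le _ _).trans
      ((add_le_add g2 (k2 hκ hc)).trans hp2))⟩

end Pool.Agent.P.MP_d66c6d_pr
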