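import Pool.Agent.P.MP_d66c6d_pr.V.Iface
import Pool.Agent.P.MP_d66c6d_pr.D.Iface
import Pool.Agent.P.MP_d66c6d_pr.M.Iface

/-! Step LOWS of the carpet project. -/

namespace Pool.Agent.P.MP_d66c6d_pr

open MeasureTheory ProbabilityTheory Set Metric Filter Topology
open scoped ENNReal

theorem p_LOWS (hGUL1 : S_GUL1) (hRZS1 : S_RZS1) (hCZN : S_CZN) (hFAR : S_FAR) (hDMEA : S_DMEA) (hDMON : S_DMON) :
    S_LOWS := by
  intro ν κ L β c c₂ hC θ R e b hR ⟨hpos, he0, c₀, h0, hc₀⟩ hD lam hlam p hp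
  by_contra hcon
  have h1 : ∀ k : ℕ, ∃ s > (0 : ℝ), ∃ᶠ n in atTop, ∀ c' > c, ∃ c₁ ∈ Icc c c',
      ¬ (Rare ν κ c₁ lam L 0 1 (NE 0 1 (e n / s) (1 / ((k : ℝ) + 1) * (b n * s ^ θ))) p ∧
        soup ν c₁ (ball 0 (10 * L)) (NE 0 1 (e n / s) (1 / ((k : ℝ) + 1) * (b n * s ^ θ))) ≤ p) :=
    fun k => by
      by_contra h
      refine hcon ⟨_, Nat.one_div_pos_of_nat (n := k), fun s hs => ?_⟩
      by_contra h2
      refine h ⟨s, hs, (not_eventually.1 h2).mono fun n hn c' hc' => ?_⟩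
      by_contra h3
      exact hn ⟨c', hc', fun c₁ h4 => not_not.1 fun h5 => h3 ⟨c₁, h4, h5⟩⟩
  choose s hs hbad using h1
  obtain ⟨n, a, hn, hx0, hS⟩ := hD s _ hs fun k => (hbad k).and_eventually ((hc₀ _ (hs k)).and
    ((he0.div_const (s k)).eventually (ge_mem_nhds (by simp : (0 : ℝ) / s k < 1))))
  have hx : ∀ k, 0 < e (n k) / s k := fun k => div_pos (hpos _).1 (hs k)
  have ha : ∀ k, 0 ≤ a (e (n k) / s k) := fun k => by
    rw [(hn k).2]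
    exact (mul_pos (hpos _).2 (Real.rpow_pos_of_pos (hs k) _)).le
  have hG := hGUL1 ν hC.br c c₂ R c₀ a _ hC.pos hC.lt hC.le hC.sub hS hx hx0 h0 fun k => by
    have h2 := (hn k).1.2
    rw [← (hn k).2] at h2
    exact h2.1.trans (mul_le_of_le_one_right (ha k) h2.2)
  have h2 : ∀ m : ℕ, ∃ (t : ℝ) (j : ℕ), 1 / ((j : ℝ) + 1) ≤ t ∧
      lsoup ν c R (GN c R (e (n j) / s j) (t * a (e (n j) / s j))) ≤ (m : ℝ≥0∞)⁻¹ := fun m => by
    obtain ⟨t, ht, h⟩ := (hG _ (ENNReal.inv_ne_zero.2 (ENNReal.natCast_ne_top m))).2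
    obtain ⟨j, h3, h4⟩ := (((tendsto_one_div_add_atTop_nhds_zero_nat (𝕜 := ℝ)).eventually
      (ge_mem_nhds ht)).and h).exists
    exact ⟨t, j, h3, h4⟩
  choose t j ht hj using h2
  choose cs h3 h4 using fun m : ℕ => (hn (j m)).1.1 (c + 1 / ((m : ℝ) + 1))
    (lt_add_of_pos_right _ Nat.one_div_pos_of_nat)
  have hcs : Tendsto cs atTop (𝓝 c) := by
    have h := (tendsto_one_div_add_atTop_nhds_zero_nat (𝕜 := ℝ)).const_add c
    rw [add_zero] at h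
    exact tendsto_of_tendsto_of_tendsto_of_le_of_le tendsto_const_nhds h (fun m => (h3 m).1)
      fun m => (h3 m).2
  obtain ⟨m, hm⟩ := (hRZS1 ν κ L β c c₂ hC R hR cs
    (fun m => NE 0 1 (e (n (j m)) / s (j m)) (1 / ((j m : ℝ) + 1) * a (e (n (j m)) / s (j m))))
    (fun m => GN c R (e (n (j m)) / s (j m)) (t m * a (e (n (j m)) / s (j m)))) (fun m => (h3 m).1)
    hcs (fun m => ⟨(hFAR.1 0 1 _ _ one_pos).2, measurable_lev c (hDMEA.2.2.2.1 _ _ _)⟩)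
    (tendsto_of_tendsto_of_tendsto_of_le_of_le tendsto_const_nhds
      ENNReal.tendsto_inv_nat_nhds_zero (fun _ => zero_le) hj)
    (fun J => Eventually.of_forall fun m X hX 𝒯 h𝒯 => by
      obtain ⟨i, hi⟩ := (hCZN.1 R _ J _ h𝒯).2.1 _ _ hX
      exact ⟨i, hDMON.2.2.2.2.2.1 _ _ _ _ _ _ _ _ (image_mono (image_mono
        (inter_subset_inter_right _ fun _ (hq : _ ≤ c) => hq.trans (h3 m).1))) subset_rfl le_rfl
        (mul_le_mul_of_nonneg_right (ht m) (ha _)) hi⟩) lam hlam p hp).exists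
  rw [(hn _).2] at hm
  exact h4 m hm

end Pool.Agent.P.MP_d66c6d_pr
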