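import Pool.Agent.P.MP_d66c6d_pr.V.Iface
import Pool.Agent.P.MP_d66c6d_pr.S.Lowx

/-! Step LOWX1 of the carpet project. -/

namespace Pool.Agent.P.MP_d66c6d_pr

open MeasureTheory ProbabilityTheory Set Metric Filter Topology
open scoped ENNReal

namespace Lowx1A

theorem ratio {Ω : Type} [MeasurableSpace Ω] {P : Measure Ω} [IsProbabilityMeasure P]
    {X : Ω → Set ℂ} {θ : ℝ} (hθ : IsLimitExp P X θ) (hX : ∀ᵐ ω ∂P, IsCompact (X ω)) :
    ∃ ε : ℕ → ℝ, (∀ n, 0 < ε n) ∧ Tendsto ε atTop (𝓝 0) ∧ ∀ s ρ lam : ℝ, 0 < s → 0 < ρ → 1 < lam →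
    Tendsto (fun k => P {ω | ∃ x ∈ X ω, ∃ y ∈ X ω, ρ < dist x y ∧
      ¬ (ENNReal.ofReal (s ^ θ / s ^ 2 / lam) * mfpp (ε k) (X ω) x y ≤ mfpp (ε k / s) (X ω) x y ∧
        mfpp (ε k / s) (X ω) x y ≤ ENNReal.ofReal (s ^ θ / s ^ 2 * lam) * mfpp (ε k) (X ω) x y)})
      atTop (𝓝 0) := by
  obtain ⟨ε, a, D, hε, hε0, ha, hm, hmet, hr⟩ := hθ
  refine ⟨ε, hε, hε0, fun s ρ lam hs hρ hl => ENNReal.tendsto_nhds_zero.2 fun δ hδ => ?_⟩
  · set B : ℕ → Set Ω := fun n => {ω | ∃ x ∈ X ω, ∃ y ∈ X ω, (x, y, D (X ω) x y) ∈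
      {p : ℂ × ℂ × ℝ | ρ < dist p.1 p.2.1 ∧ p.2.2 < 1 / ((n : ℝ) + 1)}} with hB
    have hB0 : Tendsto (P ∘ B) atTop (𝓝 0) := by
      have ho : ∀ c : ℝ, IsOpen {p : ℂ × ℂ × ℝ | ρ < dist p.1 p.2.1 ∧ p.2.2 < c} := fun c =>
        IsOpen.and (isOpen_lt continuous_const (by fun_prop)) (isOpen_lt (by fun_prop) continuous_const)
      have h1 := tendsto_measure_iInter_atTop (μ := P) (s := B) (fun n => hm _ (ho _))
        (fun n m hnm ω ⟨x, hx, y, hy, h1, h2⟩ => ⟨x, hx, y, hy, h1, h2.trans_le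
          (Nat.one_div_le_one_div hnm)⟩) ⟨0, measure_ne_top _ _⟩
      have h2 : P (⋂ n, B n) = 0 := by
        refine measure_mono_null ?_ (ae_iff.1 (hX.and hmet))
        rintro ω hω ⟨h3, h4⟩
        obtain ⟨τ, hτ, h5⟩ := h4.exists_lower h3 hρ
        obtain ⟨n, hn⟩ := exists_nat_one_div_lt hτ
        obtain ⟨x, hx, y, hy, h6, h7⟩ := mem_iInter.1 hω n
        exact absurd (h5 x hx y hy (h7.trans hn)) (not_le.2 h6)
      rwa [h2] at h1
    obtain ⟨n, hn⟩ := (ENNReal.tendsto_nhds_zero.1 hB0 (δ / 2) (ENNReal.half_pos hδ.ne')).exists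
    set τ : ℝ := 1 / ((n : ℝ) + 1) with hτ
    have hτ0 : 0 < τ := by positivity
    set σ := s ^ θ with hσ
    have hσ0 : 0 < σ := Real.rpow_pos_of_pos hs _
    set κ := (lam - 1) / (lam + 1) with hκ
    have hκ0 : 0 < κ := div_pos (by linarith) (by linarith)
    have hκ1 : 1 + κ = lam * (1 - κ) := by rw [hκ]; field_simp; ring
    have h1 := (hr 1 one_pos).2 (κ * τ) (by positivity)
    have h2 := (hr s hs).2 (κ * τ * σ) (by positivity)
    have h3 := h1.add h2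
    rw [add_zero] at h3
    filter_upwards [ENNReal.tendsto_nhds_zero.1 h3 (δ / 2) (ENNReal.half_pos hδ.ne')] with k hk
    rw [← ENNReal.add_halves δ]
    refine le_trans ?_ (add_le_add hn hk)
    refine le_trans ?_ (add_le_add_right (measure_union_le _ _) _)
    refine le_trans (measure_mono_ae ?_) (measure_union_le _ _)
    filter_upwards [(hr s hs).1] with ω hsc
    rintro ⟨x, hx, y, hy, hxy, hbad⟩
    by_contra hno
    have n1 := fun h => hno (Or.inl h)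
    have n2 := fun h => hno (Or.inr (Or.inl h))
    have n3 := fun h => hno (Or.inr (Or.inr h))
    have hd : τ ≤ D (X ω) x y := not_lt.1 fun h => n1 ⟨x, hx, y, hy, hxy, h⟩
    have m2 : _ ∧ _ := not_not.1 fun h => n2 ⟨x, dil_one.symm ▸ hx, y, dil_one.symm ▸ hy, h⟩
    rw [dil_one] at m2
    have m3 : _ ∧ _ := not_not.1 fun h => n3 ⟨s * x, ⟨x, hx, rfl⟩, s * y, ⟨y, hy, rfl⟩, h⟩
    rw [hsc x hx y hy, mfpp_dil hs] at m3
    have hA := (ha k).1
    set A := a k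
    set d := D (X ω) x y
    have hl0 : 0 < lam := by linarith
    have e1 : κ * τ ≤ κ * d := by gcongr
    refine hbad ⟨ratio_low (by positivity) (by positivity) m2.2 m3.1 ?_,
      ratio_up (by positivity) (by positivity) m2.1 m3.2 ?_⟩
    · have : s ^ 2 * (σ / s ^ 2 / lam * (A * (d + κ * τ))) = A * σ * ((d + κ * τ) / lam) := by
        field_simp
      rw [this, show A * (σ * d - κ * τ * σ) = A * σ * (d - κ * τ) by ring]
      gcongr
      rw [div_le_iff₀ hl0]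
      nlinarith
    · have : s ^ 2 * (σ / s ^ 2 * lam * (A * (d - κ * τ))) = A * σ * (lam * (d - κ * τ)) := by
        field_simp
      rw [this, show A * (σ * d + κ * τ * σ) = A * σ * (d + κ * τ) by ring]
      gcongr
      nlinarith

theorem joined {Ω : Type} [MeasurableSpace Ω] {P : Measure Ω} {X : Ω → Set ℂ} {θ : ℝ}
    (hθ : IsLimitExp P X θ) : ∀ᵐ ω ∂P, ∀ x ∈ X ω, ∀ y ∈ X ω, JoinedIn (X ω) x y := by
  obtain ⟨ε, a, D, -, -, -, -, -, hr⟩ := hθ
  have h1 := (hr 1 one_pos).2 1 one_pos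
  rw [ae_iff]
  refine le_antisymm (ge_of_tendsto' h1 fun n => measure_mono fun ω hω => ?_) zero_le
  simp only [mem_ofPred_eq, not_forall] at hω
  obtain ⟨x, hx, y, hy, hxy⟩ := hω
  refine ⟨x, dil_one.symm ▸ hx, y, dil_one.symm ▸ hy, fun h => ?_⟩
  have h2 := h.2
  rw [dil_one] at h2
  refine ENNReal.ofReal_ne_top (top_le_iff.1 (le_trans ?_ h2))
  exact le_iInf₂ fun γ hγ => (hxy ⟨γ, range_subset_iff.1 hγ⟩).elim

end Lowx1A

theorem p_LOWX1 :
    S_LOWX1 := by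
  intro Ω _ P _ X θ hθ hX
  obtain ⟨ε, hε, hε0, hr⟩ := Lowx1A.ratio hθ hX
  refine ⟨ε, hε, hε0, fun z ρ M g hρ hM hg p hp hfr => ?_⟩
  have key : ∀ lam : ℝ, 1 < lam → g ≤ M ^ θ / M ^ 2 * lam := by
    intro lam hl
    have h1 := hr M (ρ / 4) lam hM (by positivity) hl
    obtain ⟨k, hk', hk⟩ :=
      (hfr.and_eventually (h1.eventually (gt_mem_nhds (pos_iff_ne_zero.2 hp)))).exists
    by_contra hg'
    refine absurd (hk'.trans (measure_mono_ae ?_)) (not_le.2 hk)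
    filter_upwards [Lowx1A.joined hθ] with ω hJ
    rintro ⟨⟨x, hx, hxz⟩, hout, hG⟩
    by_contra hno
    refine hg' (LowxA.det hρ (hε k) (by positivity) hJ hx hxz hout hG fun w hw hd => ?_)
    by_contra h
    exact hno ⟨x, hx, w, hw, hd, fun h' => h h'.2⟩
  rw [Real.rpow_sub hM, Real.rpow_two]
  have hc : 0 < M ^ θ / M ^ 2 := by positivity
  refine le_of_forall_gt_imp_ge_of_dense fun b hb => ?_
  have := key (b / (M ^ θ / M ^ 2)) ((one_lt_div hc).2 hb)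
  rwa [mul_div_cancel₀ _ hc.ne'] at this

end Pool.Agent.P.MP_d66c6d_pr
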