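import Pool.Agent.P.MP_d66c6d_pr.V.Iface
import Pool.Agent.P.MP_d66c6d_pr.E.Iface
import Pool.Agent.P.MP_d66c6d_pr.N.Iface
import Pool.Agent.P.MP_d66c6d_pr.T.Iface
import Pool.Agent.P.MP_d66c6d_pr.A.Iface
import Pool.Agent.P.MP_d66c6d_pr.L.Iface
import Pool.Agent.P.MP_d66c6d_pr.F.Iface
import Pool.Agent.P.MP_d66c6d_pr.E.Lt

/-! Step LT1 of the carpet project. -/

namespace Pool.Agent.P.MP_d66c6d_pr

open MeasureTheory ProbabilityTheory Set Metric Filter Topology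
open scoped ENNReal

theorem p_LT1 (hDAT1 : S_DAT1) (hLTD1 : S_LTD1) (hFRC1 : S_FRC1) (hBLM : S_BLM) (hIMS : S_IMS) (hRMT : S_RMT) (hJOR : S_JOR) (hLVB : S_LVB) (hPPO : S_PPO) (hMUK : S_MUK) :
    S_LT1 := by
  intro ν hν c θ c₂ hc hcc hc1 hL hL2 δ hδ p hp M₀
  obtain ⟨e₀, b, hW, C, hC0, hCe⟩ := hL
  obtain ⟨R, -, hD⟩ := hDAT1 ν hν c θ e₀ b hW
  obtain ⟨m, a, hm, he2, hV⟩ := hD (fun _ => 1) (fun _ => {n | e₀ n ^ (-θ) ≤ C * b n})
    (fun _ => one_pos) (fun _ => hCe.frequently)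
  set e : ℕ → ℝ := fun k => e₀ (m k) / 1 with he
  have he1 : ∀ j, 0 < e j := fun j => div_pos (hW.1.1 _).1 one_pos
  have hN : ∀ j, e j ^ (-θ) ≤ C * a (e j) := fun j => by
    have h1 : a (e j) = b (m j) * 1 ^ θ := (hm j).2
    have h2 : e₀ (m j) ^ (-θ) ≤ C * b (m j) := (hm j).1
    rw [h1, Real.one_rpow, mul_one, show e j = e₀ (m j) from div_one _]
    exact h2
  have hτ : min p 1 / 2 ≠ 0 := by simp [hp]
  have hτp : min p 1 / 2 < p :=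
    (ENNReal.half_lt_self (by simp [hp]) (by simp)).trans_le (min_le_left _ _)
  obtain ⟨V, hJ, -, hVR, hE⟩ := hV _ hτ
  obtain ⟨hop, hpc, ⟨z₀, hz₀⟩, -, -, -, -, hfill, -⟩ := hJOR V hJ
  have hnh : NoHole V := fun K _ hK => hfill K hK
  obtain ⟨f, g, hC, -⟩ := hRMT V hop hpc hnh (fun h =>
    NormedSpace.unbounded_univ ℝ ℂ (h ▸ isBounded_ball.subset hVR)) z₀ hz₀
  obtain ⟨Λ, hΛ, hltd⟩ := hLTD1 V f g hC hnh
  have hq : (0 : ℝ) < 1 / 4 := by norm_num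
  set B : ℕ → ℕ → Set (Cfg KC) :=
    fun j n => badL n (Λ / e j) ((Λ / e j) ^ (θ - 2 - δ)) 0 (1 / 4) with hB
  have hBm : ∀ j n, MeasurableSet (B j n) := fun j n => (hBLM n _ _ 0 _ hq).1
  have hu : soupN ν c univ = PP (ENNReal.ofReal c • muK ν) := by
    have : inK univ = univ := eq_univ_of_forall fun K => subset_univ _
    rw [soupN, this, Measure.restrict_univ]
  have hΦ := (hIMS.1 ν hν V f g hC c univ (subset_univ _)).comp (hu ▸ (hLVB.2 ν hν c).1)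
  have hLS : MeasurableSet (⋂ J, ⋃ j ≥ J, ⋂ n, B j n) := MeasurableSet.iInter fun J =>
    MeasurableSet.biUnion (to_countable _) fun j _ => MeasurableSet.iInter (hBm j)
  obtain ⟨Z, hZ1, hZ2, hZ3⟩ := exists_measurable_superset_of_null
    (hFRC1 ν hν c c₂ hc hcc hc1 hL2 V R hJ hVR)
  have h1 := hE _ ((hΦ.measurable hLS).diff hZ2) (by
    rintro N ⟨hN1, hN2⟩ hQ
    obtain ⟨k1, k2, k3, -⟩ := not_not.mp fun h => hN2 (hZ1 h)
    obtain ⟨-, hU, hL'⟩ := hQ.resolve_left k2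
    obtain ⟨J, hJ'⟩ := eventually_atTop.mp (hltd _
      ((((N.map fun l : Lp => trB (lp l).2).res (inK V))).map (imK V f)) _ a e θ δ C k1
      (by
        rintro K ⟨⟨l, hl, rfl⟩, hK⟩
        have h2 : trB (lp l).2 ∈ inK V := by
          change range (lp l).2 ⊆ V
          rwa [range_lp]
        refine ⟨hK, _, ⟨_, ⟨⟨l, hl, rfl⟩, h2⟩, rfl⟩, ?_⟩
        change (imK V f _ : Set ℂ) = _
        rw [coe_imK hC.diff.continuousOn h2, coe_trB, range_lp])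
      (fun y hy => (k3 ▸ hy : y ∈ carp (trace '' N.pts) V ∩ V).1) hC0 hN hU hL' he1 he2 hδ)
    obtain ⟨j, hj, hj'⟩ := mem_iUnion₂.mp (mem_iInter.mp hN1 J)
    obtain ⟨n, hn⟩ := hJ' j hj
    exact hn (mem_iInter.mp hj' n))
  rw [measure_sdiff_null hZ3, hΦ.measure_preimage hLS.nullMeasurableSet] at h1
  have : IsProbabilityMeasure (soupN ν c (ball 0 1)) := instProbPP _
  obtain ⟨J, hJ'⟩ := LtA.pick _ B hBm (fun j n => (hBLM n _ _ 0 _ hq).2.2) (h1.trans_lt hτp)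
  have hM : Tendsto (fun j => Λ / e j) atTop atTop := by
    simp_rw [div_eq_mul_inv]
    exact (tendsto_inv_nhdsGT_zero.comp (tendsto_nhdsWithin_iff.mpr
      ⟨he2, Eventually.of_forall he1⟩)).const_mul_atTop hΛ
  obtain ⟨j, hj1, hj2⟩ := ((eventually_ge_atTop J).and (hM.eventually_ge_atTop M₀)).exists
  obtain ⟨n, hn⟩ := hJ' j hj1
  refine ⟨_, hj2, n, le_trans (le_of_eq ?_) hn⟩
  have := (hMUK ν hν).2.1
  have hA : MeasurableSet (inK (ball (0 : ℂ) 1)) := (isOpen_inK isOpen_ball).measurableSet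
  rw [soupN, ← Measure.restrict_smul, ← (hPPO KC _ inferInstance).2.1 _ hA,
    Measure.map_apply (measurable_res hA) (hBm j n)]
  congr 1
  have h4 : ∀ S : Cfg KC, S.pts ∩ (inK (ball (0 : ℂ) (4 * (1 / 4))) ∩ bigK (1 / 4 / (n + 1))) =
      (S.res (inK (ball 0 1))).pts ∩
        (inK (ball (0 : ℂ) (4 * (1 / 4))) ∩ bigK (1 / 4 / (n + 1))) := fun S => by
    rw [show (4 : ℝ) * (1 / 4) = 1 by norm_num]
    change _ = S.pts ∩ _ ∩ _
    rw [inter_assoc, ← inter_assoc (inK _), inter_self]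
  ext S
  exact ⟨(hBLM n _ _ 0 _ hq).2.1 _ _ (h4 S), (hBLM n _ _ 0 _ hq).2.1 _ _ (h4 S).symm⟩

end Pool.Agent.P.MP_d66c6d_pr
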