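import Pool.Agent.P.MP_d66c6d_pr.V.Iface
import Pool.Agent.P.MP_d66c6d_pr.E.Iface
import Pool.Agent.P.MP_d66c6d_pr.A.Iface
import Pool.Agent.P.MP_d66c6d_pr.E.Ltd

/-! Step LTD1 of the carpet project. -/

namespace Pool.Agent.P.MP_d66c6d_pr

open MeasureTheory ProbabilityTheory Set Metric Filter Topology
open scoped ENNReal

theorem p_LTD1 (hBLI : S_BLI) (hFIMG : S_FIMG) (hLPC : S_LPC) (hCOV : S_COV) :
    S_LTD1 := by
  intro V f g hc hV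
  obtain ⟨hf, -, Λ, ρ, hΛ, hρ, hL, hsep⟩ := hFIMG V f g hc
  refine ⟨Λ, hΛ, fun T S X a e θ δ C hT hK hX hC hE hU hXL he he0 hδ => ?_⟩
  obtain ⟨τ, hτ, j₀, hj₀⟩ := hXL ρ hρ
  have hloc : ∀ r > (0 : ℝ), ∃ s > (0 : ℝ), ∀ x ∈ X, ∀ y ∈ X, dist x y < s →
      JoinedIn (X ∩ ball x r) x y := fun r hr => by
    obtain ⟨s, hs, C', j, hj⟩ := hU r hr
    refine ⟨s, hs, fun x hx y hy hd => ?_⟩
    obtain ⟨γ, h0, h1, h2, -⟩ := hj j le_rfl x hx y hy hd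
    exact joinedIn_iff_br.2 ⟨γ, h0, h1, h2⟩
  have hlim : Tendsto (fun j => 208 * Λ ^ (θ - δ) * C * e j ^ (δ / 2)) atTop (𝓝 0) := by
    have h1 := (Real.continuousAt_rpow_const 0 (δ / 2) (Or.inr (half_pos hδ).le)).tendsto.comp he0
    rw [Real.zero_rpow (half_pos hδ).ne'] at h1
    simpa using h1.const_mul (208 * Λ ^ (θ - δ) * C)
  filter_upwards [eventually_ge_atTop j₀, he0.eventually (gt_mem_nhds one_pos),
    he0.eventually (gt_mem_nhds hΛ), hlim.eventually (gt_mem_nhds hτ)] with j hj h1 h2 h3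
  have hej := he j
  by_contra hcon
  push Not at hcon
  obtain ⟨Γ, ⟨-, hΓc, hΓb, ⟨x, hx, hx'⟩, hΓo, hvol⟩, hFr⟩ :=
    hBLI _ _ 0 (1 / 4) S (by norm_num) hcon
  rw [show (4 : ℝ) * (1 / 4) = 1 by norm_num] at hFr
  rw [show (2 : ℝ) * (1 / 4) = 1 / 2 by norm_num] at hΓb hΓo
  have hΓ1 : Γ ⊆ ball 0 1 := hΓb.trans (closedBall_subset_ball (by norm_num))
  have hgX : g '' Γ ⊆ X := by
    rintro _ ⟨w, hw, rfl⟩
    exact hX ⟨LtdA.mem_Fr hc (hf hV) hT hK (hΓ1 hw) (hFr hw), hc.mapsg (hΓ1 hw)⟩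
  have hM : 0 < Λ / e j := div_pos hΛ hej
  have hε : 1 / 4 / (Λ / e j) = e j / (4 * Λ) := by field_simp
  have ht : (Λ / e j) ^ (θ - 2 - δ) * (1 / 4) ^ 2 =
      (Λ / e j) ^ (θ - δ) * (e j / (4 * Λ)) ^ 2 := by
    rw [show θ - 2 - δ = θ - δ - 2 by ring, Real.rpow_sub hM, Real.rpow_two]
    field_simp
  rw [hε, ht] at hvol
  have hcov := (hCOV _ _ Γ (by positivity)).2.1 (by positivity) hvol
  have hcov' := LtdA.cov_image hΛ hL hΓb
    (by rw [div_le_iff₀ (by positivity)]; linarith) hcov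
  have hcov2 := (hCOV (e j) _ (g '' Γ) hej).2.2.2.1 1 zero_le_one
    (hcov'.mono (by rw [show Λ * (e j / (4 * Λ)) = e j / 4 by field_simp]; linarith) le_rfl
      subset_rfl)
  obtain ⟨y, hy, hy'⟩ := not_subset.1 hΓo
  have hys : y ∈ sphere (0 : ℂ) (1 / 2) :=
    mem_sphere.2 (le_antisymm (mem_closedBall.1 (hΓb hy)) (not_lt.1 hy'))
  obtain ⟨γ, h0, h1', hγ⟩ := joinedIn_iff_br.1 (hLPC.1 X (g '' Γ) hloc hgX
    (hΓc.image g (hc.cg.mono hΓ1)) (e j) hej _ (mem_image_of_mem g hx) _ (mem_image_of_mem g hy))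
  refine hj₀ j hj γ (hγ.trans inter_subset_left) (by rw [h0, h1']; exact hsep x hx' y hys)
    (hcov2.mono le_rfl ?_ ((hγ.trans inter_subset_right).trans ?_))
  · have h4 : e j ^ (-(θ - δ / 2)) ≤ C * a (e j) :=
      (Real.rpow_le_rpow_of_exponent_ge hej h1.le (by linarith)).trans (hE j)
    have h5 : (Λ / e j) ^ (θ - δ) = Λ ^ (θ - δ) * e j ^ (δ / 2) * e j ^ (-(θ - δ / 2)) := by
      rw [Real.div_rpow hΛ.le hej.le, mul_assoc, ← Real.rpow_add hej, div_eq_mul_inv,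
        ← Real.rpow_neg hej.le]
      congr 2
      ring
    have h6 : 0 < a (e j) :=
      (mul_pos_iff_of_pos_left hC).1 ((Real.rpow_pos_of_pos hej _).trans_le h4)
    calc 26 * (1 + 1) ^ 2 * (2 * (Λ / e j) ^ (θ - δ))
        = 208 * Λ ^ (θ - δ) * e j ^ (δ / 2) * e j ^ (-(θ - δ / 2)) := by rw [h5]; ring
      _ ≤ 208 * Λ ^ (θ - δ) * e j ^ (δ / 2) * (C * a (e j)) :=
        mul_le_mul_of_nonneg_left h4 (by positivity)
      _ = 208 * Λ ^ (θ - δ) * C * e j ^ (δ / 2) * a (e j) := by ring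
      _ ≤ τ * a (e j) := mul_le_mul_of_nonneg_right h3.le h6.le
  · rw [one_mul]
    exact thickening_subset_cthickening _ _

end Pool.Agent.P.MP_d66c6d_pr
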