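import Pool.Agent.P.MP_d66c6d_pr.V.Iface

/-! Step LVW of the carpet project. -/

namespace Pool.Agent.P.MP_d66c6d_pr

open MeasureTheory ProbabilityTheory Set Metric Filter Topology
open scoped ENNReal

theorem p_LVW (hBAS1 : S_BAS1) (hRATD : S_RATD) (hRATS : S_RATS) :
    S_LVW := by
  rintro ν c θ ⟨Ω, m, sb, P, Γ, κ, h1, h2, h3⟩
  have := h2.1
  obtain ⟨h4, h5⟩ := hBAS1 ν κ θ Ω P Γ h2 h3
  obtain ⟨e, b, k1, k2, k3, k4, k5⟩ := hRATD Ω P _ θ h3 (h4.mono fun _ h => h.1)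
  refine ⟨e, b, hRATS Ω P _ θ e b k1 k2 k3 k4 fun s J hs hJ => ?_,
    Ω, m, sb, P, Γ, κ, h1, h2, h5, k5⟩
  obtain ⟨n, a, l1, l2, l3⟩ := k5 1 one_pos s J hs hJ
  refine ⟨n, a, l1, l2, l3.mono fun ω h => ?_⟩
  have h6 : dil 1 (firstCarpet (Γ ω)) = firstCarpet (Γ ω) := by simp [dil]
  exact h6 ▸ h.1

end Pool.Agent.P.MP_d66c6d_pr
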