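import Pool.Agent.P.MP_d66c6d_pr.V.Iface

/-! Step MAIN2 of the carpet project. -/

namespace Pool.Agent.P.MP_d66c6d_pr

open MeasureTheory ProbabilityTheory Set Metric Filter Topology
open scoped ENNReal

theorem p_MAIN2 (hFIN2 : S_FIN2) :
    S_MAIN2 := by
  intro ν hν Ω _ _ P Γ θ hΓ hθ
  choose! k hk hk' using cc_surj
  obtain ⟨h1, h2, h3⟩ := hFIN2 ν hν (fun c => θ (k c)) fun c hc =>
    ⟨Ω (k c), inferInstance, inferInstance, P (k c), Γ (k c), k c,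
      congrArg ENNReal.ofReal (hk' c hc), hΓ _ (hk c hc), hθ _ (hk c hc)⟩
  have e : ∀ κ ∈ Ioo (8 / 3 : ℝ) 4, θ κ = θ (k (cc κ)) := fun κ hκ => by
    rw [cc_strictMono.injOn (Ioo_subset_Icc_self (hk _ (cc_maps hκ))) (Ioo_subset_Icc_self hκ)
      (hk' _ (cc_maps hκ))]
  have hm : Ioo (8 / 3 : ℝ) 4 ∈ 𝓝[>] (8 / 3 : ℝ) := Ioo_mem_nhdsGT (by norm_num)
  refine ⟨(h1.comp (cc_cont.mono Ioo_subset_Icc_self) cc_maps).congr e, fun x hx y hy hxy => ?_,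
    Tendsto.congr' (mem_of_superset hm fun κ hκ => (e κ hκ).symm) (h3.comp ?_)⟩
  · rw [e x hx, e y hy]
    exact h2 (cc_maps hx) (cc_maps hy)
      (cc_strictMono (Ioo_subset_Icc_self hx) (Ioo_subset_Icc_self hy) hxy)
  · refine tendsto_nhdsWithin_iff.2 ⟨?_, mem_of_superset hm fun κ hκ => (cc_maps hκ).1⟩
    have := (cc_cont (8 / 3) ⟨le_rfl, by norm_num⟩).tendsto
    rw [cc_left] at this
    exact this.mono_left (nhdsWithin_le_of_mem (mem_of_superset hm Ioo_subset_Icc_self))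

end Pool.Agent.P.MP_d66c6d_pr
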