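import Pool.Agent.P.MP_d66c6d_pr.V.Iface
import Pool.Agent.P.MP_d66c6d_pr.M.Iface
import Pool.Agent.P.MP_d66c6d_pr.M.Rare

/-! Step RAREF of the carpet project. -/

namespace Pool.Agent.P.MP_d66c6d_pr

open MeasureTheory ProbabilityTheory Set Metric Filter Topology
open scoped ENNReal

theorem p_RAREF (hFAR : S_FAR) :
    S_RAREF := by
  classical
  refine ⟨fun ν κ c lam L hL ι I z r E p m F hr hd h => ?_, fun Ω _ P _ F hF => ?_⟩
  · induction I using Finset.induction_on with
    | empty => simp
    | insert a s ha ih =>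
      obtain ⟨b₁, b₂, -, b₃⟩ := h a (Finset.mem_insert_self _ _)
      rw [Finset.set_biInter_insert, Finset.card_insert_of_notMem ha, pow_succ', inter_assoc,
        mul_assoc]
      refine (b₃ m b₁ _ (hFAR.2.2.2.2.2.2.2.2.1 _ _ _ _
        (RareA.out_all hFAR s fun i hi => RareA.out hFAR (mul_pos hL hr)
        (hd i (Finset.mem_insert_of_mem hi) a (Finset.mem_insert_self _ _)
          fun e => ha (e ▸ hi)) (h i (Finset.mem_insert_of_mem hi)).2.2.1) b₂)).trans
        (mul_le_mul_right (ih (fun i hi j hj => hd i (Finset.mem_insert_of_mem hi) j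
          (Finset.mem_insert_of_mem hj)) fun i hi => h i (Finset.mem_insert_of_mem hi)) _)
  · refine ⟨(P F)⁻¹ • P.restrict F, fun A q => ?_⟩
    rw [Measure.smul_apply, Measure.restrict_apply' hF, smul_eq_mul]
    by_cases h0 : P F = 0
    · have : P (A ∩ F) = 0 := measure_mono_null inter_subset_right h0
      simp [this]
    · rw [ENNReal.inv_mul_le_iff h0 (measure_ne_top P F), mul_comm]

end Pool.Agent.P.MP_d66c6d_pr
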