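import Pool.Agent.P.MP_d66c6d_pr.V.Iface
import Pool.Agent.P.MP_d66c6d_pr.A.Iface
import Pool.Agent.P.MP_d66c6d_pr.A.Rat

/-! Step RATD of the carpet project. -/

namespace Pool.Agent.P.MP_d66c6d_pr

open MeasureTheory ProbabilityTheory Set Metric Filter Topology
open scoped ENNReal

namespace RatdA

open RatA

theorem dil_mul (s r : ℝ) (X : Set ℂ) : dil (s * r) X = dil s (dil r X) := by
  simp only [dil, image_image, Complex.ofReal_mul, mul_assoc]

theorem ok_dil {Y : Set ℂ} {d d' : ℂ → ℂ → ℝ} {s σ ε A η : ℝ} (hs : 0 < s)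
    (e : ∀ x ∈ Y, ∀ y ∈ Y, d' (s * x) (s * y) = σ * d x y)
    (h : Ok (dil s Y) d' ε A (σ * η)) : Ok Y d (ε / s) (A * σ / s ^ 2) η := by
  intro x hx y hy
  have h1 := h _ ⟨x, hx, rfl⟩ _ ⟨y, hy, rfl⟩
  simp only [e x hx y hy, mfpp_dil hs] at h1
  have h0 : ENNReal.ofReal (s ^ 2) ≠ 0 := by simpa using hs.ne'
  have k : ∀ t : ℝ, ENNReal.ofReal (A * (σ * d x y + σ * t))
      = ENNReal.ofReal (s ^ 2) * ENNReal.ofReal (A * σ / s ^ 2 * (d x y + t)) := fun t => by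
    rw [← ENNReal.ofReal_mul (by positivity)]
    congr 1
    field_simp
  have k' := k (-η)
  rw [mul_neg, ← sub_eq_add_neg, ← sub_eq_add_neg] at k'
  rw [k', k] at h1
  exact ⟨(ENNReal.mul_le_mul_iff_right h0 ENNReal.ofReal_ne_top).1 h1.1,
    (ENNReal.mul_le_mul_iff_right h0 ENNReal.ofReal_ne_top).1 h1.2⟩

theorem pick {p : ℕ → ℕ → Prop} {f : ℕ → ℕ → ℝ} (h0 : ∀ k n, 0 < f k n)
    (h : ∀ k, ∀ δ > (0 : ℝ), ∃ n, p k n ∧ f k n < δ) :
    ∃ n : ℕ → ℕ, (∀ k, p k (n k)) ∧ StrictAnti fun k => f k (n k) := by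
  choose! F hF using h
  refine ⟨fun k => Nat.rec (F 0 1) (fun k m => F (k + 1) (f k m)) k, fun k => ?_,
    strictAnti_nat_of_succ_lt fun k => (hF _ _ (h0 _ _)).2⟩
  cases k with
  | zero => exact (hF 0 1 one_pos).1
  | succ k => exact (hF _ _ (h0 _ _)).1

end RatdA

open RatA RatdA in
theorem p_RATD (hXG : S_XG) :
    S_RATD := by
  intro Ω _ P _ X θ ⟨e, a, D, e0, e1, ha, _, hmet, hr⟩ hX
  have hT : ∀ r > (0 : ℝ), ∀ η > (0 : ℝ), Tendsto (fun n => P {ω | ¬ Ok (dil r (X ω))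
      (D (dil r (X ω))) (e n) (a n) η}) atTop (𝓝 0) := fun r hr0 η hη => by
    simpa only [RatA.Ok, not_forall, exists_prop] using (hr r hr0).2 η hη
  refine ⟨e, fun n => a n / e n ^ 2, fun n => ⟨e0 n, div_pos (ha n).1 (pow_pos (e0 n) 2)⟩, e1,
    ?_, ?_, fun r hr0 s J hs hJ => ?_⟩
  · have h1 := (hT 1 one_pos (1 / 2) (by norm_num)).const_add (P {ω | (X ω).Nontrivial})
    rw [add_zero] at h1
    refine ne_of_gt (lt_of_lt_of_le (by simp) (ge_of_tendsto' h1 fun n => (ha n).2.2.trans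
      (le_trans (measure_mono_ae ?_) (measure_union_le _ _))))
    filter_upwards [hmet] with ω h4 hS
    by_contra hno
    have n1 : (X ω).Subsingleton := not_nontrivial_iff.1 fun k => hno (Or.inl k)
    have n3 : Ok _ _ _ _ _ := not_not.1 fun k => hno (Or.inr k)
    rw [dil_one] at n3
    have hA := (ha n).1
    have m : SS (X ω) _ ≤ ENNReal.ofReal (a n / 2) :=
      SS_le fun x hx y hy => (n3 x hx y hy).2.trans (ENNReal.ofReal_le_ofReal (by
        rw [(h4.eq_zero x hx y hy).2 (n1 hx hy)]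
        linarith))
    have m1 := (ENNReal.ofReal_le_ofReal_iff (by positivity)).1 (le_trans hS m)
    linarith
  · rw [ae_iff]
    refine le_antisymm (ge_of_tendsto' (hT 1 one_pos 1 one_pos) fun n =>
      measure_mono fun ω hω h => hω ?_) zero_le
    rw [dil_one] at h
    refine isPreconnected_of_forall_pair fun x hx y hy => ?_
    have m1 : mfpp (e n) (X ω) x y < ∞ := (h x hx y hy).2.trans_lt ENNReal.ofReal_lt_top
    simp only [mfpp, iInf_lt_iff] at m1
    obtain ⟨γ, hγ, -⟩ := m1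
    exact ⟨range γ, hγ, ⟨0, γ.source⟩, ⟨1, γ.target⟩, isPreconnected_range γ.continuous⟩
  · have hσ : ∀ k, 0 < s k ^ θ := fun k => Real.rpow_pos_of_pos (hs k) _
    obtain ⟨n, hn, hanti⟩ := pick (f := fun k n => e n / s k)
      (p := fun k n => n ∈ J k ∧ e n / s k < 1 / ((k : ℝ) + 1) ∧
        P {ω | ¬ Ok (dil (s k * r) (X ω)) (D (dil (s k * r) (X ω))) (e n) (a n)
          (s k ^ θ * (1 / ((k : ℝ) + 1)))} ≤ 2⁻¹ ^ k)
      (fun k n => div_pos (e0 n) (hs k)) fun k δ hδ => by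
        have h1 := ENNReal.tendsto_nhds_zero.1 (hT _ (mul_pos (hs k) hr0)
          (s k ^ θ * (1 / ((k : ℝ) + 1))) (mul_pos (hσ k) (by positivity))) (2⁻¹ ^ k)
          (ENNReal.pow_pos (by simp) k)
        have h2 := e1.div_const (s k)
        rw [zero_div] at h2
        obtain ⟨n, k1, k2, k3, k4⟩ := ((hJ k).and_eventually (h1.and ((h2.eventually
          (gt_mem_nhds hδ)).and (h2.eventually
            (gt_mem_nhds (by positivity : (0 : ℝ) < 1 / ((k : ℝ) + 1))))))).exists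
        exact ⟨n, ⟨k1, k4, k2⟩, k3⟩
    have hx0 : ∀ k, 0 < e (n k) / s k := fun k => div_pos (e0 _) (hs k)
    obtain ⟨a1, ha1⟩ : ∃ a1 : ℝ → ℝ, ∀ k, a1 (e (n k) / s k) = a (n k) * s k ^ θ / s k ^ 2 :=
      ⟨Function.extend (fun k => e (n k) / s k) (fun k => a (n k) * s k ^ θ / s k ^ 2) 1,
        fun k => hanti.injective.extend_apply _ _ k⟩
    have hpos : ∀ k, 0 < a1 (e (n k) / s k) := fun k => by
      rw [ha1]
      exact div_pos (mul_pos (ha _).1 (hσ k)) (pow_pos (hs k) 2)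
    refine ⟨n, fun y => a1 y / y ^ 2, fun k => ⟨(hn k).1, ?_⟩,
      squeeze_zero (fun k => (hx0 k).le) (fun k => (hn k).2.1.le)
        tendsto_one_div_add_atTop_nhds_zero_nat, ?_⟩
    · have := (hs k).ne'
      simp only [ha1]
      field_simp
    have h2 := ae_eventually_notMem (μ := P)
      (ne_top_of_le_ne_top (by simp) (ENNReal.tsum_le_tsum fun k => (hn k).2.2))
    filter_upwards [hX, hmet, (hr r hr0).1, h2,
      ae_all_iff.2 fun k => (hr _ (mul_pos (hs k) hr0)).1] with ω k1 k2 k3 k4 k5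
    refine hXG _ (D (dil r (X ω))) a1 _ (k1.image (by fun_prop))
      (compat_dil k2 hr0 (Real.rpow_pos_of_pos hr0 _) k3) (fun j => ⟨hx0 j, hpos j⟩)
      fun η hη => ?_
    obtain ⟨j₀, hj⟩ := eventually_atTop.1 (k4.and
      (tendsto_one_div_add_atTop_nhds_zero_nat.eventually (gt_mem_nhds hη)))
    refine ⟨j₀, fun j k => Ok.mono ?_ (hpos j) (hj j k).2.le⟩
    have m : Ok _ _ _ _ _ := not_not.1 (hj j k).1
    rw [ha1]
    refine ok_dil (d' := D (dil (s j * r) (X ω))) (hs j) ?_ (dil_mul (s j) r (X ω) ▸ m)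
    rintro _ ⟨x, hx, rfl⟩ _ ⟨y, hy, rfl⟩
    have := k5 j x hx y hy
    rw [Complex.ofReal_mul, mul_assoc, mul_assoc, Real.mul_rpow (hs j).le hr0.le] at this
    simp only [this, k3 x hx y hy, mul_assoc]

end Pool.Agent.P.MP_d66c6d_pr
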