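import Pool.Agent.P.MP_d66c6d_pr.V.Iface
import Pool.Agent.P.MP_d66c6d_pr.A.Iface

/-! Step RATS of the carpet project. -/

namespace Pool.Agent.P.MP_d66c6d_pr

open MeasureTheory ProbabilityTheory Set Metric Filter Topology
open scoped ENNReal

namespace RatsA

/-- A nontrivial preconnected set has close distinct points. -/
theorem close {X : Set ℂ} (h1 : X.Nontrivial) (h2 : IsPreconnected X) {s : ℝ} (hs : 0 < s) :
    ∃ x ∈ X, ∃ y ∈ X, 0 < dist x y ∧ dist x y < s := by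
  obtain ⟨x, hx, y, hy, hne⟩ := h1
  have hd : 0 < dist x y := dist_pos.2 hne
  have hc : ContinuousOn (fun z : ℂ => dist x z) X := (continuous_const.dist continuous_id).continuousOn
  have hm : min (s / 2) (dist x y) ∈ Icc (dist x x) (dist x y) :=
    ⟨by rw [dist_self]; exact (lt_min (half_pos hs) hd).le, min_le_right _ _⟩
  obtain ⟨z, hz, hz'⟩ := h2.intermediate_value hx hy hc hm
  refine ⟨x, hx, z, hz, ?_, ?_⟩
  · rw [show dist x z = min (s / 2) (dist x y) from hz']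
    exact lt_min (half_pos hs) hd
  · rw [show dist x z = min (s / 2) (dist x y) from hz']
    exact (min_le_left _ _).trans_lt (half_lt_self hs)

end RatsA

theorem p_RATS (hCOV : S_COV) :
    S_RATS := by
  intro Ω _ P X θ e b hpos he hnt hpc hD
  refine ⟨hpos, he, ?_⟩
  by_contra hcon
  have h1 : ∀ k : ℕ, ∃ s > (0 : ℝ), ∃ᶠ n in atTop,
      b n * s ^ θ * (e n / s) < 1 / ((k : ℝ) + 1) := by
    intro k
    by_contra hk
    refine hcon ⟨1 / ((k : ℝ) + 1), Nat.one_div_pos_of_nat, fun s hs => ?_⟩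
    by_contra h3
    refine hk ⟨s, hs, ?_⟩
    rw [Filter.not_eventually] at h3
    exact h3.mono fun n hn => lt_of_not_ge hn
  choose s hs hfr using h1
  obtain ⟨n, a, hn, -, hXU⟩ := hD s
    (fun k => {m | b m * s k ^ θ * (e m / s k) < 1 / ((k : ℝ) + 1)}) hs hfr
  obtain ⟨ω, hω1, hω2, hω3⟩ : ∃ ω, (X ω).Nontrivial ∧ IsPreconnected (X ω) ∧
      XU (X ω) a fun k => e (n k) / s k := by
    by_contra h4
    apply hnt
    refine measure_mono_null (fun ω hω => ?_) (ae_iff.1 (hpc.and hXU))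
    exact fun h5 => h4 ⟨ω, hω, h5.1, h5.2⟩
  obtain ⟨r, hr, C, j₀, hj⟩ := hω3 1 one_pos
  obtain ⟨x, hx, y, hy, hd0, hd1⟩ := RatsA.close hω1 hω2 hr
  have key : ∀ j ≥ j₀, dist x y ≤ 2 * |C| * (1 / ((j : ℝ) + 1)) := by
    intro j hjj
    obtain ⟨γ, g0, g1, -, hcov⟩ := hj j hjj x hx y hy hd1
    have hε : 0 < e (n j) / s j := div_pos (hpos _).1 (hs j)
    have h6 := (hCOV _ _ (range γ) hε).2.2.2.2.2.1 (isPreconnected_range γ.continuous) hcov
      x ⟨0, g0⟩ y ⟨1, g1⟩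
    rw [(hn j).2] at h6
    have h7 : b (n j) * s j ^ θ * (e (n j) / s j) < 1 / ((j : ℝ) + 1) := (hn j).1
    have h8 : 0 < b (n j) * s j ^ θ * (e (n j) / s j) :=
      mul_pos (mul_pos (hpos _).2 (Real.rpow_pos_of_pos (hs j) θ)) hε
    calc dist x y ≤ 2 * C * (b (n j) * s j ^ θ * (e (n j) / s j)) := by linarith
      _ ≤ 2 * |C| * (b (n j) * s j ^ θ * (e (n j) / s j)) :=
          mul_le_mul_of_nonneg_right (by linarith [le_abs_self C]) h8.le
      _ ≤ 2 * |C| * (1 / ((j : ℝ) + 1)) :=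
          mul_le_mul_of_nonneg_left h7.le (by positivity)
  have hlim : Tendsto (fun j : ℕ => 2 * |C| * (1 / ((j : ℝ) + 1))) atTop (𝓝 (2 * |C| * 0)) :=
    tendsto_one_div_add_atTop_nhds_zero_nat.const_mul _
  rw [mul_zero] at hlim
  exact absurd (ge_of_tendsto hlim (eventually_atTop.2 ⟨j₀, key⟩)) (not_le.2 hd0)

end Pool.Agent.P.MP_d66c6d_pr
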