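import Pool.Agent.P.MP_d66c6d_pr.V.Iface
import Pool.Agent.P.MP_d66c6d_pr.M.Iface
import Pool.Agent.P.MP_d66c6d_pr.D.Iface
import Pool.Agent.P.MP_d66c6d_pr.M.Ref

/-! Step REF1 of the carpet project. -/

namespace Pool.Agent.P.MP_d66c6d_pr

open MeasureTheory ProbabilityTheory Set Metric Filter Topology
open scoped ENNReal

namespace Ref1A

theorem core (hGAW : S_GAW) (hRAREF : S_RAREF) (hRTR : S_RTR) (hFAR : S_FAR) (hGRID : S_GRID)
    (hZREP : S_ZREP) (hBLK : S_BLK) (ν : Measure Br) (hν : IsBridge ν) (L A : ℝ) (hL : 10 ≤ L) :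
    ∃ C > (0 : ℝ), ∃ r₀ > (0 : ℝ), 100 * (L * r₀) ≤ 1 ∧ ∀ κ c lam : ℝ, ∀ r ∈ Ioc 0 r₀,
      ∀ (ε s : ℝ) (m : Measure KC) (F : Set (Cfg KC)), 0 ≤ s → (∀ t : ℝ, 1 ≤ t →
        Rare ν κ c lam L 0 1 (ZB 0 1 (ε / r) (t * s)) (ENNReal.ofReal (A / t ^ 8))) →
      MeasurableSet F →
      (∀ z ∈ closedBall (0 : ℂ) 3, Adm ν κ c lam z (L * r) m ∧ OutE z (L * r) F) →
      PP m ({S | ∃ B, Skel (sets S) r B ∧ ¬ Nle (sets S) 0 1 ε (C * s * B.card)} ∩ F) ≤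
        ENNReal.ofReal (C * r) * PP m F := by
  obtain ⟨C, hC, h₀, hh₀, hG⟩ := hGAW ⌈40 * L⌉₊ A
  have hL0 : 0 < L := by linarith
  have hm : 100 * (L * min h₀ (1 / (100 * L))) ≤ 1 := by
    have := (le_div_iff₀ (by positivity)).1 (min_le_right h₀ (1 / (100 * L)))
    linarith
  refine ⟨3 * C, by positivity, min h₀ (1 / (100 * L)), by positivity, hm, ?_⟩
  rintro κ c lam r ⟨hr, hr0⟩ ε s m F hs hT hF hA
  obtain ⟨Q, hQ⟩ := hRAREF.2 (Cfg KC) (PP m) F hF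
  have hh : 0 < r / 2 := half_pos hr
  have hr1 : 100 * (L * r) ≤ 1 := by
    have := mul_le_mul_of_nonneg_left hr0 hL0.le
    linarith
  have hLr : 10 * r ≤ L * r := mul_le_mul_of_nonneg_right hL hr.le
  have key := hG (r / 2) ⟨hh, by linarith [hr0.trans (min_le_left _ _)]⟩ (Cfg KC) Q
    (fun b t => ZB (gp (r / 2) b) r ε (t * s) ∩ NoCE (gp (r / 2) b) (L * r))
    fun t ht B _ hS hn => by
      refine (hQ _ _).2 (hRAREF.1 ν κ c lam L hL0 (ℤ × ℤ) B (gp (r / 2)) r _ _ m F hr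
        (fun i hi j hj hij => ?_) fun i hi =>
          ⟨(hA _ (mem_closedBall_zero_iff.2 (hn i hi))).1,
            (hA _ (mem_closedBall_zero_iff.2 (hn i hi))).2, ?_, ?_⟩)
      · refine le_trans ?_ (hGRID.2.2.1 (r / 2) i j hh).1
        have h1 := mul_le_mul_of_nonneg_left ((Nat.le_ceil _).trans (hS i hi j hj hij)) hh.le
        linarith
      · refine hFAR.2.2.2.2.1 _ _ _ _ _ ?_ (hFAR.2.2.1 _ r _ hr (hFAR.1 _ r ε (t * s) hr).1)
        rw [dist_self]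
        linarith
      · have := (hRTR ν hν κ c lam L (gp (r / 2) i) r _ hr).1 _ _ (hT t ht)
        rwa [div_mul_cancel₀ _ hr.ne'] at this
  refine (hQ _ _).1 (le_trans (measure_mono ?_)
    (key.trans (ENNReal.ofReal_le_ofReal (by nlinarith))))
  rintro S ⟨B, hB, hN⟩
  refine ⟨B, (hGRID.2.2.2.2.2.1 _ r B hr (by linarith) hB).1, fun u hu => not_le.1 fun hc => hN ?_⟩
  intro ξ hξ
  obtain ⟨γ, g1, g2, g3⟩ := RefA.det (ε := ε) hGRID hZREP hBLK (cpt_sets S) hL hr hr1 hB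
    (fun b => u b * s) (fun b hb hn => by_contra fun hz => hu b hb ⟨hz, hn⟩) ξ hξ
  refine ⟨γ, g1, g2, g3.mono le_rfl ?_ Subset.rfl⟩
  rw [← Finset.sum_mul]
  nlinarith [mul_le_mul_of_nonneg_right hc hs]

end Ref1A

theorem p_REF1 (hGAW : S_GAW) (hRAREF : S_RAREF) (hRTR : S_RTR) (hFAR : S_FAR) (hGRID : S_GRID) (hZREP : S_ZREP) (hBLK : S_BLK) (hMDL : S_MDL) :
    S_REF1 := by
  intro ν hν L A hL
  obtain ⟨C, hC, r₀, hr₀, h1, H⟩ := Ref1A.core hGAW hRAREF hRTR hFAR hGRID hZREP hBLK ν hν L A hL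
  refine ⟨C, hC, r₀, hr₀, fun κ c lam hlam r hr ε s hs hT => ⟨fun m hm F hF => ?_, fun hκ hc => ?_⟩⟩
  all_goals
    have hL0 : 0 < L := by linarith
    have h2 : 100 * (L * r) ≤ 1 := by
      have := mul_le_mul_of_nonneg_left hr.2 hL0.le
      linarith
    have h3 : 10 * r ≤ L * r := mul_le_mul_of_nonneg_right hL hr.1.le
  · refine le_trans (measure_mono (inter_subset_inter_left _ inter_subset_left))
      (H κ c lam r hr ε s m F hs hT hF.1 fun z hz => ?_)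
    have hd : dist z 0 + 10 * (L * r) ≤ 10 * (L * 1) := by
      rw [mem_closedBall] at hz
      linarith
    exact ⟨hFAR.2.2.2.2.2.2.2.2.2.2 ν κ c lam 0 z _ _ m hlam hd hm,
      hFAR.2.2.2.2.2.2.2.2.2.1 0 z _ _ F hd hF⟩
  · have := H κ c lam r hr ε s _ univ hs hT MeasurableSet.univ fun z hz =>
      ⟨(hMDL ν hν κ L c hκ hL hc).1 lam r (by linarith) z hz, hFAR.2.2.2.2.2.2.2.1 z _⟩
    rwa [inter_univ, measure_univ, mul_one] at this

end Pool.Agent.P.MP_d66c6d_pr
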