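import Pool.Agent.P.MP_d66c6d_pr.V.Iface
import Pool.Agent.P.MP_d66c6d_pr.M.Iface
import Pool.Agent.P.MP_d66c6d_pr.A.Iface
import Pool.Agent.P.MP_d66c6d_pr.D.Iface
import Pool.Agent.P.MP_d66c6d_pr.M.Right

/-! Step RIGHT2 of the carpet project. -/

namespace Pool.Agent.P.MP_d66c6d_pr

open MeasureTheory ProbabilityTheory Set Metric Filter Topology
open scoped ENNReal

theorem p_RIGHT2 (hREF : S_REF) (hBASE : S_BASE) (hMDL : S_MDL) (hEXP : S_EXP) (hGRID : S_GRID) (hDMON : S_DMON) (hCOV : S_COV) :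
    S_RIGHT2 := by
  intro ν hν κ L Θ hκ hL10 hFULL c hc d hd
  obtain ⟨a, ha⟩ := hFULL c hc
  obtain ⟨A, ε₁, e1, hT⟩ := ha.tail 1 one_pos 8
  obtain ⟨C, hC, r₀, hr₀, hR⟩ := hREF ν hν L A hL10
  obtain ⟨C₁, hC₁, ε₀, e0, hX⟩ := hEXP a _ ha.nrm (d / 2) (half_pos hd)
  have ev : ∀ᶠ th in 𝓝[>] (0 : ℝ), th ∈ Ioo 0 ε₁ ∧ th ∈ Ioo 0 ε₀ ∧ th ∈ Ioo 0 (1 / 2) ∧
      49 * C * C₁ ≤ th ^ (-(d / 2)) := by
    filter_upwards [Ioo_mem_nhdsGT e1, Ioo_mem_nhdsGT e0, Ioo_mem_nhdsGT one_half_pos,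
      (tendsto_rpow_neg_nhdsGT_zero (neg_neg_of_pos (half_pos hd))).eventually_ge_atTop
        (49 * C * C₁)] with th h1 h2 h3 h4 using ⟨h1, h2, h3, h4⟩
  obtain ⟨th, t1, t2, t3, t4⟩ := ev.exists
  have t0 := t3.1
  have a0 := ha.nrm.1 th t0
  have hK : 49 * (C * a th) ≤ th ^ (-(Θ c + d)) := by
    calc 49 * (C * a th) ≤ 49 * (C * (C₁ * th ^ (-(Θ c + d / 2)))) := by gcongr; exact (hX th t2).2
      _ = 49 * C * C₁ * th ^ (-(Θ c + d / 2)) := by ring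
      _ ≤ th ^ (-(d / 2)) * th ^ (-(Θ c + d / 2)) := by gcongr
      _ = _ := by rw [← Real.rpow_add t0]; congr 1; ring
  obtain ⟨c', hc', hT'⟩ := hT th t1
  filter_upwards [Ioo_mem_nhdsGT hc', Ioo_mem_nhdsGT hc.2] with e e2 e3
  have e4 : e ∈ Ioo (0 : ℝ) (1 / 2) := ⟨hc.1.trans e2.1, e3.2⟩
  obtain ⟨b, hb⟩ := hFULL e e4
  have hstep : ∀ r ∈ Ioc 0 (min r₀ (1 / 2)), ∀ t, soup ν e (ball 0 (10 * L)) (NE 0 1 r t) ≤
      soup ν e (ball 0 (10 * L)) (NE 0 1 (th * r) (49 * (C * a th) * t)) +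
        ENNReal.ofReal (C * r) := fun r hr t =>
    (measure_mono (RightA.step hGRID hDMON hr.1 (by positivity))).trans
      ((measure_union_le _ _).trans (add_le_add_right (hR κ e 1 one_pos r
        ⟨hr.1, hr.2.trans (min_le_left _ _)⟩ (th * r) (a th) _ a0.le
        (by rw [mul_div_cancel_right₀ _ hr.1.ne']; exact hT' e ⟨e2.1.le, e2.2.le⟩)
        ((hMDL ν hν κ L e hκ.le hL10 e4.1.le).1 1 r (hr.2.trans (min_le_right _ _)))) _))
  have p0 := ENNReal.half_pos (hBASE ν hν e (10 * L) hb.sub)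
  have ev2 : ∀ᶠ r in 𝓝[>] (0 : ℝ), ENNReal.ofReal (2 * C * r) <
      soup ν e (ball 0 (10 * L)) (NE 0 1 2 1) / 2 := by
    refine Eventually.filter_mono nhdsWithin_le_nhds (Tendsto.eventually_lt_const p0 ?_)
    exact (ENNReal.continuous_ofReal.comp (continuous_const.mul continuous_id)).tendsto' 0 0
      (by simp)
  obtain ⟨r, r1, r2⟩ := (ev2.and (Ioc_mem_nhdsGT (lt_min hr₀ one_half_pos))).exists
  have r0 := r2.1
  have r3 := r2.2.trans (min_le_right _ _)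
  have hst : NE 0 1 2 1 ⊆ NE 0 1 r (26 * (2 / r) ^ 2 * 1) := fun S hS ξ hξ => by
    obtain ⟨γ, g1, g2, g3⟩ := hS ξ hξ
    exact ⟨γ, g1, g2, (hCOV r 1 _ r0).2.2.1 _ (by rw [one_le_div r0]; linarith)
      (by rwa [div_mul_cancel₀ _ r0.ne'])⟩
  obtain ⟨τ, hτ, ε₂, e5, hL⟩ := hb.low 1 one_pos _ p0.ne'
  refine le_of_forall_pos_le_add fun d' hd' => sub_le_iff_le_add.1 ?_
  obtain ⟨C₂, hC₂, ε₃, e6, hY⟩ := hEXP b _ hb.nrm d' hd'
  refine RightA.num (M := C₂ / τ * (26 * (2 / r) ^ 2 * 1)) t0 (by linarith [t3.2]) r0 ?_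
  have h1 : Tendsto (fun j : ℕ => th ^ j * r) atTop (𝓝 0) := by
    simpa using (tendsto_pow_atTop_nhds_zero_of_lt_one t0.le (by linarith [t3.2])).mul_const r
  filter_upwards [h1.eventually_lt_const e5, h1.eventually_lt_const e6] with j j1 j2
  have j0 : 0 < th ^ j * r := by positivity
  have h2 : τ * b (th ^ j * r) ≤ (49 * (C * a th)) ^ j * (26 * (2 / r) ^ 2 * 1) := by
    by_contra hn
    have h3 := (measure_mono hst).trans (RightA.iter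
      (u := fun r t => soup ν e (ball 0 (10 * L)) (NE 0 1 r t)) t0 t3.2.le hC hstep r2 _ j)
    have h4 := (measure_mono fun S hS => hDMON.2.2.2.2.1 _ _ 0 1 _ _ _ _ Subset.rfl le_rfl
      (not_le.1 hn).le hS).trans (hL _ ⟨j0, j1⟩).2
    have h5 := (ENNReal.ofReal_le_ofReal (show 2 * C * (r - th ^ j * r) ≤ 2 * C * r by
      gcongr; linarith)).trans_lt r1
    have h6 := h3.trans_lt (ENNReal.add_lt_add_of_le_of_lt (measure_ne_top _ _) h4 h5)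
    rw [ENNReal.add_halves] at h6
    exact lt_irrefl _ h6
  calc (th ^ j * r) ^ (-(Θ e - d')) ≤ C₂ * b (th ^ j * r) := (hY _ ⟨j0, j2⟩).1
    _ = C₂ / τ * (τ * b (th ^ j * r)) := by field_simp
    _ ≤ C₂ / τ * ((th ^ (-(Θ c + d))) ^ j * (26 * (2 / r) ^ 2 * 1)) :=
      mul_le_mul_of_nonneg_left (h2.trans (by gcongr)) (by positivity)
    _ = _ := by ring

end Pool.Agent.P.MP_d66c6d_pr
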