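import Pool.Agent.P.MP_d66c6d_pr.V.Iface
import Pool.Agent.P.MP_d66c6d_pr.M.Iface
import Pool.Agent.P.MP_d66c6d_pr.D.Iface

/-! Step RMANY of the carpet project. -/

namespace Pool.Agent.P.MP_d66c6d_pr

open MeasureTheory ProbabilityTheory Set Metric Filter Topology
open scoped ENNReal

theorem p_RMANY (hFEW : S_FEW) (hRAREF : S_RAREF) (hFAR : S_FAR) (hGRID : S_GRID) :
    S_RMANY := by
  intro L hL
  obtain ⟨p, hp, C, h₀, hh₀, hG⟩ := hFEW ⌈40 * L⌉₊
  have hL0 : 0 < L := by linarith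
  refine ⟨p, hp, C / 2, min (2 * h₀) (1 / 2), by positivity, ?_⟩
  rintro ν κ c lam hlam r ⟨hr, hr0⟩ E hE m hm F hF
  have hh : 0 < r / 2 := half_pos hr
  have hr1 : r ≤ 1 / 2 := hr0.trans (min_le_right _ _)
  have hr2 : r ≤ 2 * h₀ := hr0.trans (min_le_left _ _)
  have hLr : L * r ≤ L * (1 / 2) := mul_le_mul_of_nonneg_left hr1 hL0.le
  obtain ⟨Q, hQ⟩ := hRAREF.2 (Cfg KC) (PP m) F hF.1
  have key := hG (r / 2) ⟨hh, by linarith⟩ (Cfg KC) Q
    (fun b => E b ∩ NoCE (gp (r / 2) b) (L * r)) fun B _ hS hn => by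
      refine (hQ _ _).2 (hRAREF.1 ν κ c lam L hL0 (ℤ × ℤ) B (gp (r / 2)) r E p m F hr
        (fun i hi j hj hij => ?_) fun i hi => ?_)
      · refine le_trans ?_ (hGRID.2.2.1 (r / 2) i j hh).1
        have h1 := mul_le_mul_of_nonneg_left ((Nat.le_ceil _).trans (hS i hi j hj hij)) hh.le
        linarith
      · have hd : dist (gp (r / 2) i) 0 + 10 * (L * r) ≤ 10 * (L * 1) := by
          rw [dist_zero_right]
          linarith [hn i hi]
        exact ⟨hFAR.2.2.2.2.2.2.2.2.2.2 ν κ c lam 0 _ _ _ m hlam hd hm,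
          hFAR.2.2.2.2.2.2.2.2.2.1 0 _ _ _ F hd hF, (hE i).1, (hE i).2⟩
  have e : C / 2 * r = C * (r / 2) := by ring
  rw [e]
  exact le_trans (measure_mono (inter_subset_inter_left _ inter_subset_left)) ((hQ _ _).1 key)

end Pool.Agent.P.MP_d66c6d_pr
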