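import Pool.Agent.P.MP_d66c6d_pr.V.Iface
import Pool.Agent.P.MP_d66c6d_pr.R.Iface
import Pool.Agent.P.MP_d66c6d_pr.L.Iface
import Pool.Agent.P.MP_d66c6d_pr.F.Iface
import Pool.Agent.P.MP_d66c6d_pr.B.Iface
import Pool.Agent.P.MP_d66c6d_pr.R.Rnul

/-! Step RNUL1 of the carpet project. -/

namespace Pool.Agent.P.MP_d66c6d_pr

open MeasureTheory ProbabilityTheory Set Metric Filter Topology
open scoped ENNReal

open RnulA in
theorem p_RNUL1 (hRCORE : S_RCORE) (hRONE : S_RONE) (hRMUL : S_RMUL) (hRINS : S_RINS) (hRROOT : S_RROOT) (hSUB1 : S_SUB1) (hLVA : S_LVA) (hPPF : S_PPF) (hPPO : S_PPO) (hMUK : S_MUK) (hREV : S_REV) :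
    S_RNUL1 := by
  intro ν hν L β hβ c₀ c₂ h0 h02 h21 hL R hR n G hG hG0 E hE hEG
  have := (hMUK ν hν).2.1
  have := hβ.fin
  have hD : 3 ≤ 10 * L := by linarith [hβ.ten]
  generalize 10 * L = D at hD hEG ⊢
  have hc : c₀ ∈ Icc (0 : ℝ) 1 := ⟨h0.le, h02.le.trans h21⟩
  have := (hLVA ν hν c₀ hc (ball 0 R) isOpen_ball).1
  obtain ⟨l1, -, l3, l4, l5⟩ := hLVA ν hν c₀ hc (ball 0 (max R D)) isOpen_ball
  have hA : MeasurableSet (inK (ball 0 3) ∩ bigK (1 / 25)) :=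
    (isOpen_inK isOpen_ball).measurableSet.inter (measurableSet_bigK _)
  obtain ⟨r1, r2⟩ := hRINS _ (muL2 c₀ ((muK ν).restrict (inK (ball 0 R)))) inferInstance
  obtain ⟨G', g1, g2, g3⟩ := r1 _ _ (measurable_fst hA) (muL2_fin _ _ hA (ne_top_of_le_ne_top
    (fin_big hMUK hν (by norm_num) (by norm_num) Subset.rfl) (Measure.restrict_apply_le _ _)))
    inferInstance (muL2_ac h0 (muK ν) hA fun K hK => Subset.trans hK.1 (ball_subset_ball hR))
    G hG hG0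
  have hf : IsFiniteMeasure ((muK ν).restrict (Ac D)) :=
    isFiniteMeasure_restrict.2 (fin_big hMUK hν (by linarith) (by norm_num) (Ac_sub D))
  obtain ⟨ϖ, w1, w2, w3, w4⟩ := hRROOT ν hν (7 / 5) (ENNReal.ofReal c₀ • (muK ν).restrict (Ac D))
    (Measure.smul_finite _ ENNReal.ofReal_ne_top) (Measure.smul_absolutelyContinuous.trans
      (Measure.restrict_mono_set _ fun K hK => hK.2).absolutelyContinuous)
  have ht : Measurable fun p : TP => trB p.2 := by fun_prop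
  have hZ : MeasurableSet (Ac D ×ˢ Iic c₀) := (meas_Ac D).prod measurableSet_Iic
  set μ := muL2 c₀ ((muK ν).restrict (inK (ball 0 (max R D)))) with hμ
  have hsub : Ac D ⊆ inK (ball 0 (max R D)) := fun K hK =>
    Subset.trans hK.1.1 (ball_subset_ball (le_max_right _ _))
  have e1 : μ.restrict (Ac D ×ˢ Iic c₀) = ϖ.map fun p => (trB p.2, c₀) := by
    rw [hμ, muL2_res _ _ (meas_Ac D), Measure.restrict_restrict_of_subset hsub, ← w3,
      Measure.map_map (meas_j c₀) ht]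
    rfl
  have e2 : μ = μ.restrict (Ac D ×ˢ Iic c₀)ᶜ + ϖ.map fun p => (trB p.2, c₀) := by
    rw [← e1, Measure.restrict_compl_add_restrict hZ]
  have hac : PP (μ.restrict (Ac D ×ˢ Iic c₀)ᶜ) ≪ PP μ := (hRINS _ μ inferInstance).2 _ hZ.compl (by
    rw [compl_compl, ← Measure.restrict_apply_univ, e1]
    exact measure_ne_top _ _)
  have a1 := (l3 c₂ ⟨h02.le, h21⟩).quasiMeasurePreserving.ae
    ((hSUB1 ν hν c₂ hL).1.1 (max R D))
  have a2 := (hPPO _ μ inferInstance).2.2.2.2.2.1 _ ((muL2_qmp c₀ _).ae (ae_restrict_of_ae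
    ((hMUK ν hν).2.2.2.2.2.2.1 (fun K => ∃ γ : Br, range γ = (K : Set ℂ))
      (ae_of_all _ fun l => ⟨_, rfl⟩))))
  have a3 : ∀ᵐ S ∂PP μ, ∀ m : ℕ, S.res {p | Keep R (1 / ((m : ℝ) + 1)) p.1} ∉ G' := by
    refine ae_all_iff.2 fun m => ?_
    have hK := meas_keep R (1 / ((m : ℝ) + 1))
    have b1 := r2 _ (measurable_fst hK) (muL2_fin _ _ hK.compl (by
      rw [Measure.restrict_apply hK.compl]
      refine fin_big hMUK hν (R := R) (s := 1 / ((m : ℝ) + 1)) (by linarith) (by positivity)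
        fun K h => ⟨h.2, not_lt.1 fun h' => h.1 ⟨h.2, Or.inl h'⟩⟩)) g3
    rw [← (hPPO _ _ inferInstance).2.1 _ (measurable_fst hK)] at b1
    have b2 := ae_of_ae_map (measurable_res (measurable_fst hK)).aemeasurable
      (measure_eq_zero_iff_ae_notMem.1 b1)
    filter_upwards [(l5 (ball 0 R) isOpen_ball
      (ball_subset_ball (le_max_left _ _))).quasiMeasurePreserving.ae b2] with S hS
    refine fun h => hS (Eq.mp (congrArg (· ∈ G') (Cfg.ext ?_)) h)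
    ext p
    exact ⟨fun h => ⟨⟨h.1, h.2.1⟩, h.2⟩, fun h => ⟨h.1.1, h.2⟩⟩
  have a4 := (hPPO _ (μ.restrict (Ac D ×ˢ Iic c₀)ᶜ) inferInstance).2.2.2.2.2.1 _
    (ae_restrict_mem hZ.compl)
  have hP : MeasurableSet {S | (Measure.pi fun _ : Fin n => β) (Prod.mk S ⁻¹' E) = 0} :=
    measurable_measure_prodMk_left hE (measurableSet_singleton 0)
  refine (Measure.measure_prod_null hE).2 ?_
  change ∀ᵐ S ∂PP μ, (Measure.pi fun _ : Fin n => β) (Prod.mk S ⁻¹' E) = 0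
  rw [e2]
  refine ae_add hPPO _ _ hP ?_
  filter_upwards [hac.ae_le a1, hac.ae_le a2, hac.ae_le a3, hac.ae_le l4, a4]
    with S s1 s2 s3 s4 s5
  refine ae_fin hPPF hPPO ϖ (by fun_prop)
    ((Measurable.cfgUnion measurable_const measurable_id) hP) fun k => ?_
  let ϖs : Fin k ⊕ Fin n → Measure TP := Sum.elim (fun _ => ϖ) fun _ => β
  have f1 : ∀ j, IsFiniteMeasure (ϖs j) := by
    rintro (j | j)
    exacts [w1, hβ.fin]
  have f2 : ∀ j, GdP ν (inK (ball 0 3) ∩ bigK (1 / 25)) (ϖs j) := by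
    rintro (j | j)
    · exact hRONE ν hν _ hA ϖ (w2.trans (Measure.le_add_left le_rfl).absolutelyContinuous)
    · exact hRONE ν hν _ hA β (hβ.ac.add_right _)
  have f3 : ∀ j, ∀ᵐ p ∂ϖs j, 0 < p.1 ∧ p.2 0 ∉ closedBall (0 : ℂ) (7 / 5) ∧
      p.2 1 ∉ closedBall (0 : ℂ) (7 / 5) := by
    rintro (j | j)
    · exact w4
    · filter_upwards [hβ.ac.ae_le (gr_pos hREV hν), hβ.ends] with p h1 h2
      exact ⟨h1, fun h => h2.1 (closedBall_subset_closedBall (by norm_num) h),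
        fun h => h2.2 (closedBall_subset_closedBall (by norm_num) h)⟩
  have f4 : ∀ᵐ p ∂ϖ, trB p.2 ∈ Ac D := ae_of_ae_map ht.aemeasurable (p := fun K => K ∈ Ac D) (by
    rw [w3]
    exact Measure.ae_smul_measure (ae_restrict_mem (meas_Ac D)) _)
  have key : ∀ᵐ η ∂Measure.pi ϖs,
      (S ∪ (Cfg.rng fun i => η (.inl i)).map (fun p => (trB p.2, c₀)), fun i => η (.inr i)) ∉ E := by
    filter_upwards [ae_all_iff.2 fun m : ℕ => hRMUL ν hν _ hA _ ϖs f1 f2 _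
        (insC_map (meas_j c₀) g2 (S.res {p | Keep R (1 / ((m : ℝ) + 1)) p.1})) ∅
        (fun h => s3 m (Eq.mp (congrArg (· ∈ G') (Cfg.ext (by simp))) h)),
      ae_all_iff.2 fun j => (Measure.quasiMeasurePreserving_eval ϖs j).ae (f3 j),
      ae_all_iff.2 fun i : Fin k => (Measure.quasiMeasurePreserving_eval ϖs (.inl i)).ae f4]
      with η t1 t2 t3 hη
    obtain ⟨c', hc', J, 𝒯, u1, u2⟩ := hRCORE ν hν R D c₀ c₂ S G _ η hR hD h02 s1.1 s1.2 s2
      (fin_of_LF s4.1 fun p hp => (s4.2 p hp).1)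
      (fun p hp h1 h2 h3 => not_not.1 fun h4 => s5 p hp ⟨⟨⟨h2, h3⟩, h4⟩, h1⟩) t2 fun m F hF => by
        obtain ⟨T, v1, v2⟩ := t1 m F hF
        rw [Cfg.empty_union] at v2
        exact ⟨T, v1, fun h => v2 (g1 h)⟩
    obtain ⟨i, hi⟩ := hEG _ hη c' hc' J 𝒯 fun c hc => by
      rw [sets_loc hc.1 S η fun i => (t3 i).1.1]
      exact u2 c hc
    exact u1 i hi
  filter_upwards [Measure.ae_ae_of_ae_prod
    ((measurePreserving_sumPiEquivProdPi_symm ϖs).quasiMeasurePreserving.ae key)] with e he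
  exact measure_eq_zero_iff_ae_notMem.2 he

end Pool.Agent.P.MP_d66c6d_pr
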