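import Pool.Agent.P.MP_d66c6d_pr.V.Iface
import Pool.Agent.P.MP_d66c6d_pr.L.Iface
import Pool.Agent.P.MP_d66c6d_pr.F.Iface
import Pool.Agent.P.MP_d66c6d_pr.M.Rzs

/-! Step RZS1 of the carpet project. -/

namespace Pool.Agent.P.MP_d66c6d_pr

open MeasureTheory ProbabilityTheory Set Metric Filter Topology
open scoped ENNReal

theorem p_RZS1 (hRNUL1 : S_RNUL1) (hLVA : S_LVA) (hPPO : S_PPO) (hMUK : S_MUK) :
    S_RZS1 := by
  intro ν κ L β c₀ c₂ ⟨hν, hβ, hU, h0, h1, h2, hl⟩ R hR cs E G hc ht hm' hG hJ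
  have hm : ∀ k, MeasurableSet (E k) ∧ MeasurableSet (G k) := fun k => ⟨(hm' k).1.1, (hm' k).2⟩
  have := hβ.fin
  have := (hMUK ν hν).2.1
  have hB := (isOpen_inK (isOpen_ball (x := (0 : ℂ)) (ε := 10 * L))).measurableSet
  have h3 : ∀ᶠ k in atTop, cs k ≤ 1 := ht.eventually_le_const (h1.trans_le h2)
  have key : ∀ n, Tendsto (fun k => refM ν (cs k) L β n (E k)) atTop (𝓝 0) := fun n => by
    refine (RzsA.sub ((lsoup ν c₀ (max R (10 * L))).prod (Measure.pi fun _ : Fin n => β))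
      (lsoup ν c₀ R) (fun k => RzsA.meas (10 * L) (cs k) n (hm k).1) hG fun φ hφ h => ?_).congr' ?_
    · refine hRNUL1 ν hν L β hβ c₀ c₂ h0 h1 h2 hl R hR n _
        (MeasurableSet.measurableSet_limsup fun k => (hm _).2) h _
        (MeasurableSet.measurableSet_limsup fun k => RzsA.meas _ _ n (hm _).1)
        fun q hq c' hc' J 𝒯 h𝒯 => ?_
      simp only [mem_limsup_iff_frequently_mem] at hq ⊢
      refine frequently_exists.1 ((hq.and_eventually ((hφ.eventually (hJ J)).and
        (hφ.eventually (ht.eventually_le_const hc')))).mono fun k hk => ?_)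
      exact hk.2.1 _ hk.1 𝒯 (h𝒯 _ ⟨hc _, hk.2.2⟩)
    filter_upwards [h3] with k hk
    have m1 := (hLVA ν hν c₀ ⟨h0.le, (h1.trans_le h2).le⟩ (ball 0 (max R (10 * L)))
      isOpen_ball).2.2.1 _ ⟨hc k, hk⟩
    have m2 : MeasurePreserving (Cfg.res (inK (ball 0 (10 * L))))
        (soupN ν (cs k) (ball 0 (max R (10 * L)))) (soup ν (cs k) (ball 0 (10 * L))) :=
      ⟨measurable_res hB, ((hPPO _ _ inferInstance).2.1 _ hB).trans (by
        rw [Measure.restrict_smul, Measure.restrict_restrict_of_subset]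
        exacts [rfl, fun K hK => Subset.trans hK (ball_subset_ball (le_max_right _ _))])⟩
    have m3 := ((m2.comp m1).prod (MeasurePreserving.id (Measure.pi fun _ : Fin n => β)))
    have m4 : Measurable fun q : Cfg KC × (Fin n → TP) => q.1 ∪ arcs q.2 := by fun_prop
    rw [refM, Measure.map_apply m4 (hm k).1, ← m3.measure_preimage (m4 (hm k).1).nullMeasurableSet]
    rfl
  have key0 : Tendsto (fun k => soup ν (cs k) (ball 0 (10 * L)) (E k)) atTop (𝓝 0) := by
    refine (key 0).congr fun k => ?_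
    have e : (fun q : Cfg KC × (Fin 0 → TP) => q.1 ∪ arcs q.2) = Prod.fst :=
      funext fun q => Cfg.ext (by simp [arcs])
    rw [refM, e, Measure.map_fst_prod, Measure.pi_univ, Finset.univ_eq_empty, Finset.prod_empty,
      one_smul]
  intro lam hlam p hp
  obtain ⟨δ, N, hδ, h⟩ := hU lam hlam p hp
  filter_upwards [h3, (eventually_all_finite (finite_le_nat N)).2 fun n _ =>
    (key n).eventually_le_const (pos_iff_ne_zero.2 hδ),
    key0.eventually_le_const (pos_iff_ne_zero.2 hp)] with k hk hk' hk''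
  exact ⟨h _ ⟨h0.trans_le (hc k), hk⟩ _ (hm' k).1 hk', hk''⟩

end Pool.Agent.P.MP_d66c6d_pr
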