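import Pool.Agent.P.MP_d66c6d_pr.V.Iface
import Pool.Agent.P.MP_d66c6d_pr.M.Iface
import Pool.Agent.P.MP_d66c6d_pr.A.Iface
import Pool.Agent.P.MP_d66c6d_pr.D.Iface
import Pool.Agent.P.MP_d66c6d_pr.M.Strict

/-! Step STRICT2 of the carpet project. -/

namespace Pool.Agent.P.MP_d66c6d_pr

open MeasureTheory ProbabilityTheory Set Metric Filter Topology
open scoped ENNReal

theorem p_STRICT2 (hSTEP : S_STEP) (hMDL : S_MDL) (hEXP : S_EXP) (hDMON : S_DMON) :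
    S_STRICT2 := by
  intro ν hν κ L Θ hκ hL hΘ c hc c' hc' hcc
  have hκ0 : 0 < κ := one_pos.trans hκ
  have loc : ∀ x ∈ Ioo (0 : ℝ) (1 / 2), ∀ y ∈ Ioo (0 : ℝ) (1 / 2), x < y → y ≤ κ * x →
      Θ x < Θ y := fun x hx y hy h1 h2 => by
    obtain ⟨a, ha⟩ := hΘ x hx
    obtain ⟨a', ha'⟩ := hΘ y hy
    exact StrictA.loc hSTEP hMDL hEXP hDMON hν hκ.le hL hx.1 h1 h2 ha ha'
  obtain ⟨i, hi⟩ := pow_unbounded_of_one_lt (c' / c) hκ
  replace hi := ((div_lt_iff₀ hc.1).1 hi).le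
  induction i generalizing c' with
  | zero => linarith
  | succ i ih =>
    by_cases h : c' ≤ κ * c
    · exact loc c hc c' hc' hcc h
    have h1 : c' / κ < c' := div_lt_self hc'.1 hκ
    have h2 : c' / κ ∈ Ioo (0 : ℝ) (1 / 2) := ⟨div_pos hc'.1 hκ0, h1.trans hc'.2⟩
    exact (ih h2 ((lt_div_iff₀' hκ0).2 (not_le.1 h))
      ((div_le_iff₀' hκ0).2 (by rwa [← mul_assoc, ← pow_succ']))).trans
      (loc _ h2 c' hc' h1 (mul_div_cancel₀ _ hκ0.ne').ge)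

end Pool.Agent.P.MP_d66c6d_pr
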