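import Pool.Agent.P.MP_d66c6d_pr.V.Iface
import Pool.Agent.P.MP_d66c6d_pr.S.Iface
import Pool.Agent.P.MP_d66c6d_pr.F.Iface
import Pool.Agent.P.MP_d66c6d_pr.G.Sub

/-! Step SUB1 of the carpet project. -/

namespace Pool.Agent.P.MP_d66c6d_pr

open MeasureTheory ProbabilityTheory Set Metric Filter Topology
open scoped ENNReal

open SubA in
theorem p_SUB1 (hBLOB : S_BLOB) (hSUBQ : S_SUBQ) (hJN : S_JN) (hMUK : S_MUK) (hPPO : S_PPO) :
    S_SUB1 := by
  intro ν hν c hS
  refine ⟨?_, fun η hη => ?_⟩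
  swap
  · obtain ⟨δ, h1, h2⟩ := ((hS.eventually (ge_mem_nhds (pos_iff_ne_zero.2 hη))).and
      self_mem_nhdsWithin).exists
    refine ⟨δ, h2, ?_⟩
    simpa only [Crs, Jn, mul_one] using h1
  have hc : ENNReal.ofReal c ≠ ∞ := ENNReal.ofReal_ne_top
  have key : ∀ B : Set KC, MeasurableSet B →
      ∀ᵐ S ∂PP (ENNReal.ofReal c • (muK ν).restrict B), ∀ K ∈ S.pts, K ∈ B := fun B hB => by
    have := ((hJN.2 ν hν _ hc).1 _ (smul_res_le _ (muK ν) B)).1
    exact (hPPO KC _ inferInstance).2.2.2.2.2.1 _ (Measure.ae_smul_measure (ae_restrict_mem hB) _)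
  refine ⟨fun R => ?_, fun A => ?_⟩
  · have hle := smul_res_le (ENNReal.ofReal c) (muK ν) (inK (ball 0 R))
    obtain ⟨h1, h2, -⟩ := (hJN.2 ν hν _ hc).1 _ hle
    have h3 := (hBLOB ν hν _ hc hS).2.2 _ hle
    have h4 := key _ (isOpen_inK (isOpen_ball (x := (0 : ℂ)) (ε := R))).measurableSet
    have : PathConnectedSpace unitInterval :=
      isPathConnected_iff_pathConnectedSpace.1
        ((convex_Icc (0 : ℝ) 1).isPathConnected (nonempty_Icc.2 zero_le_one))
    have h5 : ∀ᵐ K : KC ∂muK ν, IsPathConnected (K : Set ℂ) :=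
      (hMUK ν hν).2.2.2.2.2.2.1 _ (ae_of_all _ fun l =>
        isPathConnected_range (lp l).2.continuous)
    have h6 := (hPPO KC (ENNReal.ofReal c • (muK ν).restrict (inK (ball 0 R)))
      inferInstance).2.2.2.2.2.1 _ (Measure.ae_smul_measure (ae_restrict_of_ae h5) _)
    filter_upwards [h2, h3, h4, h6] with S s2 s3 s4 s6
    exact ⟨tame s2 s4 s6, subT s3 s4⟩
  · obtain ⟨a, C, ha, hC⟩ := hSUBQ ν hν _ hc hS
    obtain ⟨D, hD, hD'⟩ := decay ha A
    obtain ⟨E, hE, hE'⟩ := small A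
    refine ⟨|C| * D + E, fun z η s hη hs => ?_⟩
    have hs0 : 0 ≤ s ^ (-A) := Real.rpow_nonneg (by linarith) _
    rcases le_total s 2 with h2 | h2
    · refine prob_le_one.trans (ENNReal.one_le_ofReal.2 ((hE' s hs h2).trans ?_))
      have : 0 ≤ |C| * D := by positivity
      gcongr
      linarith
    · have hB : MeasurableSet (bigK η)ᶜ :=
        (measurableSet_bigK η).compl
      have h4 := key _ hB
      have h5 := hC _ (smul_res_le (ENNReal.ofReal c) (muK ν) (bigK η)ᶜ) z (s * η / 2) η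
        (by positivity) hη
      refine (measure_mono_ae ?_).trans (h5.trans (ENNReal.ofReal_le_ofReal ?_))
      · filter_upwards [h4] with S s4 hJ
        refine Joins.mono hJ ?_ (closedBall_subset_closedBall (by nlinarith)) ?_
        · rintro _ ⟨K, hK, rfl⟩
          exact ⟨K, ⟨hK, s4 K hK⟩, rfl⟩
        · rw [show 2 * (s * η / 2) = s * η by ring]
      · rw [show s * η / 2 / η = s / 2 by field_simp]
        calc C * Real.exp (-a * (s / 2) ^ (1 / 4 : ℝ))
            ≤ |C| * Real.exp (-a * (s / 2) ^ (1 / 4 : ℝ)) := by gcongr; exact le_abs_self C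
          _ ≤ |C| * (D * s ^ (-A)) := by gcongr; exact hD' s hs
          _ ≤ _ := by nlinarith [mul_nonneg hE hs0]

end Pool.Agent.P.MP_d66c6d_pr
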