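import Pool.Agent.P.MP_d66c6d_pr.V.Iface
import Pool.Agent.P.MP_d66c6d_pr.M.Iface
import Pool.Agent.P.MP_d66c6d_pr.D.Iface
import Pool.Agent.P.MP_d66c6d_pr.M.Tail

/-! Step TAILQ of the carpet project. -/

namespace Pool.Agent.P.MP_d66c6d_pr

open MeasureTheory ProbabilityTheory Set Metric Filter Topology
open scoped ENNReal

namespace TailqA

theorem core (R : ℝ → ℝ → ℝ≥0∞ → Prop) {C M c₀ S AW A x β : ℝ} (α : ℕ) (hC : 1 ≤ C)
    (hM1 : 2 * C * (2 * C) ^ (α + 3) ≤ M) (hM2 : 2 * C ≤ M) (hc₀ : 0 < c₀) (hβ : c₀ ≤ β)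
    (hx : 0 < x) (hx1 : x ≤ 1) (hS : 1 ≤ S) (hA0 : 0 ≤ A) (hA1 : (2 * C * M * S) ^ (α + 3) ≤ A)
    (hA2 : (200 * M ^ 2 / c₀) ^ (α + 3) ≤ A) (hA3 : AW * (200 * M ^ 2 / c₀) ^ (α + 3) ≤ A)
    (mono : ∀ ε t t' p p', t ≤ t' → p ≤ p' → R ε t p → R ε t' p')
    (one : ∀ ε t p, 1 ≤ p → R ε t p)
    (mn : ∀ ε t p q, R ε t p → R ε t q → R ε t (min p q))
    (rc : ∀ ε t₁ t₂ p₁ p₂, 0 ≤ t₁ → 0 ≤ t₂ → R (ε * M) t₁ p₁ → R (ε * M) t₂ p₂ →
      R ε (C * t₁ + C * M ^ 2 * t₂)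
        (ENNReal.ofReal (C * M ^ 2) * p₁ + ENNReal.ofReal (C * M ^ 4) * p₂ ^ 2))
    (thr : ∀ ε t p, 0 < ε → ε ≤ 1 → R 3 t p → R ε (200 / ε ^ 2 * t) p)
    (tw : ∀ t : ℝ, 1 ≤ t → R 3 t (ENNReal.ofReal (AW / t ^ (α + 3))))
    (tg : ∀ y ∈ Icc x 1, R y (S * (β / y))
      (ENNReal.ofReal (1 / (2 * C * M ^ 4 * (2 * C * M) ^ (α + 3))))) (t : ℝ) (ht : 1 ≤ t) :
    R x (t * (β / x)) (ENNReal.ofReal (A / t ^ α)) := by
  have hM : 2 ≤ M := by linarith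
  have hβ0 : 0 < β := hc₀.trans_le hβ
  obtain ⟨K, hK⟩ : ∃ K, K = 200 * M ^ 2 / c₀ := ⟨_, rfl⟩
  rw [← hK] at hA2 hA3
  have hK0 : 0 < K := by rw [hK]; positivity
  have base : ∀ y, 1 / M ≤ y → y ≤ 1 → ∀ t : ℝ, 1 ≤ t →
      R y (t * (β / y)) (ENNReal.ofReal (A / t ^ (α + 3))) := by
    intro y h1 h2 t ht
    have h0 : 0 < y := lt_of_lt_of_le (by positivity) h1
    rcases le_total t K with h | h
    · exact one _ _ _ (TailA.triv ht h hA2)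
    refine mono _ _ _ _ _ ?_ (ENNReal.ofReal_le_ofReal ?_)
      (thr y _ _ h0 h2 (tw (t / K) ((one_le_div hK0).2 h)))
    · calc 200 / y ^ 2 * (t / K) ≤ 200 / (1 / M) ^ 2 * (t / K) := by gcongr
        _ = t * (c₀ / 1) := by rw [hK]; field_simp
        _ ≤ _ := by gcongr
    · rw [div_pow, div_div_eq_mul_div]
      gcongr
  have claim : ∀ k : ℕ, ∀ y, x ≤ y → 1 / M ^ (k + 1) ≤ y → y ≤ 1 → ∀ t : ℝ, 1 ≤ t →
      R y (t * (β / y)) (ENNReal.ofReal (A / t ^ (α + 3))) := by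
    intro k
    induction k with
    | zero => intro y _; simpa using base y
    | succ k ih =>
      intro y hy h1 h2 t ht
      rcases le_or_gt (1 / M) y with h | h
      · exact base y h h2 t ht
      have h0 : 0 < y := hx.trans_le hy
      have hx2 : y * M ≤ 1 := ((lt_div_iff₀ (by positivity)).1 h).le
      have hx3 : x ≤ y * M := hy.trans (le_mul_of_one_le_right h0.le (by linarith))
      have ih := ih (y * M) hx3 (by
        rw [pow_succ, ← div_div, div_le_iff₀ (by positivity)] at h1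
        exact h1) hx2
      rcases le_total t (2 * C * M * S) with h5 | h5
      · exact one _ _ _ (TailA.triv ht h5 hA1)
      have h6 : S ≤ t / (2 * C * M) := by
        rw [le_div_iff₀ (by positivity)]
        linarith
      have h7 : 1 ≤ t * M / (2 * C) := by
        rw [one_le_div (by positivity)]
        nlinarith
      have r3 := mono _ _ _ _ _ (mul_le_mul_of_nonneg_right h6 (by positivity)) le_rfl
        (tg _ ⟨hx3, hx2⟩)
      refine mono _ _ _ _ _ (le_of_eq ?_)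
        (TailA.num hC (by linarith) hM1 (by linarith) hA0 ht)
        (rc y _ _ _ _ (by positivity) (by positivity) (ih _ h7)
          (mn _ _ _ _ r3 (ih _ (hS.trans h6))))
      field_simp
      ring
  obtain ⟨k, hk⟩ := pow_unbounded_of_one_lt (1 / x) (show 1 < M by linarith)
  refine mono _ _ _ _ _ le_rfl (ENNReal.ofReal_le_ofReal ?_) (claim k x le_rfl ?_ hx1 t ht)
  · gcongr
    omega
  · rw [div_lt_iff₀ hx] at hk
    rw [div_le_iff₀ (by positivity), pow_succ]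
    have : 0 < M ^ k * x := mul_pos (by positivity) hx
    nlinarith

end TailqA

theorem p_TAILQ (hTAIWQ : S_TAIWQ) (hZRC : S_ZRC) (hZTHR : S_ZTHR) (hRARE : S_RARE) (hDMON : S_DMON) :
    S_TAILQ := by
  intro ν hν L c₀ hL hc₀ α
  obtain ⟨C, hC, hrc⟩ := hZRC ν hν L hL
  obtain ⟨p₁, hp₁, htw⟩ := hTAIWQ ν hν L hL (α + 3)
  have hL0 : 0 < L := by linarith
  obtain ⟨M, hM0, hM1, hM2⟩ : ∃ M, 100 * L ≤ M ∧ 2 * C * (2 * C) ^ (α + 3) ≤ M ∧ 2 * C ≤ M :=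
    ⟨max (100 * L) (max (2 * C * (2 * C) ^ (α + 3)) (2 * C)), le_max_left _ _,
      (le_max_left _ _).trans (le_max_right _ _), (le_max_right _ _).trans (le_max_right _ _)⟩
  have hM : 0 < M := by linarith
  refine ⟨min p₁ (ENNReal.ofReal (1 / (2 * C * M ^ 4 * (2 * C * M) ^ (α + 3)))),
    (lt_min (pos_iff_ne_zero.2 hp₁) (ENNReal.ofReal_pos.2 (by positivity))).ne', fun S W => ?_⟩
  obtain ⟨AW, htw⟩ := htw W
  have h1 : 0 ≤ (2 * C * M * max 1 S) ^ (α + 3) := by positivity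
  have h2 : 0 ≤ (200 * M ^ 2 / c₀) ^ (α + 3) := by positivity
  have h3 : AW * (200 * M ^ 2 / c₀) ^ (α + 3) ≤ |AW| * (200 * M ^ 2 / c₀) ^ (α + 3) :=
    mul_le_mul_of_nonneg_right (le_abs_self _) h2
  have h4 : 0 ≤ |AW| * (200 * M ^ 2 / c₀) ^ (α + 3) := by positivity
  refine ⟨(2 * C * M * max 1 S) ^ (α + 3) + (200 * M ^ 2 / c₀) ^ (α + 3) +
    |AW| * (200 * M ^ 2 / c₀) ^ (α + 3), fun κ c lam x β hlam hx hx1 hβ hW hg => ?_⟩
  have mono : ∀ ε t t' p p', t ≤ t' → p ≤ p' → Rare ν κ c lam L 0 1 (ZB 0 1 ε t) p →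
      Rare ν κ c lam L 0 1 (ZB 0 1 ε t') p' := fun ε t t' p p' ht hp h =>
    (hRARE ν κ c lam L hlam hL0).1 _ _ _ _ _ _
      (fun S hS h => hS (hDMON.2.2.2.1 _ _ _ _ _ _ _ _ _ Subset.rfl le_rfl ht h)) hp h
  refine TailqA.core (fun ε t p => Rare ν κ c lam L 0 1 (ZB 0 1 ε t) p) (AW := AW) α hC hM1 hM2
    hc₀ hβ hx hx1 (le_max_left 1 S) (by linarith) (by linarith) (by linarith) (by linarith) mono
    (fun ε t p hp => (hRARE ν κ c lam L hlam hL0).2.1 _ _ _ _ hp)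
    (fun ε t p q hp hq => (hRARE ν κ c lam L hlam hL0).2.2.1 _ _ _ _ _ hp hq)
    (fun ε t₁ t₂ p₁ p₂ => (hrc κ c lam hlam).1 M ε t₁ t₂ p₁ p₂ hM0)
    (fun ε t p h0 h1 h => (hRARE ν κ c lam L hlam hL0).1 _ _ _ _ _ _
      (fun S hS h => hS (hZTHR _ ε t h0 h1 h)) le_rfl h)
    (htw κ c lam hlam (mono _ _ _ _ _ le_rfl (min_le_left _ _) hW)) fun y hy => ?_
  exact mono _ _ _ _ _ (mul_le_mul_of_nonneg_right (le_max_right _ _)
    (div_nonneg (hc₀.le.trans hβ) (hx.le.trans hy.1))) (min_le_right _ _) (hg y hy)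

end Pool.Agent.P.MP_d66c6d_pr
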