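import Pool.Agent.P.MP_d66c6d_pr.V.Iface
import Pool.Agent.P.MP_d66c6d_pr.M.Iface
import Pool.Agent.P.MP_d66c6d_pr.D.Iface

/-! Step TAILS of the carpet project. -/

namespace Pool.Agent.P.MP_d66c6d_pr

open MeasureTheory ProbabilityTheory Set Metric Filter Topology
open scoped ENNReal

theorem p_TAILS (hTAILQ : S_TAILQ) (hZKC : S_ZKC) (hRARE : S_RARE) (hDMON : S_DMON) :
    S_TAILS := by
  intro ν hν κ L c θ e b hL hSq hT lam hlam α
  obtain ⟨hpos, he, c₀, hc₀, hlow⟩ := hSq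
  obtain ⟨p₀, hp₀, hA⟩ := hTAILQ ν hν L c₀ hL hc₀ α
  obtain ⟨k, C, -, hG⟩ := hT lam hlam p₀ hp₀
  obtain ⟨A, hA⟩ := hA (12 * C + 3 * k / c₀) (2 * k)
  refine ⟨A, fun s hs => ?_⟩
  filter_upwards [hG s hs, hlow s hs, he.eventually (eventually_le_nhds hs)] with n h1 h2 h3
  obtain ⟨c', hc', h1⟩ := h1
  refine ⟨c', hc', fun c1 hc1 t ht => ?_⟩
  have hx : 0 < e n / s := div_pos (hpos n).1 hs
  have hx1 : e n / s ≤ 1 := (div_le_one hs).2 h3
  have hR := (hRARE ν κ c1 lam L hlam (by linarith)).1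
  have h4 := h1 c1 hc1
  generalize e n / s = x at hx hx1 h2 h4 ⊢
  generalize b n * s ^ θ = u at h2 h4 ⊢
  have h5 := hA κ c1 lam x (u * x) hlam hx hx1 h2
    (hR 0 1 _ _ p₀ p₀ (fun S hS h => hS ((hZKC _ x _ k hx h).2 (by linarith))) le_rfl h4)
    (fun y hy => hR 0 1 _ _ p₀ p₀ (fun S hS h => hS (hDMON.2.2.2.1 _ _ _ 0 1 y y _ _ subset_rfl
      le_rfl ?_ ((hZKC _ x _ k hx h).1 y hy.1))) le_rfl h4) t ht
  · rwa [mul_div_cancel_right₀ u hx.ne'] at h5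
  · have hy0 : 0 < y := hx.trans_le hy.1
    have h6 : 1 ≤ 1 / c₀ * (u * x / y) := by
      rw [one_div, inv_mul_eq_div, one_le_div hc₀, le_div_iff₀ hy0]
      exact (mul_le_of_le_one_right hc₀.le hy.2).trans h2
    have h7 := mul_le_mul_of_nonneg_left h6 (show (0 : ℝ) ≤ 3 * k by positivity)
    have e1 : (12 * C + 3 * k / c₀) * (u * x / y) =
        12 * (C * u * x / y) + 3 * k * (1 / c₀ * (u * x / y)) := by ring
    rw [e1]
    linarith

end Pool.Agent.P.MP_d66c6d_pr
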