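import Pool.Agent.P.MP_d66c6d_pr.V.Iface
import Pool.Agent.P.MP_d66c6d_pr.M.Iface
import Pool.Agent.P.MP_d66c6d_pr.D.Iface
import Pool.Agent.P.MP_d66c6d_pr.M.Taiw

/-! Step TAIWQ of the carpet project. -/

namespace Pool.Agent.P.MP_d66c6d_pr

open MeasureTheory ProbabilityTheory Set Metric Filter Topology
open scoped ENNReal

theorem p_TAIWQ (hZRC : S_ZRC) (hRARE : S_RARE) (hDMON : S_DMON) :
    S_TAIWQ := by
  intro ν hν L hL α
  obtain ⟨C₀, hC₀, hZ⟩ := hZRC ν hν L hL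
  obtain ⟨C, c1, c2⟩ : ∃ C : ℝ, C₀ ≤ C ∧ 1 < C := ⟨C₀ + 1, by linarith, by linarith⟩
  have c0 : 0 < C := one_pos.trans c2
  refine ⟨ENNReal.ofReal (C ^ (α + 1 + α * 0))⁻¹, (ENNReal.ofReal_pos.2 (by positivity)).ne',
    fun W => ?_⟩
  obtain ⟨s, s1, s2⟩ : ∃ s : ℝ, W ≤ s ∧ 1 ≤ s := ⟨_, le_max_left _ _, le_max_right _ _⟩
  have s0 : 0 < s := one_pos.trans_le s2
  refine ⟨(C * s) ^ α, fun κ c lam hlam h2 t ht => ?_⟩
  obtain ⟨r1, r2, -⟩ := hRARE ν κ c lam L hlam (by linarith)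
  have t0 : 0 < t := one_pos.trans_le ht
  have key : ∀ k : ℕ, Rare ν κ c lam L 0 1 (ZB 0 1 3 (C ^ k * s))
      (ENNReal.ofReal (C ^ (α + 1 + α * k))⁻¹) := fun k => by
    induction k with
    | zero => exact r1 _ _ _ _ _ _ (TaiwA.zb hDMON le_rfl (by simpa using s1)) le_rfl h2
    | succ k ih =>
      refine r1 _ _ _ _ _ _ (TaiwA.zb hDMON le_rfl ?_) ?_
        ((hZ κ c lam hlam).2 _ _ (by positivity) ih)
      · rw [pow_succ', mul_assoc]
        exact mul_le_mul_of_nonneg_right c1 (by positivity)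
      · rw [← ENNReal.ofReal_pow (by positivity), ← ENNReal.ofReal_mul (by linarith)]
        exact ENNReal.ofReal_le_ofReal ((mul_le_mul_of_nonneg_right c1 (by positivity)).trans
          (TaiwA.sq c2.le α k))
  rcases le_total s t with h | h
  · obtain ⟨k, k1, k2⟩ := exists_nat_pow_near ((one_le_div s0).2 h) c2
    exact r1 _ _ _ _ _ _ (TaiwA.zb hDMON le_rfl ((le_div_iff₀ s0).1 k1))
      (ENNReal.ofReal_le_ofReal (TaiwA.fin c2.le s0 t0 α k ((div_le_iff₀ s0).1 k2.le))) (key k)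
  · refine r2 _ _ _ _ (ENNReal.one_le_ofReal.2 ((one_le_div (by positivity)).2
      (pow_le_pow_left₀ t0.le (h.trans ?_) α)))
    exact le_mul_of_one_le_left s0.le c2.le

end Pool.Agent.P.MP_d66c6d_pr
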