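import Pool.Agent.P.MP_d66c6d_pr.V.Iface
import Pool.Agent.P.MP_d66c6d_pr.A.Iface
import Pool.Agent.P.MP_d66c6d_pr.S.Iface
import Pool.Agent.P.MP_d66c6d_pr.F.Iface
import Pool.Agent.P.MP_d66c6d_pr.G.Th1

/-! Step TH2 of the carpet project. -/

namespace Pool.Agent.P.MP_d66c6d_pr

open MeasureTheory ProbabilityTheory Set Metric Filter Topology
open scoped ENNReal

open Th1A in
theorem p_TH2 (hTRF : S_TRF) (hBAS1 : S_BAS1) (hCOVA1 : S_COVA1) (hLOWX1 : S_LOWX1) (hPEI : S_PEI) (hPPO : S_PPO) (hMUK : S_MUK) :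
    S_TH2 := by
  intro ν hν c θ c₂ hc hcc hc1 hL hL2
  by_contra hθ
  rw [not_lt] at hθ
  obtain ⟨Ω, _, _, P, Γ, κ, hk, hCLE, hD⟩ := hL
  have := hCLE.1
  obtain ⟨hcomp, ρ0, -, hpos⟩ := hBAS1 ν κ θ Ω P Γ hCLE hD
  obtain ⟨M, hM, hP⟩ := hPEI ν hν (ENNReal.ofReal c) (by simpa using hc) ENNReal.ofReal_ne_top
  have hM0 : 0 < M := by linarith
  let r : ℕ × ℕ → ℝ := fun i => 1 / ((i.2 : ℝ) + 1)
  have hr : ∀ i, 0 < r i := fun i => by positivity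
  let Y : ℕ × ℕ → Cfg KC → Set ℂ := fun i S =>
    {y | ∀ L ∈ S.pts, (L : Set ℂ) ⊆ ball (dn i.1) (2 * r i) → y ∉ interior (fill L)}
  have hg : ¬ 2 / M ≤ M ^ (θ - 2) := by
    have h1 : M ^ (θ - 2) ≤ M ^ (-1 : ℝ) := Real.rpow_le_rpow_of_exponent_le hM.le (by linarith)
    rw [Real.rpow_neg_one] at h1
    have h2 : 0 < M⁻¹ := inv_pos.2 hM0
    rw [div_eq_mul_inv]
    linarith
  have key : ∀ (i : ℕ × ℕ) (j : ℕ), ∃ ε : ℝ,
      P {ω | Gd1 (firstCarpet (Γ ω)) (dn i.1) (r i) ε M} ≤ 2⁻¹ ^ j ∧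
      PP (ENNReal.ofReal c • muK ν) {S | ¬ Gain (Y i S) (dn i.1) (r i) ε M (2 / M)} ≤ 2⁻¹ ^ j := by
    intro i j
    have hp : (2⁻¹ : ℝ≥0∞) ^ j ≠ 0 := by simp
    obtain ⟨x, hx0, hx, hlow⟩ := hLOWX1 Ω P _ θ hD (hcomp.mono fun _ h => h.1)
    have h1 := not_frequently.1 fun h => hg (hlow
      (dn i.1) (r i) M (2 / M) (hr i) hM0 (by positivity) _ hp h)
    have hx' : Tendsto x atTop (𝓝[>] 0) :=
      tendsto_nhdsWithin_iff.2 ⟨hx, Eventually.of_forall hx0⟩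
    have h2 := ((hP (dn i.1) (r i) (hr i)).comp hx').eventually
      (ge_mem_nhds (pos_iff_ne_zero.2 hp))
    obtain ⟨n, h3, h4⟩ := (h1.and h2).exists
    exact ⟨x n, (not_le.1 h3).le, h4⟩
  choose e he1 he2 using key
  have hG : ∀ᵐ ω ∂P, within 1 (Γ ω) ∈ {G : Set (Set ℂ) | ∀ i, ∀ᶠ j in atTop,
      ¬ Gd1 (firstCarpet G) (dn i.1) (r i) (e i j) M} := by
    simp only [mem_ofPred_eq, firstCarpet_within]
    exact ae_all_iff.2 fun i => bc (he1 i)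
  obtain ⟨V, hV, -, hV1, hE⟩ := hTRF ν hν κ Ω P Γ hCLE ρ0 _ hG hpos 2⁻¹ (by simp)
  rw [hk] at hE
  have hV1' : V ⊆ ball 0 1 := subset_closure.trans hV1
  have hVo : IsOpen V := by
    obtain ⟨φ, rfl⟩ := hV
    exact φ.isOpenMap _ isOpen_ball
  have hA := hCOVA1 ν hν c c₂ hc hcc hc1 hL2 V 1 hV hV1'
  have := (hMUK ν hν).1
  have hg0 : Measurable fun l : Lp => trB (lp l).2 := Measurable.trB' measurable_lp.snd
  have hmap := (hPPO _ (ENNReal.ofReal c • loopMeasure ν) inferInstance).2.2.1 KC _ hg0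
  rw [Measure.map_smul] at hmap
  have hB : ∀ᵐ N ∂PP (ENNReal.ofReal c • loopMeasure ν), ∀ i, ∀ᶠ j in atTop,
      Gain (Y i (N.map fun l => trB (lp l).2)) (dn i.1) (r i) (e i j) M (2 / M) := by
    refine ae_all_iff.2 fun i => ?_
    have h1 := bc (μ := PP (ENNReal.ofReal c • loopMeasure ν))
      (s := fun j => Cfg.map (fun l : Lp => trB (lp l).2) ⁻¹'
        {S | ¬ Gain (Y i S) (dn i.1) (r i) (e i j) M (2 / M)}) fun j =>
      (Measure.le_map_apply (measurable_cfgMap hg0).aemeasurable _).trans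
        (by rw [hmap]; exact he2 i j)
    simpa using h1
  obtain ⟨t, ht, htm, ht0⟩ := exists_measurable_superset_of_null (ae_iff.1 (hA.and hB))
  have h1 := hE tᶜ htm.compl fun N hN G hG2 hGG => ?_
  · rw [(prob_compl_eq_one_iff htm).2 ht0] at h1
    exact absurd h1 (by simp)
  obtain ⟨⟨a1, -, ⟨y, hy, hyV⟩, a4, a5⟩, b⟩ := not_not.1 fun h => hN (ht h)
  obtain ⟨i, hi1, hi2⟩ := exists_disc hVo hyV
  obtain ⟨j, hj1, hj2⟩ := ((hGG i).and (b i)).exists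
  rw [hG2.2.2.2 a1] at hj1
  refine hj1 ⟨⟨y, hy, hi1⟩, fun h => ?_, fun C hC => hj2 C (hC.trans fun w hw => ?_)⟩
  · obtain ⟨w, hw⟩ := frontier_nonempty ⟨y, hyV⟩ hV1'
    have h2 : w ∈ V := hi2 (ball_subset_ball (by linarith [hr i]) (h (a4 hw)))
    rw [hVo.frontier_eq] at hw
    exact hw.2 h2
  · rintro _ ⟨l, hl, rfl⟩ hsub
    rw [coe_trB, range_lp] at hsub ⊢
    exact Set.disjoint_left.1 (a5 l hl _ (convex_ball _ _) hi2 hsub) hw

end Pool.Agent.P.MP_d66c6d_pr
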