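import Pool.Agent.P.MP_d66c6d_pr.V.Iface
import Pool.Agent.P.MP_d66c6d_pr.M.Iface
import Pool.Agent.P.MP_d66c6d_pr.D.Iface

/-! Step TIGH2 of the carpet project. -/

namespace Pool.Agent.P.MP_d66c6d_pr

open MeasureTheory ProbabilityTheory Set Metric Filter Topology
open scoped ENNReal

theorem p_TIGH2 (hRMANY : S_RMANY) (hCGK : S_CGK) (hRTR : S_RTR) (hRARE : S_RARE) (hFAR : S_FAR) (hDMON : S_DMON) :
    S_TIGH2 := by
  intro ν hν κ L c θ e b hL hθ hS hT hLow lam hlam p hp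
  obtain ⟨p0, hp0, C0, r0, hr0, hM⟩ := hRMANY L hL
  obtain ⟨r1, hr1, hC⟩ := hCGK L hL
  have hp2 : p / 2 ≠ 0 := by simpa using hp
  obtain ⟨k, C, hC0, hK⟩ := hT lam hlam (p / 2) hp2
  obtain ⟨τ, hτ, hN⟩ := hLow lam hlam p0 hp0
  have hsm : ∃ r2 > (0 : ℝ), ∀ r ∈ Ioo 0 r2, ENNReal.ofReal (C0 * r) ≤ p / 2 := by
    have h1 : Tendsto (fun r : ℝ => ENNReal.ofReal (C0 * r)) (𝓝 0) (𝓝 0) := by
      have h : Continuous fun r : ℝ => ENNReal.ofReal (C0 * r) :=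
        ENNReal.continuous_ofReal.comp (continuous_const.mul continuous_id)
      simpa using h.tendsto 0
    have h2 := h1.eventually (Iic_mem_nhds (pos_iff_ne_zero.2 hp2))
    obtain ⟨r2, h3, h4⟩ := Metric.eventually_nhds_iff.1 h2
    refine ⟨r2, h3, fun r hr => h4 ?_⟩
    rw [Real.dist_eq, sub_zero, abs_of_pos hr.1]
    exact hr.2
  obtain ⟨r2, hr2, hsm⟩ := hsm
  refine ⟨300 * C / τ + 3 * k, min (min r0 r1) (min r2 1), by positivity, fun r hr => ?_⟩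
  have a0 : 0 < r := hr.1
  have a1 : r < r0 := hr.2.trans_le ((min_le_left _ _).trans (min_le_left _ _))
  have a2 : r < r1 := hr.2.trans_le ((min_le_left _ _).trans (min_le_right _ _))
  have a3 : r < r2 := hr.2.trans_le ((min_le_right _ _).trans (min_le_left _ _))
  have a4 : r < 1 := hr.2.trans_le ((min_le_right _ _).trans (min_le_right _ _))
  have ev : ∀ᶠ n in atTop, e n ≤ r / 10 := hS.2.1.eventually (Iic_mem_nhds (by positivity))
  obtain ⟨n, ⟨c', hc', h1⟩, h2⟩ := ((GoodS.and hK hN one_pos a0).and ev).exists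
  refine ⟨c', hc', fun c₁ hc₁ => ?_⟩
  obtain ⟨h3, h4, -⟩ := h1 c₁ hc₁
  have hL0 : 0 < L := by linarith
  obtain ⟨R1, -, -, -, R5, -⟩ := hRARE ν κ c₁ lam L hlam hL0
  have be := hS.1 n
  have rθ : 0 < r ^ θ := Real.rpow_pos_of_pos a0 θ
  have hu : 0 < τ * (b n * r ^ θ) := mul_pos hτ (mul_pos be.2 rθ)
  have h5 := hM ν κ c₁ lam hlam r ⟨a0, a1.le⟩
    (fun x => NE (gp (r / 2) x) r (e n) (τ * (b n * r ^ θ))) (fun x => by
      constructor
      · refine hFAR.2.2.2.2.1 _ _ _ _ _ ?_ (hFAR.2.2.1 _ _ _ a0 (hFAR.1 _ _ _ _ a0).2)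
        rw [dist_self]
        nlinarith
      · have h := (hRTR ν hν κ c₁ lam L (gp (r / 2) x) r p0 a0).2.1 _ _ h4
        rwa [div_mul_cancel₀ _ a0.ne'] at h)
  refine R1 _ _ _ _ _ _ ?_ ?_ (R5 _ _ _ _ _ _ h3 h5)
  · intro S hS'
    by_contra hn
    rw [mem_union, not_or] at hn
    have b1 : ZleK (sets S) (e n) k (C * b n) := by
      have h := not_not.1 hn.1
      simpa using h
    have b2 := hC r ⟨a0, a2.le⟩ (sets S) (e n) _ _ k (cpt_sets S) be.1 (by linarith) hu hn.2 b1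
    refine hS' (hDMON.2.2.2.1 _ _ _ _ _ _ _ _ _ Subset.rfl le_rfl ?_ b2)
    have c1 : r ^ θ ≤ r := by
      simpa using Real.rpow_le_rpow_of_exponent_ge a0 a4.le hθ
    have c2 : 1 / r ≤ r ^ (-θ) := by
      rw [Real.rpow_neg a0.le, one_div]
      exact inv_anti₀ rθ c1
    have c3 : 1 ≤ 1 / r := by
      rw [le_div_iff₀ a0]
      linarith
    have c4 : 1 / (4 * r) = 1 / r / 4 := by field_simp
    have c5 : 300 * (C * b n) / (τ * (b n * r ^ θ)) = 300 * C / τ * r ^ (-θ) := by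
      rw [Real.rpow_neg a0.le]
      have := be.2.ne'
      field_simp
    have c6 : (k : ℝ) * (1 / (4 * r) + 2) ≤ k * (3 * r ^ (-θ)) :=
      mul_le_mul_of_nonneg_left (by linarith) (Nat.cast_nonneg k)
    rw [c5]
    linarith
  · calc p / 2 + ENNReal.ofReal (C0 * r) ≤ p / 2 + p / 2 := add_le_add le_rfl (hsm r ⟨a0, a3⟩)
      _ = p := ENNReal.add_halves p

end Pool.Agent.P.MP_d66c6d_pr
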