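import Pool.Agent.P.MP_d66c6d_pr.V.Iface
import Pool.Agent.P.MP_d66c6d_pr.D.Iface
import Pool.Agent.P.MP_d66c6d_pr.M.Tigh

/-! Step TIGK of the carpet project. -/

namespace Pool.Agent.P.MP_d66c6d_pr

open MeasureTheory ProbabilityTheory Set Metric Filter Topology
open scoped ENNReal

open TighA in
theorem p_TIGK (hGUL1 : S_GUL1) (hRZS1 : S_RZS1) (hDLK : S_DLK) (hDMK : S_DMK) (hDMEA : S_DMEA) :
    S_TIGK := by
  intro ν κ L β c c₂ hE θ R e b hR hQ hD lam hlam p hp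
  obtain ⟨hpos, he0, c₀, hc₀, hlow⟩ := hQ
  by_contra hcon
  have hk : ∀ k : ℕ, ∃ s > (0 : ℝ), ∃ᶠ n in atTop, ∀ c' > c, ∃ c₁ ∈ Icc c c',
      ¬ Rare ν κ c₁ lam L 0 1 (ZK (e n / s) k (k * (b n * s ^ θ))) p := fun k => by
    by_contra h
    refine hcon ⟨k, k, Nat.cast_nonneg k, fun s hs => ?_⟩
    by_contra h2
    refine h ⟨s, hs, (not_eventually.1 h2).mono fun n hn c' hc' => ?_⟩
    by_contra h3
    refine hn ⟨c', hc', fun c₁ hc₁ => ?_⟩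
    by_contra h4
    exact h3 ⟨c₁, hc₁, h4⟩
  choose s hs hbad using hk
  have hJ : ∀ k : ℕ, ∃ᶠ n in atTop, n ∈ {n | (∀ c' > c, ∃ c₁ ∈ Icc c c',
      ¬ Rare ν κ c₁ lam L 0 1 (ZK (e n / s k) k (k * (b n * s k ^ θ))) p) ∧
      c₀ ≤ b n * s k ^ θ} := fun k => by
    have h1 : ∀ᶠ n in atTop, e n ≤ s k := he0.eventually_le_const (hs k)
    refine ((hbad k).and_eventually ((hlow _ (hs k)).and h1)).mono fun n ⟨h2, h3, h4⟩ => ⟨h2, ?_⟩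
    have h5 : 0 < b n * s k ^ θ := mul_pos (hpos n).2 (Real.rpow_pos_of_pos (hs k) θ)
    exact h3.trans (mul_le_of_le_one_right h5.le ((div_le_one (hs k)).2 h4))
  obtain ⟨n, a, hn, hx0, hDat⟩ := hD s _ hs hJ
  have hxp : ∀ j, 0 < e (n j) / s j := fun j => div_pos (hpos _).1 (hs j)
  have ha0 : ∀ j, c₀ ≤ a (e (n j) / s j) := fun j => by rw [(hn j).2]; exact (hn j).1.2
  have hG := hGUL1 ν hE.br c c₂ R c₀ a _ hE.pos hE.lt hE.le hE.sub hDat hxp hx0 hc₀ ha0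
  have hm : ∀ m : ℕ, ∃ (k : ℕ) (C : ℝ) (j : ℕ) (c₁ : ℝ), 0 ≤ C ∧ m * k ≤ j ∧ m * C ≤ j ∧ c ≤ c₁ ∧
      c₁ ≤ c + 1 / ((m : ℝ) + 1) ∧
      lsoup ν c R (GZK c₁ R (e (n j) / s j) k (C * a (e (n j) / s j))) ≤ ((m : ℝ≥0∞) + 1)⁻¹ ∧
      ¬ Rare ν κ c₁ lam L 0 1 (ZK (e (n j) / s j) j (j * a (e (n j) / s j))) p := fun m => by
    obtain ⟨k, C, hC, hev⟩ := (hG ((m : ℝ≥0∞) + 1)⁻¹ (by simp)).1
    have h1 : ∀ᶠ j : ℕ in atTop, (m : ℝ) * C ≤ j :=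
      tendsto_natCast_atTop_atTop.eventually_ge_atTop _
    obtain ⟨j, ⟨⟨c', hc', h2⟩, h3⟩, h0⟩ := ((hev.and h1).and (eventually_ge_atTop (m * k))).exists
    have h4 : c < c + 1 / ((m : ℝ) + 1) := lt_add_of_pos_right _ (by positivity)
    obtain ⟨c₁, h5, h6⟩ := (hn j).1.1 (min c' (c + 1 / ((m : ℝ) + 1))) (lt_min hc' h4)
    rw [← (hn j).2] at h6
    exact ⟨k, C, j, c₁, hC, h0, h3, h5.1, h5.2.trans (min_le_right _ _),
      h2 c₁ ⟨h5.1, h5.2.trans (min_le_left _ _)⟩, h6⟩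
  choose k C j cs hC hk hj h1 h2 h3 h4 using hm
  have hcs : Tendsto cs atTop (𝓝 c) := by
    have h := (tendsto_one_div_add_atTop_nhds_zero_nat (𝕜 := ℝ)).const_add c
    rw [add_zero] at h
    exact tendsto_of_tendsto_of_tendsto_of_le_of_le tendsto_const_nhds h h1 h2
  have hz := hRZS1 ν κ L β c c₂ hE R hR cs
    (fun m => ZK (e (n (j m)) / s (j m)) (j m) (j m * a (e (n (j m)) / s (j m))))
    (fun m => GZK (cs m) R (e (n (j m)) / s (j m)) (k m) (C m * a (e (n (j m)) / s (j m)))) h1 hcs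
    (fun m => ⟨hDLK.2.1 _ _ _,
      measurable_lev (cs m) (hDMEA.2.2.2.2.2.inter (hDMK _ _ _ _).compl)⟩)
    (tendsto_of_tendsto_of_tendsto_of_le_of_le tendsto_const_nhds tend_inv
      (fun _ => zero_le) h3) ?_
  · obtain ⟨m, hm⟩ := (hz lam hlam p hp).exists
    exact h4 m hm.1
  intro J
  filter_upwards [eventually_ge_atTop J] with m hm X hX 𝒯 hT
  by_contra hno
  have h5 : ∀ i, ZleKA (sets (lev (cs m) (𝒯 i))) (ball 0 R)ᶜ (e (n (j m)) / s (j m)) (k m)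
      (C m * a (e (n (j m)) / s (j m))) := fun i => by
    by_contra h
    exact hno ⟨i, hT.near i, h⟩
  have h6 := hDLK.2.2.1 R _ J _ hT _ _ _ h5
  refine hX (hDLK.1 _ _ _ _ _ _ _ ((Nat.mul_le_mul_right _ hm).trans (hk m)) ?_ h6)
  have h7 : (J : ℝ) ≤ m := by exact_mod_cast hm
  have h8 := hc₀.le.trans (ha0 (j m))
  rw [← mul_assoc]
  exact mul_le_mul_of_nonneg_right ((mul_le_mul_of_nonneg_right h7 (hC m)).trans (hj m)) h8

end Pool.Agent.P.MP_d66c6d_pr
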