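import Pool.Agent.P.MP_d66c6d_pr.V.Iface
import Pool.Agent.P.MP_d66c6d_pr.L.Iface
import Pool.Agent.P.MP_d66c6d_pr.H.Iface
import Pool.Agent.P.MP_d66c6d_pr.M.Trx

/-! Step TRX1 of the carpet project. -/

namespace Pool.Agent.P.MP_d66c6d_pr

open MeasureTheory ProbabilityTheory Set Metric Filter Topology
open scoped ENNReal

theorem p_TRX1 (hLAY1 : S_LAY1) (hLVB : S_LVB) (hHOL : S_HOL) :
    S_TRX1 := by
  intro ν hν c₀ c₂ R a x h0 h1 h2 hL hD E hE hn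
  refine le_antisymm (le_of_forall_gt_imp_ge_of_dense fun τ hτ => ?_) zero_le
  obtain ⟨V, hV, v1, v2, hQ⟩ := hD τ hτ.ne'
  obtain ⟨x1, x2⟩ := (hLVB.2 ν hν c₀).2 R
  have hm := x2 (ball 0 R) isOpen_ball Subset.rfl
  have hG := (hLAY1 ν hν c₀ ((c₀ + c₂) / 2) c₂ h0 (by linarith) (by linarith) h2 hL V R hV
    v2).and (measurePreserving_snd.quasiMeasurePreserving.ae x1)
  obtain ⟨E₁, e1, e2, e3⟩ := TrxA.prod_le _ _ (hm.measurable hE) hG
  rw [hm.measure_preimage hE.nullMeasurableSet] at e3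
  refine e3.trans (hQ E₁ e1 fun N hN hq => ?_)
  obtain ⟨X, a1, a2, a3⟩ := e2 N hN
  have k1 : ∀ c, c₀ ≤ c → ins V (sets (lev c (mkL (ball 0 R) c₀ (N, X)))) = lay V N X c :=
    fun c hc => by rw [hLVB.1 _ c₀ c hc, lay, TrxA.ins_ins v2, lay]
  have k2 : ins V (sets (lev c₀ (mkL (ball 0 R) c₀ (N, X)))) = ins V (trace '' N.pts) := by
    rw [k1 c₀ le_rfl, lay, sets, show (lev c₀ X).pts = ∅ from a3, image_empty, union_empty]
  have k3 := TrxA.lay_congr a2 k1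
  obtain ⟨k4, k5⟩ := hHOL V _ _ _ hV k3
  have k6 := hn _ a1 V _ hV v1 v2 k3
  rw [k2] at k4 k5 k6
  rw [cleIn2_ins] at k4 k5
  rw [carp_ins] at k6
  rcases hq with hq | ⟨q1, q2, q3⟩
  · exact k4 hq
  · exact k6 (k5 q1) q2 q3

end Pool.Agent.P.MP_d66c6d_pr
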