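import Pool.Agent.P.MP_d66c6d_pr.V.Iface
import Pool.Agent.P.MP_d66c6d_pr.A.Iface
import Pool.Agent.P.MP_d66c6d_pr.A.Lim

/-! Step UPB1 of the carpet project. -/

namespace Pool.Agent.P.MP_d66c6d_pr

open MeasureTheory ProbabilityTheory Set Metric Filter Topology
open scoped ENNReal

namespace Upb1A

theorem pow_bound {M : ℕ} (hM : 400 ≤ M) {δ r0 : ℝ} (hδ : Real.log 6 / Real.log M < δ)
    (hr : 0 < r0) : ∃ K : ℝ, 0 ≤ K ∧ ∀ x : ℝ, 0 < x → x ≤ r0 → x ≤ 1 → ∃ i : ℕ,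
      x ≤ rad r0 M i ∧ (6 / (M : ℝ)) ^ i ≤ K * x ^ (-(1 + δ)) * x ^ 2 := by
  have hMR : (400 : ℝ) ≤ M := by exact_mod_cast hM
  have hM1 : (1 : ℝ) < M := by linarith
  have hM0 : (0 : ℝ) < M := by linarith
  have hlog : 0 < Real.log M := Real.log_pos hM1
  set d : ℝ := Real.log 6 / Real.log M with hd
  have hd1 : d ≤ 1 := by
    rw [hd, div_le_one hlog]
    exact Real.log_le_log (by norm_num) (by linarith)
  have h6 : (M : ℝ) ^ d = 6 := by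
    rw [Real.rpow_def_of_pos hM0, hd, mul_div_cancel₀ _ hlog.ne', Real.exp_log (by norm_num)]
  refine ⟨(r0 / M) ^ (d - 1), by positivity, fun x hx hxr hx1 => ?_⟩
  obtain ⟨i, h1, h2⟩ := exists_nat_pow_near ((one_le_div hx).2 hxr) hM1
  refine ⟨i, ?_, ?_⟩
  · unfold rad
    rw [le_div_iff₀ (by positivity)]
    rw [le_div_iff₀ hx] at h1
    linarith
  · have e1 : (6 / (M : ℝ)) ^ i = ((M : ℝ) ^ i) ^ (d - 1) := by
      rw [← Real.rpow_natCast (M : ℝ) i, ← Real.rpow_mul hM0.le, mul_comm, Real.rpow_mul hM0.le,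
        Real.rpow_natCast, Real.rpow_sub_one hM0.ne', h6]
    have e2 : r0 / M / x ≤ (M : ℝ) ^ i := by
      rw [pow_succ, div_lt_iff₀ hx] at h2
      rw [div_le_iff₀ hx, div_le_iff₀ hM0]
      nlinarith
    have e3 : ((M : ℝ) ^ i) ^ (d - 1) ≤ (r0 / M / x) ^ (d - 1) :=
      Real.rpow_le_rpow_of_nonpos (by positivity) e2 (by linarith)
    have e4 : (r0 / M / x) ^ (d - 1) = (r0 / M) ^ (d - 1) * x ^ (1 - d) := by
      rw [Real.div_rpow (by positivity) hx.le, div_eq_mul_inv, ← Real.rpow_neg hx.le, neg_sub]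
    have e5 : x ^ (1 - d) ≤ x ^ (-(1 + δ)) * x ^ 2 := by
      rw [← Real.rpow_natCast x 2, ← Real.rpow_add hx]
      refine Real.rpow_le_rpow_of_exponent_ge hx hx1 ?_
      push_cast
      linarith
    rw [e1, mul_assoc]
    exact e3.trans (e4.le.trans (mul_le_mul_of_nonneg_left e5 (by positivity)))

theorem cheap_cov (hCOV : S_COV) {M : ℕ} (hM : 400 ≤ M) {δ r0 ρ C : ℝ} {Y : Set ℂ}
    (hδ : Real.log 6 / Real.log M < δ) (hr : 0 < r0) (h : CheapPath M r0 ρ C Y) :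
    ∃ γ : Br, range γ ⊆ Y ∧ ρ ≤ dist (γ 0) (γ 1) ∧ ∃ K : ℝ, ∀ x : ℝ, 0 < x → x ≤ r0 → x ≤ 1 →
      Cov x (K * x ^ (-(1 + δ))) (range γ) := by
  obtain ⟨x₀, y₀, γ, h1, h2, h3⟩ := h
  obtain ⟨K, hK, hb⟩ := pow_bound hM hδ hr
  have hr' : range γ.toContinuousMap = range γ := rfl
  refine ⟨γ.toContinuousMap, hr' ▸ h1, by simpa using h2, 2 * (|C| * K), fun x hx hxr hx1 => ?_⟩
  obtain ⟨i, hi, hi'⟩ := hb x hx hxr hx1
  have hp : 0 ≤ x ^ (-(1 + δ)) := by positivity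
  have := (hCOV x (|C| * K * x ^ (-(1 + δ))) (range γ) hx).2.1 (by positivity)
    ((measure_mono (thickening_mono hi _)).trans ((h3 i).trans (ENNReal.ofReal_le_ofReal (by
      have h6 : 0 ≤ (6 / (M : ℝ)) ^ i := by positivity
      calc C * (6 / (M : ℝ)) ^ i ≤ |C| * (6 / (M : ℝ)) ^ i :=
            mul_le_mul_of_nonneg_right (le_abs_self C) h6
        _ ≤ |C| * (K * x ^ (-(1 + δ)) * x ^ 2) := mul_le_mul_of_nonneg_left hi' (abs_nonneg C)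
        _ = _ := by ring))))
  rw [hr']
  exact this.mono le_rfl (le_of_eq (by ring)) Subset.rfl

theorem cheap_pos (hTRFO : S_TRFO) (hTREE : S_TREE) {ν : Measure Br} (hν : IsBridge ν)
    {M : ℕ} (hM : 400 ≤ M) : ∃ α0 > (0 : ℝ), ∀ c ≤ α0, ∀ (Ω : Type) [MeasurableSpace Ω]
      [StandardBorelSpace Ω] (P : Measure Ω) (Γ : Ω → Set (Set ℂ)) (κ : ℝ),
      intensity κ = ENNReal.ofReal c → IsCLE ν κ P Γ → ∀ r ∈ Ioc (0 : ℝ) (1 / 2),
      P {ω | ∃ V, IsFirst (Γ ω) V ∧ ball 0 r ⊆ V} ≠ 0 →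
      ∃ C : ℝ, ¬ ∀ᵐ ω ∂P, ¬ CheapPath M (r / 2 / 16) (r / 2) C (firstCarpet (Γ ω)) := by
  obtain ⟨α0, hα0, hs⟩ := soup_good hν hM
  refine ⟨α0, hα0, fun c hc Ω _ _ P Γ κ hκ hΓ r hr hne => ?_⟩
  obtain ⟨Ω₀, _, P₀, N, hN, htr⟩ := hTRFO ν κ Ω P Γ hΓ
  have := hN.prob
  have hρ : 0 < r / 2 := half_pos hr.1
  obtain ⟨C, A, hA, hA0, hAC⟩ := hs _ (hκ.trans_le (ENNReal.ofReal_le_ofReal hc)) hN (r / 2) hρ
    (by linarith [hr.2])
  refine ⟨C, fun h0 => ?_⟩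
  obtain ⟨V, -, h1, h2, h3⟩ := htr r {G | ¬ CheapPath M (r / 2 / 16) (r / 2) C (firstCarpet G)}
    (by simpa only [mem_ofPred_eq, firstCarpet_within] using h0) hne (P₀ A / 2)
    (ENNReal.half_pos hA0).ne'
  refine absurd (h3 A hA fun ω hω G hG hn => hn ?_)
    (not_le.2 (ENNReal.half_lt_self hA0 (measure_ne_top _ _)))
  have e := hAC ω hω
  rw [mul_div_cancel₀ r two_ne_zero] at e
  exact e.mono ((LimA.sub_carp hTREE h1 h2).trans hG.2.2.1)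

end Upb1A

theorem p_UPB1 (hTRFO : S_TRFO) (hTREE : S_TREE) (hCOV : S_COV) :
    S_UPB1 := by
  intro ν hν δ hδ
  have h1 : Tendsto (fun M : ℕ => Real.log 6 / Real.log M) atTop (𝓝 0) :=
    tendsto_const_nhds.div_atTop (Real.tendsto_log_atTop.comp tendsto_natCast_atTop_atTop)
  obtain ⟨M, hM, hMδ⟩ := ((eventually_ge_atTop 400).and (h1.eventually (gt_mem_nhds hδ))).exists
  obtain ⟨α0, hα0, hw⟩ := Upb1A.cheap_pos hTRFO hTREE hν hM
  refine ⟨α0, hα0, fun c hc θ e b hL => ?_⟩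
  obtain ⟨hS, Ω, _, _, P, Γ, κ, hκ, hΓ, ⟨r, hr, hne⟩, hdiag⟩ := hL
  obtain ⟨C, hC⟩ := hw c hc Ω P Γ κ hκ hΓ r hr hne
  by_contra hcon
  have hJ : ∀ k : ℕ, ∃ᶠ n in atTop, n ∈ {n | (k : ℝ) * e n ^ (-(1 + δ)) < b n} := by
    intro k
    refine Eventually.frequently ?_
    have := not_frequently.1 (not_exists.1 hcon (k : ℝ))
    exact this.mono fun n hn => not_le.1 hn
  obtain ⟨n, a, hna, hlim, hae⟩ := hdiag 1 one_pos (fun _ => 1) _ (fun _ => one_pos) hJ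
  simp only [div_one, Real.one_rpow, mul_one, dil_one] at hna hlim hae
  refine hC (hae.mono fun ω hω hch => ?_)
  have hr0 : 0 < r / 2 / 16 := by linarith [hr.1]
  obtain ⟨γ, hγ, hd, K, hK⟩ := Upb1A.cheap_cov hCOV hM hMδ hr0 hch
  obtain ⟨τ, hτ, j₀, hj⟩ := hω.2 (r / 2) (half_pos hr.1)
  have h2 : ∀ᶠ j : ℕ in atTop, K / τ ≤ j := tendsto_natCast_atTop_atTop.eventually_ge_atTop _
  obtain ⟨j, h3, h4, h5, h6⟩ := ((eventually_ge_atTop j₀).and (h2.and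
    ((hlim.eventually (ge_mem_nhds hr0)).and (hlim.eventually (ge_mem_nhds one_pos))))).exists
  have hx := (hS.1 (n j)).1
  refine hj j h3 γ hγ hd ((hK _ hx h5 h6).mono le_rfl ?_ Subset.rfl)
  rw [(hna j).2]
  have h7 : (j : ℝ) * e (n j) ^ (-(1 + δ)) < b (n j) := (hna j).1
  have h8 : 0 ≤ e (n j) ^ (-(1 + δ)) := by positivity
  rw [div_le_iff₀ hτ] at h4
  nlinarith [mul_le_mul_of_nonneg_right h4 h8, mul_lt_mul_of_pos_left h7 hτ]

end Pool.Agent.P.MP_d66c6d_pr
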