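import Pool.Agent.P.MP_d66c6d_pr.V.Iface
import Pool.Agent.P.MP_d66c6d_pr.J.Iface3
import Pool.Agent.P.MP_d66c6d_pr.F.Iface
import Pool.Agent.P.MP_d66c6d_pr.Nest

/-! Step UPG1 of the carpet project. -/

namespace Pool.Agent.P.MP_d66c6d_pr

open MeasureTheory ProbabilityTheory Set Metric Filter Topology
open scoped ENNReal

theorem p_UPG1 (hGENJ : S_GENJ) (hTRANS : S_TRANS) (hMUK : S_MUK) :
    S_UPG1 := by
  intro ν hν c c₂ θ hc h12 h21 hs h
  obtain ⟨Ω, _, _, P, Γ, κ, hk, ⟨hP, Ω₀, m₀, s₀, P₀, N, hN, hcp⟩, hθ⟩ := h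
  have := hN.prob
  have hw : ∀ ρ ω, within ρ {V ∈ Γ ω | Bornology.IsBounded V} = within ρ (Γ ω) := fun ρ ω => by
    ext V
    exact ⟨fun h => ⟨h.1.1, h.2⟩, fun h => ⟨⟨h.1, isBounded_ball.subset h.2⟩, h.2⟩⟩
  have hsf : SigmaFinite (loopMeasure ν) := (hMUK ν hν).1
  have hsf2 : SigmaFinite (intensity κ • loopMeasure ν) := by
    rw [hk]
    exact inferInstanceAs (SigmaFinite (c.toNNReal • loopMeasure ν))
  have h2 := hTRANS Ω₀ Lp Lp P₀ _ N id hsf2 hN measurable_id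
  simp only [Measure.map_id, image_id, hk] at h2
  have h3 := hGENJ ν hν c c₂ hc h12 h21 hs Ω₀ P₀ _ h2
  have h4 : ∀ m : ℕ, ∀ᵐ ω ∂P, ∀ V ∈ within (m + 1) (Γ ω), IsJordan V := fun m => by
    rw [ae_iff]
    refine le_antisymm (ENNReal.le_of_forall_pos_le_add fun η hη _ => ?_) zero_le
    obtain ⟨R, hR⟩ := hcp (m + 1) (by positivity) η (by exact_mod_cast hη)
    obtain ⟨Q, q1, q2, q3⟩ := hR (max R 1) (le_max_left _ _)
    have : IsProbabilityMeasure Q := ⟨by
      rw [← preimage_univ (f := Prod.fst), ← Measure.map_apply measurable_fst MeasurableSet.univ,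
        q1, measure_univ]⟩
    have h5 := (transfer Q (fun ω => within (m + 1) (Γ ω))
      (fun ω => within (m + 1) (nested2 (fun k => trace '' N (ω k)) (ball 0 (max R 1))))
      {G | ¬ ∀ V ∈ G, IsJordan V}).1
    rw [q1, q2] at h5
    refine h5.trans (add_le_add (le_of_eq (measure_mono_null ?_
      (ae_iff.1 (h3 (max R 1) (by positivity))))) q3)
    exact fun ω hω h6 => hω fun V hV => h6 V hV.1
  refine ⟨Ω, _, inferInstance, P, fun ω => {V ∈ Γ ω | Bornology.IsBounded V}, κ, hk,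
    ⟨hP, ?_, Ω₀, m₀, s₀, P₀, N, hN, by simpa only [hw] using hcp⟩, ?_⟩
  · filter_upwards [ae_all_iff.2 h4] with ω hω V hV
    obtain ⟨r, hr⟩ := hV.2.subset_ball 0
    obtain ⟨m, hm⟩ := exists_nat_ge r
    exact hω m V ⟨hV.1, hr.trans (ball_subset_ball (by linarith))⟩
  · have e : (fun ω => firstCarpet {V ∈ Γ ω | Bornology.IsBounded V}) =
        fun ω => firstCarpet (Γ ω) := funext fun ω => by
      rw [← firstCarpet_within, hw, firstCarpet_within]
    rw [e]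
    exact hθ

end Pool.Agent.P.MP_d66c6d_pr
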