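import Pool.Agent.P.MP_d66c6d_pr.V.Iface

/-! Step ZKC of the carpet project. -/

namespace Pool.Agent.P.MP_d66c6d_pr

open MeasureTheory ProbabilityTheory Set Metric Filter Topology
open scoped ENNReal

theorem p_ZKC (hCOVC : S_COVC) :
    S_ZKC := by
  intro T x t k hx h
  refine ⟨fun y hy ξ hξ => ?_, fun hy ξ hξ => ?_⟩ <;>
    obtain ⟨ξ', h0, j, z, ρ, d, h1, h2, h3, h4⟩ := h ξ hξ
  · have y0 : 0 < y := hx.trans_le hy
    refine ⟨ξ', h0, j, z, ρ, fun i => ⌈12 * (d i * x / y) + 1⌉₊, ?_,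
      fun i => ⟨(h3 i).1, (h3 i).2.1.trans_le hy, (h3 i).2.2⟩,
      h4.trans (iUnion_mono fun i => closure_mono fun w ⟨γ, a1, a2, a3, a4⟩ =>
        ⟨γ, a1, a2, a3, (hCOVC.2 γ x y _ hx hy a4).mono le_rfl (Nat.le_ceil _) subset_rfl⟩)⟩
    have a1 : ∀ i, ((⌈12 * (d i * x / y) + 1⌉₊ : ℕ) : ℝ) + 1 ≤
        12 * (x / y) * ((d i : ℝ) + 1) + 3 := fun i => by
      have b1 := (Nat.ceil_lt_add_one (by positivity : (0 : ℝ) ≤ 12 * (d i * x / y) + 1)).le
      have b2 : 0 ≤ x / y := by positivity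
      rw [mul_div_assoc] at b1 ⊢
      linarith
    refine (Finset.sum_le_sum fun i _ => a1 i).trans ?_
    rw [Finset.sum_add_distrib, ← Finset.mul_sum, Finset.sum_const, Finset.card_univ,
      Fintype.card_fin, nsmul_eq_mul, mul_div_assoc]
    have b1 := mul_le_mul_of_nonneg_left h2 (by positivity : 0 ≤ 12 * (x / y))
    have b2 : (j : ℝ) ≤ k := by exact_mod_cast h1
    linarith
  · refine ⟨ξ', h0, j, z, ρ, fun _ => 1, ?_,
      fun i => ⟨(h3 i).1, (h3 i).2.1.trans_le hy, (h3 i).2.2⟩,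
      h4.trans (iUnion_mono fun i => closure_mono fun w ⟨γ, a1, a2, a3, _⟩ =>
        ⟨γ, a1, a2, a3, (cov_ball 0 3).mono le_rfl (by norm_num) fun v hv =>
          ball_subset_ball (by norm_num) (a3 hv).2⟩)⟩
    rw [Finset.sum_const, Finset.card_univ, Fintype.card_fin, nsmul_eq_mul]
    have b2 : (j : ℝ) ≤ k := by exact_mod_cast h1
    push_cast
    linarith

end Pool.Agent.P.MP_d66c6d_pr
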